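import Pool.Agent.Lib.MP_4f1247_co.NN.Chi94

/-!
# Triangles in general position which are not pierced by segments meet in common faces only
-/

set_option autoImplicit false

namespace Pool.Agent.Lib.MP_4f1247_co.NN

theorem ori_eq (a b c d : E) : ori a b c d =
    -((b 0 - a 0) * ((c 1 - a 1) * (d 2 - a 2) - (c 2 - a 2) * (d 1 - a 1)) -
      (b 1 - a 1) * ((c 0 - a 0) * (d 2 - a 2) - (c 2 - a 2) * (d 0 - a 0)) +
      (b 2 - a 2) * ((c 0 - a 0) * (d 1 - a 1) - (c 1 - a 1) * (d 0 - a 0))) := rfl

/-- the coefficients of the affine function `ori a b c` -/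
theorem ori_aff (a b c : E) : ∃ k₀ k₁ k₂ k₃ : ℝ, ∀ d : E,
    ori a b c d = k₀ * d 0 + k₁ * d 1 + k₂ * d 2 + k₃ := by
  refine ⟨-((b 1 - a 1) * (c 2 - a 2) - (b 2 - a 2) * (c 1 - a 1)),
    ((b 0 - a 0) * (c 2 - a 2) - (b 2 - a 2) * (c 0 - a 0)),
    -((b 0 - a 0) * (c 1 - a 1) - (b 1 - a 1) * (c 0 - a 0)),
    ((b 1 - a 1) * (c 2 - a 2) - (b 2 - a 2) * (c 1 - a 1)) * a 0 -
      ((b 0 - a 0) * (c 2 - a 2) - (b 2 - a 2) * (c 0 - a 0)) * a 1 +
      ((b 0 - a 0) * (c 1 - a 1) - (b 1 - a 1) * (c 0 - a 0)) * a 2, fun d => ?_⟩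
  rw [ori_eq]
  ring

theorem ori_self₁ (a b c : E) : ori a b c a = 0 := by rw [ori_eq]; ring

theorem ori_self₂ (a b c : E) : ori a b c b = 0 := by rw [ori_eq]; ring

theorem ori_self₃ (a b c : E) : ori a b c c = 0 := by rw [ori_eq]; ring

/-- a dependency is one of the values of an affine function -/
theorem dep {ι : Type*} (s : Finset ι) (γ : ι → ℝ) (p : ι → E) (h0 : ∑ i ∈ s, γ i = 0)
    (h1 : ∑ i ∈ s, γ i • p i = 0) (a b c : E) : ∑ i ∈ s, γ i * ori a b c (p i) = 0 := by
  obtain ⟨k₀, k₁, k₂, k₃, hk⟩ := ori_aff a b c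
  have hc : ∀ j : Fin 3, ∑ i ∈ s, γ i * p i j = 0 := by
    intro j
    have := congrArg (fun v : E => v j) h1
    simpa using this
  calc ∑ i ∈ s, γ i * ori a b c (p i)
      = k₀ * ∑ i ∈ s, γ i * p i 0 + k₁ * ∑ i ∈ s, γ i * p i 1 + k₂ * ∑ i ∈ s, γ i * p i 2
          + k₃ * ∑ i ∈ s, γ i := by
        rw [Finset.mul_sum, Finset.mul_sum, Finset.mul_sum, Finset.mul_sum,
          ← Finset.sum_add_distrib, ← Finset.sum_add_distrib, ← Finset.sum_add_distrib]
        exact Finset.sum_congr rfl fun i _ => by rw [hk]; ring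
    _ = 0 := by rw [hc, hc, hc, h0]; ring

/-- a certificate: the segment `a b` does not meet the triangle `u v w` -/
def Cert (a b u v w : E) : Prop :=
  0 < ori u v w a * ori u v w b ∨ 0 < ori a b u v * ori a b u w ∨
    0 < ori a b v u * ori a b v w ∨ 0 < ori a b w u * ori a b w v

theorem mul_pos_ne {x y : ℝ} (h : 0 < x * y) : x ≠ 0 ∧ y ≠ 0 := by
  constructor
  · rintro rfl
    simp at h
  · rintro rfl
    simp at h

/-- two numbers of the same sign have no positive combination `0` -/
theorem same {x y r s : ℝ} (h : 0 < x * y) (hr : 0 < r) (hs : 0 < s) : r * x + s * y ≠ 0 := by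
  intro h0
  rcases pos_and_pos_or_neg_and_neg_of_mul_pos h with ⟨hx, hy⟩ | ⟨hx, hy⟩
  · have := mul_pos hr hx
    have := mul_pos hs hy
    linarith
  · have := mul_neg_of_pos_of_neg hr hx
    have := mul_neg_of_pos_of_neg hs hy
    linarith

/-- a certified segment does not pierce -/
theorem no_stab {a b u v w : E} (h : Cert a b u v w) {α β r s t : ℝ} (hα : 0 < α) (hβ : 0 < β)
    (hr : 0 < r) (hs : 0 < s) (ht : 0 < t) (h0 : α + β = r + s + t)
    (h1 : α • a + β • b = r • u + s • v + t • w) : False := by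
  set p : Fin 5 → E := ![a, b, u, v, w] with hp
  set γ : Fin 5 → ℝ := ![α, β, -r, -s, -t] with hγ
  have e0 : ∑ i, γ i = 0 := by
    simp only [hγ, Fin.sum_univ_five]
    simp
    linarith
  have e1 : ∑ i, γ i • p i = 0 := by
    simp only [hγ, hp, Fin.sum_univ_five]
    have : α • a + β • b + -r • u + -s • v + -t • w = 0 := by
      rw [h1, neg_smul, neg_smul, neg_smul]
      abel
    simpa using this
  have key : ∀ x y z : E, α * ori x y z a + β * ori x y z b - r * ori x y z u - s * ori x y z v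
      - t * ori x y z w = 0 := by
    intro x y z
    have := dep Finset.univ γ p e0 e1 x y z
    simp only [hγ, hp, Fin.sum_univ_five] at this
    simp at this
    linarith
  rcases h with h | h | h | h
  · have := key u v w
    rw [ori_self₁, ori_self₂, ori_self₃] at this
    exact same h hα hβ (by linarith)
  · have := key a b u
    rw [ori_self₁, ori_self₂, ori_self₃] at this
    exact same h hs ht (by linarith)
  · have := key a b v
    rw [ori_self₁, ori_self₂, ori_self₃] at this
    exact same h hr ht (by linarith)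
  · have := key a b w
    rw [ori_self₁, ori_self₂, ori_self₃] at this
    exact same h hr hs (by linarith)

theorem Cert.swap {a b u v w : E} (h : Cert a b u v w) : Cert b a u v w := by
  have e : ∀ x y, ori b a x y = -ori a b x y := fun x y => ori_12 a b x y
  unfold Cert at *
  rw [e, e, e, e, e, e, neg_mul_neg, neg_mul_neg, neg_mul_neg, mul_comm (ori u v w b)]
  exact h

theorem Cert.uv {a b u v w : E} (h : Cert a b u v w) : Cert a b v u w := by
  have e : ∀ x, ori v u w x = -ori u v w x := fun x => ori_12 u v w x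
  unfold Cert at *
  rw [e, e, neg_mul_neg, mul_comm (ori a b w v)]
  tauto

theorem Cert.vw {a b u v w : E} (h : Cert a b u v w) : Cert a b u w v := by
  have e : ∀ x, ori u w v x = -ori u v w x := fun x => ori_23 u v w x
  unfold Cert at *
  rw [e, e, neg_mul_neg, mul_comm (ori a b u w)]
  tauto

section general

variable {ι : Type*} [DecidableEq ι] (p : ι → E)

/-- four points are not in a plane -/
def GP : Prop := ∀ a b c d : ι, a ≠ b → a ≠ c → a ≠ d → b ≠ c → b ≠ d → c ≠ d →
  ori (p a) (p b) (p c) (p d) ≠ 0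

/-- the triangle `t` is pierced by no segment -/
def Free (t : Finset ι) : Prop := ∀ a b u v w : ι, t = {u, v, w} → u ≠ v → u ≠ w → v ≠ w →
  a ∉ t → b ∉ t → a ≠ b → Cert (p a) (p b) (p u) (p v) (p w)

variable {p}

/-- one order is enough -/
theorem free_of {u v w : ι}
    (h : ∀ a b : ι, a ≠ u → a ≠ v → a ≠ w → b ≠ u → b ≠ v → b ≠ w → a ≠ b →
      Cert (p a) (p b) (p u) (p v) (p w)) : Free p {u, v, w} := by
  intro a b u' v' w' he huv huw hvw ha hb hab
  have hc : Cert (p a) (p b) (p u) (p v) (p w) := by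
    simp only [Finset.mem_insert, Finset.mem_singleton, not_or] at ha hb
    exact h a b ha.1 ha.2.1 ha.2.2 hb.1 hb.2.1 hb.2.2 hab
  have hu : u' ∈ ({u, v, w} : Finset ι) := by rw [he]; simp
  have hv : v' ∈ ({u, v, w} : Finset ι) := by rw [he]; simp
  have hw : w' ∈ ({u, v, w} : Finset ι) := by rw [he]; simp
  simp only [Finset.mem_insert, Finset.mem_singleton] at hu hv hw
  rcases hu with rfl | rfl | rfl <;> rcases hv with rfl | rfl | rfl <;>
    rcases hw with rfl | rfl | rfl <;> first
    | exact absurd rfl huv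
    | exact absurd rfl huw
    | exact absurd rfl hvw
    | exact hc
    | exact hc.uv
    | exact hc.vw
    | exact hc.uv.vw
    | exact hc.vw.uv
    | exact hc.uv.vw.uv

/-- no dependency of four points -/
theorem dep_four (h : GP p) (s : Finset ι) (hs : s.card = 4) (γ : ι → ℝ)
    (h0 : ∑ i ∈ s, γ i = 0) (h1 : ∑ i ∈ s, γ i • p i = 0) : ∀ i ∈ s, γ i = 0 := by
  intro i hi
  have hc : (s.erase i).card = 3 := by rw [Finset.card_erase_of_mem hi, hs]
  obtain ⟨a, b, c, hab, hac, hbc, he⟩ := Finset.card_eq_three.1 hc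
  have ha : a ∈ s.erase i := by rw [he]; simp
  have hb : b ∈ s.erase i := by rw [he]; simp
  have hcc : c ∈ s.erase i := by rw [he]; simp
  have hai := Finset.ne_of_mem_erase ha
  have hbi := Finset.ne_of_mem_erase hb
  have hci := Finset.ne_of_mem_erase hcc
  have := dep s γ p h0 h1 (p a) (p b) (p c)
  rw [← Finset.add_sum_erase s _ hi, he, Finset.sum_insert (by simp [hab, hac]),
    Finset.sum_insert (by simp [hbc]), Finset.sum_singleton, ori_self₁, ori_self₂,
    ori_self₃] at this
  simp only [mul_zero, add_zero] at this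
  rcases mul_eq_zero.1 this with h2 | h2
  · exact h2
  · exact absurd h2 (h a b c i hab hac hai hbc hbi hci)

/-- no dependency of at most four points -/
theorem dep_le_four [Fintype ι] (h : GP p) (hn : 4 ≤ Fintype.card ι) (s : Finset ι)
    (hs : s.card ≤ 4) (γ : ι → ℝ) (h0 : ∑ i ∈ s, γ i = 0) (h1 : ∑ i ∈ s, γ i • p i = 0) :
    ∀ i ∈ s, γ i = 0 := by
  obtain ⟨s', hs', hc⟩ := Finset.exists_superset_card_eq hs (by simpa using hn)
  have key := dep_four h s' hc (fun i => if i ∈ s then γ i else 0) (by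
    rw [Finset.sum_ite_mem, Finset.inter_eq_right.2 hs']
    exact h0) (by
    simp only [ite_smul, zero_smul]
    rw [Finset.sum_ite_mem, Finset.inter_eq_right.2 hs']
    exact h1)
  intro i hi
  simpa [hi] using key i (hs' hi)

/-- a dependency of five points with three of one sign -/
theorem five {t q : Finset ι} (hF : Free p t) (ht : t.card = 3) (hq : q.card = 2)
    (hd : Disjoint t q) (γ : ι → ℝ) (h0 : ∑ i ∈ t ∪ q, γ i = 0)
    (h1 : ∑ i ∈ t ∪ q, γ i • p i = 0) (hpos : ∀ i ∈ t, 0 < γ i) (hneg : ∀ i ∈ q, γ i < 0) :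
    False := by
  obtain ⟨u, v, w, huv, huw, hvw, rfl⟩ := Finset.card_eq_three.1 ht
  obtain ⟨a, b, hab, rfl⟩ := Finset.card_eq_two.1 hq
  have ha : a ∉ ({u, v, w} : Finset ι) := Finset.disjoint_right.1 hd (by simp)
  have hb : b ∉ ({u, v, w} : Finset ι) := Finset.disjoint_right.1 hd (by simp)
  rw [Finset.sum_union hd] at h0 h1
  rw [Finset.sum_insert (by simp [huv, huw]), Finset.sum_insert (by simp [hvw]),
    Finset.sum_singleton, Finset.sum_insert (by simpa using hab), Finset.sum_singleton] at h0 h1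
  refine no_stab (hF a b u v w rfl huv huw hvw ha hb hab) (α := -γ a) (β := -γ b) (r := γ u)
    (s := γ v) (t := γ w) ?_ ?_ (hpos u (by simp)) (hpos v (by simp)) (hpos w (by simp)) ?_ ?_
  · have := hneg a (by simp)
    linarith
  · have := hneg b (by simp)
    linarith
  · linarith
  · rw [neg_smul, neg_smul, ← sub_eq_zero]
    have h2 : -(γ a • p a) + -(γ b • p b) - (γ u • p u + γ v • p v + γ w • p w) =
        -(γ u • p u + (γ v • p v + γ w • p w) + (γ a • p a + γ b • p b)) := by abel
    rw [h2, h1, neg_zero]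

theorem five' {t q : Finset ι} (hF : Free p t) (ht : t.card = 3) (hq : q.card = 2)
    (hd : Disjoint t q) (γ : ι → ℝ) (h0 : ∑ i ∈ t ∪ q, γ i = 0)
    (h1 : ∑ i ∈ t ∪ q, γ i • p i = 0) (hpos : ∀ i ∈ t, γ i < 0) (hneg : ∀ i ∈ q, 0 < γ i) :
    False := by
  refine five hF ht hq hd (fun i => -γ i) ?_ ?_ ?_ ?_
  · rw [Finset.sum_neg_distrib, h0, neg_zero]
  · simp only [neg_smul]
    rw [Finset.sum_neg_distrib, h1, neg_zero]
  · intro i hi
    have := hpos i hi
    linarith
  · intro i hi
    have := hneg i hi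
    linarith

/-- a dependency of six points, three of each sign, one coefficient zero -/
theorem six_zero [Fintype ι] (h : GP p) (hn : 4 ≤ Fintype.card ι) {t s : Finset ι}
    (hFt : Free p t) (hFs : Free p s) (ht : t.card = 3) (hs : s.card = 3) (hd : Disjoint t s)
    (γ : ι → ℝ) (h0 : ∑ i ∈ t ∪ s, γ i = 0) (h1 : ∑ i ∈ t ∪ s, γ i • p i = 0)
    (hpos : ∀ i ∈ t, 0 ≤ γ i) (hneg : ∀ i ∈ s, γ i ≤ 0) (j : ι) (hj : j ∈ t ∪ s)
    (hj0 : γ j = 0) : ∀ i ∈ t ∪ s, γ i = 0 := by
  by_contra hcon
  push Not at hcon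
  obtain ⟨i₀, hi₀, hi₀'⟩ := hcon
  have hcard : ((t ∪ s).erase j).card = 5 := by
    rw [Finset.card_erase_of_mem hj, Finset.card_union_of_disjoint hd, ht, hs]
  have e0 : ∑ i ∈ (t ∪ s).erase j, γ i = 0 := by
    rw [← Finset.add_sum_erase _ _ hj, hj0, zero_add] at h0
    exact h0
  have e1 : ∑ i ∈ (t ∪ s).erase j, γ i • p i = 0 := by
    rw [← Finset.add_sum_erase _ _ hj, hj0, zero_smul, zero_add] at h1
    exact h1
  have hij : i₀ ∈ (t ∪ s).erase j := Finset.mem_erase.2 ⟨fun h => hi₀' (h ▸ hj0), hi₀⟩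
  have hne : ∀ k ∈ (t ∪ s).erase j, γ k ≠ 0 := by
    intro k hk hk0
    have hc : (((t ∪ s).erase j).erase k).card ≤ 4 := by
      rw [Finset.card_erase_of_mem hk, hcard]
    have f0 : ∑ i ∈ ((t ∪ s).erase j).erase k, γ i = 0 := by
      rw [← Finset.add_sum_erase _ _ hk, hk0, zero_add] at e0
      exact e0
    have f1 : ∑ i ∈ ((t ∪ s).erase j).erase k, γ i • p i = 0 := by
      rw [← Finset.add_sum_erase _ _ hk, hk0, zero_smul, zero_add] at e1
      exact e1
    refine hi₀' (dep_le_four h hn _ hc γ f0 f1 i₀ (Finset.mem_erase.2 ⟨?_, hij⟩))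
    rintro rfl
    exact hi₀' hk0
  rcases Finset.mem_union.1 hj with hjt | hjs
  · have hjs : j ∉ s := Finset.disjoint_left.1 hd hjt
    have hd' : Disjoint s (t.erase j) := (hd.mono_left (Finset.erase_subset _ _)).symm
    have hu : s ∪ t.erase j = (t ∪ s).erase j := by
      ext x
      simp only [Finset.mem_union, Finset.mem_erase]
      constructor
      · rintro (hx | ⟨hx, hx'⟩)
        · exact ⟨fun h => hjs (h ▸ hx), Or.inr hx⟩
        · exact ⟨hx, Or.inl hx'⟩
      · rintro ⟨hx, hx' | hx'⟩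
        · exact Or.inr ⟨hx, hx'⟩
        · exact Or.inl hx'
    refine five' hFs hs (by rw [Finset.card_erase_of_mem hjt, ht]) hd' γ (by rw [hu]; exact e0)
      (by rw [hu]; exact e1) ?_ ?_
    · intro i hi
      exact lt_of_le_of_ne (hneg i hi) (hne i (hu ▸ Finset.mem_union_left _ hi))
    · intro i hi
      exact lt_of_le_of_ne (hpos i (Finset.mem_of_mem_erase hi))
        (Ne.symm (hne i (hu ▸ Finset.mem_union_right _ hi)))
  · have hjt : j ∉ t := Finset.disjoint_right.1 hd hjs
    have hd' : Disjoint t (s.erase j) := hd.mono_right (Finset.erase_subset _ _)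
    have hu : t ∪ s.erase j = (t ∪ s).erase j := by
      ext x
      simp only [Finset.mem_union, Finset.mem_erase]
      constructor
      · rintro (hx | ⟨hx, hx'⟩)
        · exact ⟨fun h => hjt (h ▸ hx), Or.inl hx⟩
        · exact ⟨hx, Or.inr hx'⟩
      · rintro ⟨hx, hx' | hx'⟩
        · exact Or.inl hx'
        · exact Or.inr ⟨hx, hx'⟩
    refine five hFt ht (by rw [Finset.card_erase_of_mem hjs, hs]) hd' γ (by rw [hu]; exact e0)
      (by rw [hu]; exact e1) ?_ ?_
    · intro i hi
      exact lt_of_le_of_ne (hpos i hi) (Ne.symm (hne i (hu ▸ Finset.mem_union_left _ hi)))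
    · intro i hi
      exact lt_of_le_of_ne (hneg i (Finset.mem_of_mem_erase hi))
        (hne i (hu ▸ Finset.mem_union_right _ hi))

/-- a dependency of six points, three of each sign -/
theorem six [Fintype ι] (h : GP p) (hn : 4 ≤ Fintype.card ι) {t s : Finset ι}
    (hFt : Free p t) (hFs : Free p s) (ht : t.card = 3) (hs : s.card = 3) (hd : Disjoint t s)
    (hinj : Function.Injective p)
    (γ : ι → ℝ) (h0 : ∑ i ∈ t ∪ s, γ i = 0) (h1 : ∑ i ∈ t ∪ s, γ i • p i = 0)
    (hpos : ∀ i ∈ t, 0 ≤ γ i) (hneg : ∀ i ∈ s, γ i ≤ 0) : ∀ i ∈ t ∪ s, γ i = 0 := by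
  by_contra hcon
  push Not at hcon
  obtain ⟨i₀, hi₀, hi₀'⟩ := hcon
  have hne : ∀ k ∈ t ∪ s, γ k ≠ 0 := fun k hk hk0 =>
    hi₀' (six_zero h hn hFt hFs ht hs hd γ h0 h1 hpos hneg k hk hk0 i₀ hi₀)
  have hcard : ((t ∪ s).erase i₀).card = 5 := by
    rw [Finset.card_erase_of_mem hi₀, Finset.card_union_of_disjoint hd, ht, hs]
  -- another dependency
  obtain ⟨f, hf1, hf0, x, hx, hfx⟩ :=
    Module.exists_nontrivial_relation_sum_zero_of_finrank_succ_lt_card (R := ℝ)
      (t := ((t ∪ s).erase i₀).image p) (by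
        rw [Finset.card_image_of_injective _ hinj, hcard]
        simp)
  obtain ⟨k, hk, rfl⟩ := Finset.mem_image.1 hx
  rw [Finset.sum_image (fun _ _ _ _ h => hinj h)] at hf1 hf0
  have key : ∀ δ : ι → ℝ, ∑ i ∈ t ∪ s, δ i = 0 → ∑ i ∈ t ∪ s, δ i • p i = 0 → δ i₀ = 0 →
      (∃ j ∈ t ∪ s, 0 < δ j * γ j) → False := by
    intro δ d0 d1 di ⟨j, hj, hjp⟩
    have hS : ((t ∪ s).filter fun i => 0 < δ i * γ i).Nonempty :=
      ⟨j, Finset.mem_filter.2 ⟨hj, hjp⟩⟩
    obtain ⟨m, hm, hmin⟩ := Finset.exists_min_image _ (fun i => γ i / δ i) hS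
    obtain ⟨hm1, hm2⟩ := Finset.mem_filter.1 hm
    set l : ℝ := γ m / δ m with hl
    have hδm : δ m ≠ 0 := (mul_pos_ne hm2).1
    have hl0 : 0 < l := by
      have : l = (δ m * γ m) / (δ m * δ m) := by
        rw [hl]
        field_simp
      rw [this]
      exact div_pos hm2 (mul_self_pos.2 hδm)
    have hle : ∀ i ∈ t ∪ s, 0 < δ i * γ i → l ≤ γ i / δ i := fun i hi hp =>
      hmin i (Finset.mem_filter.2 ⟨hi, hp⟩)
    have c := six_zero h hn hFt hFs ht hs hd (fun i => γ i - l * δ i) (by
        rw [Finset.sum_sub_distrib, ← Finset.mul_sum, h0, d0]; simp) (by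
        have : ∑ i ∈ t ∪ s, (γ i - l * δ i) • p i =
            ∑ i ∈ t ∪ s, γ i • p i - l • ∑ i ∈ t ∪ s, δ i • p i := by
          rw [Finset.smul_sum, ← Finset.sum_sub_distrib]
          exact Finset.sum_congr rfl fun i _ => by rw [sub_smul, mul_smul]
        rw [this, h1, d1]; simp) (by
        intro i hi
        have hi' : i ∈ t ∪ s := Finset.mem_union_left _ hi
        have hg : 0 < γ i := lt_of_le_of_ne (hpos i hi) (Ne.symm (hne i hi'))
        rcases le_or_gt (δ i) 0 with hd0 | hd0
        · have : l * δ i ≤ 0 := mul_nonpos_of_nonneg_of_nonpos hl0.le hd0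
          linarith
        · have := hle i hi' (mul_pos hd0 hg)
          rw [le_div_iff₀ hd0] at this
          linarith) (by
        intro i hi
        have hi' : i ∈ t ∪ s := Finset.mem_union_right _ hi
        have hg : γ i < 0 := lt_of_le_of_ne (hneg i hi) (hne i hi')
        rcases le_or_gt 0 (δ i) with hd0 | hd0
        · have : 0 ≤ l * δ i := mul_nonneg hl0.le hd0
          linarith
        · have := hle i hi' (mul_pos_of_neg_of_neg hd0 hg)
          rw [le_div_iff_of_neg hd0] at this
          linarith) m hm1 (by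
        simp only [hl]
        field_simp
        ring)
    have := c i₀ hi₀
    simp only [di, mul_zero, sub_zero] at this
    exact hi₀' this
  have hk' : k ∈ t ∪ s := Finset.mem_of_mem_erase hk
  have hki : k ≠ i₀ := Finset.ne_of_mem_erase hk
  set δ : ι → ℝ := fun i => if i = i₀ then 0 else f (p i) with hδ
  have d0 : ∑ i ∈ t ∪ s, δ i = 0 := by
    rw [← Finset.add_sum_erase _ _ hi₀]
    simp only [hδ, if_true, zero_add]
    rw [← hf0]
    exact Finset.sum_congr rfl fun i hi => by rw [if_neg (Finset.ne_of_mem_erase hi)]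
  have d1 : ∑ i ∈ t ∪ s, δ i • p i = 0 := by
    rw [← Finset.add_sum_erase _ _ hi₀]
    simp only [hδ, if_true, zero_smul, zero_add]
    rw [← hf1]
    exact Finset.sum_congr rfl fun i hi => by rw [if_neg (Finset.ne_of_mem_erase hi)]
  have di : δ i₀ = 0 := by simp [hδ]
  have hδk : δ k ≠ 0 := by
    simp only [hδ, if_neg hki]
    exact hfx
  rcases lt_or_gt_of_ne (mul_ne_zero hδk (hne k hk')) with hlt | hgt
  · refine key (fun i => -δ i) ?_ ?_ ?_ ⟨k, hk', ?_⟩
    · rw [Finset.sum_neg_distrib, d0, neg_zero]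
    · simp only [neg_smul]
      rw [Finset.sum_neg_distrib, d1, neg_zero]
    · simp only [di, neg_zero]
    · linarith
  · exact key δ d0 d1 di ⟨k, hk', hgt⟩

omit [DecidableEq ι] in
/-- points of the hull of `p i`, `i ∈ t` -/
theorem mem_hull (hinj : Function.Injective p) (t : Finset ι) (z : E) :
    z ∈ convexHull ℝ (p '' (t : Set ι)) ↔
      ∃ w : ι → ℝ, (∀ i ∈ t, 0 ≤ w i) ∧ ∑ i ∈ t, w i = 1 ∧ ∑ i ∈ t, w i • p i = z := by
  rw [← Finset.coe_image, Finset.mem_convexHull']
  constructor
  · rintro ⟨w, h0, h1, h2⟩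
    rw [Finset.sum_image (fun _ _ _ _ h => hinj h)] at h1 h2
    exact ⟨fun i => w (p i), fun i hi => h0 _ (Finset.mem_image_of_mem p hi), h1, h2⟩
  · rintro ⟨w, h0, h1, h2⟩
    have hne : Nonempty ι := by
      by_contra hemp
      rw [not_nonempty_iff] at hemp
      rw [Finset.eq_empty_of_isEmpty t] at h1
      simp at h1
    have hinv : ∀ i, Function.invFun p (p i) = i := Function.leftInverse_invFun hinj
    refine ⟨fun y => w (Function.invFun p y), ?_, ?_, ?_⟩
    · intro y hy
      obtain ⟨i, hi, rfl⟩ := Finset.mem_image.1 hy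
      show 0 ≤ w (Function.invFun p (p i))
      rw [hinv]
      exact h0 i hi
    · rw [Finset.sum_image (fun _ _ _ _ h => hinj h), ← h1]
      exact Finset.sum_congr rfl fun i _ => congrArg w (hinv i)
    · rw [Finset.sum_image (fun _ _ _ _ h => hinj h), ← h2]
      exact Finset.sum_congr rfl fun i _ => congrArg (fun j => w j • p i) (hinv i)

/-- a free triangle meets an edge, a point or a free triangle in the common face only -/
theorem meet [Fintype ι] (h : GP p) (hn : 4 ≤ Fintype.card ι) (hinj : Function.Injective p)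
    {t s : Finset ι} (ht : t.card = 3) (hFt : Free p t)
    (hs : s.card ≤ 2 ∨ s.card = 3 ∧ Free p s) :
    convexHull ℝ (p '' (t : Set ι)) ∩ convexHull ℝ (p '' (s : Set ι)) =
      convexHull ℝ (p '' ((t ∩ s : Finset ι) : Set ι)) := by
  apply Set.Subset.antisymm
  swap
  · refine Set.subset_inter (convexHull_mono (Set.image_mono ?_))
      (convexHull_mono (Set.image_mono ?_))
    · exact Finset.coe_subset.2 Finset.inter_subset_left
    · exact Finset.coe_subset.2 Finset.inter_subset_right
  rintro z ⟨hz1, hz2⟩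
  obtain ⟨α, a0, a1, a2⟩ := (mem_hull hinj t z).1 hz1
  obtain ⟨β, b0, b1, b2⟩ := (mem_hull hinj s z).1 hz2
  set γ : ι → ℝ := fun i => (if i ∈ t then α i else 0) - (if i ∈ s then β i else 0) with hγ
  have g0 : ∑ i ∈ t ∪ s, γ i = 0 := by
    simp only [hγ, Finset.sum_sub_distrib, Finset.sum_ite_mem]
    rw [Finset.inter_eq_right.2 Finset.subset_union_left,
      Finset.inter_eq_right.2 Finset.subset_union_right, a1, b1, sub_self]
  have g1 : ∑ i ∈ t ∪ s, γ i • p i = 0 := by
    simp only [hγ, sub_smul, ite_smul, zero_smul, Finset.sum_sub_distrib, Finset.sum_ite_mem]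
    rw [Finset.inter_eq_right.2 Finset.subset_union_left,
      Finset.inter_eq_right.2 Finset.subset_union_right, a2, b2, sub_self]
  have gt : ∀ i ∈ t, i ∉ s → γ i = α i := fun i hi hi' => by simp [hγ, hi, hi']
  have gs : ∀ i ∈ s, i ∉ t → γ i = -β i := fun i hi hi' => by simp [hγ, hi, hi']
  -- it is enough to see that `γ = 0`
  suffices hz : ∀ i ∈ t ∪ s, γ i = 0 by
    have hα : ∀ i ∈ t, i ∉ t ∩ s → α i = 0 := by
      intro i hi hi'
      have hi'' : i ∉ s := fun h => hi' (Finset.mem_inter.2 ⟨hi, h⟩)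
      rw [← gt i hi hi'']
      exact hz i (Finset.mem_union_left _ hi)
    refine (mem_hull hinj _ z).2 ⟨α, fun i hi => a0 i (Finset.mem_of_mem_inter_left hi), ?_, ?_⟩
    · rw [← a1]
      exact Finset.sum_subset Finset.inter_subset_left hα
    · rw [← a2]
      exact Finset.sum_subset Finset.inter_subset_left fun i hi hi' => by
        rw [hα i hi hi', zero_smul]
  by_cases hc4 : (t ∪ s).card ≤ 4
  · exact dep_le_four h hn _ hc4 γ g0 g1
  have hci := Finset.card_union_add_card_inter t s
  by_contra hcon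
  push Not at hcon
  obtain ⟨i₀, hi₀, hi₀'⟩ := hcon
  -- five points: all coefficients are different from zero
  have h5 : (t ∪ s).card = 5 → ∀ k ∈ t ∪ s, γ k ≠ 0 := by
    intro h5 k hk hk0
    have hc : ((t ∪ s).erase k).card ≤ 4 := by
      rw [Finset.card_erase_of_mem hk, h5]
    have f0 : ∑ i ∈ (t ∪ s).erase k, γ i = 0 := by
      rw [← Finset.add_sum_erase _ _ hk, hk0, zero_add] at g0
      exact g0
    have f1 : ∑ i ∈ (t ∪ s).erase k, γ i • p i = 0 := by
      rw [← Finset.add_sum_erase _ _ hk, hk0, zero_smul, zero_add] at g1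
      exact g1
    refine hi₀' (dep_le_four h hn _ hc γ f0 f1 i₀ (Finset.mem_erase.2 ⟨?_, hi₀⟩))
    rintro rfl
    exact hi₀' hk0
  rcases hs with hs | ⟨hs, hFs⟩
  · -- an edge
    have h5' : (t ∪ s).card = 5 := by omega
    have hd : Disjoint t s := by
      rw [Finset.disjoint_iff_inter_eq_empty, ← Finset.card_eq_zero]
      omega
    refine five hFt ht (by omega) hd γ g0 g1 ?_ ?_
    · intro i hi
      have h1 := h5 h5' i (Finset.mem_union_left _ hi)
      rw [gt i hi (Finset.disjoint_left.1 hd hi)] at h1 ⊢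
      exact lt_of_le_of_ne (a0 i hi) (Ne.symm h1)
    · intro i hi
      have h1 := h5 h5' i (Finset.mem_union_right _ hi)
      rw [gs i hi (Finset.disjoint_right.1 hd hi)] at h1 ⊢
      have h2 := b0 i hi
      have h3 : β i ≠ 0 := fun h => h1 (by rw [h, neg_zero])
      have h4 : 0 < β i := lt_of_le_of_ne h2 (Ne.symm h3)
      linarith
  · have h56 : (t ∩ s).card = 1 ∨ (t ∩ s).card = 0 := by omega
    rcases h56 with h1c | h0c
    · have h5' : (t ∪ s).card = 5 := by omega
      obtain ⟨v, hv⟩ := Finset.card_eq_one.1 h1c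
      have hvt : v ∈ t := Finset.mem_of_mem_inter_left (hv ▸ Finset.mem_singleton_self v)
      have hvs : v ∈ s := Finset.mem_of_mem_inter_right (hv ▸ Finset.mem_singleton_self v)
      have hts : ∀ i ∈ t, i ≠ v → i ∉ s := by
        intro i hi hiv his
        exact hiv (Finset.mem_singleton.1 (hv ▸ Finset.mem_inter.2 ⟨hi, his⟩))
      have hst : ∀ i ∈ s, i ≠ v → i ∉ t := by
        intro i hi hiv hit
        exact hiv (Finset.mem_singleton.1 (hv ▸ Finset.mem_inter.2 ⟨hit, hi⟩))
      have hgt : ∀ i ∈ t, i ≠ v → 0 < γ i := by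
        intro i hi hiv
        have h1 := h5 h5' i (Finset.mem_union_left _ hi)
        rw [gt i hi (hts i hi hiv)] at h1 ⊢
        exact lt_of_le_of_ne (a0 i hi) (Ne.symm h1)
      have hgs : ∀ i ∈ s, i ≠ v → γ i < 0 := by
        intro i hi hiv
        have h1 := h5 h5' i (Finset.mem_union_right _ hi)
        rw [gs i hi (hst i hi hiv)] at h1 ⊢
        have h3 : β i ≠ 0 := fun h => h1 (by rw [h, neg_zero])
        have h4 : 0 < β i := lt_of_le_of_ne (b0 i hi) (Ne.symm h3)
        linarith
      rcases lt_or_gt_of_ne (h5 h5' v (Finset.mem_union_left _ hvt)) with hlt | hgt'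
      · -- the edge of `t` opposite to `v` pierces `s`
        have hd : Disjoint s (t.erase v) := by
          rw [Finset.disjoint_left]
          intro i hi hi'
          exact hts i (Finset.mem_of_mem_erase hi') (Finset.ne_of_mem_erase hi') hi
        have hu : s ∪ t.erase v = t ∪ s := by
          ext x
          simp only [Finset.mem_union, Finset.mem_erase]
          constructor
          · rintro (hx | ⟨_, hx⟩)
            · exact Or.inr hx
            · exact Or.inl hx
          · rintro (hx | hx)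
            · by_cases hxv : x = v
              · exact Or.inl (hxv ▸ hvs)
              · exact Or.inr ⟨hxv, hx⟩
            · exact Or.inl hx
        refine five' hFs hs (by rw [Finset.card_erase_of_mem hvt, ht]) hd γ (by rw [hu]; exact g0)
          (by rw [hu]; exact g1) ?_ ?_
        · intro i hi
          by_cases hiv : i = v
          · rw [hiv]
            exact hlt
          · exact hgs i hi hiv
        · intro i hi
          exact hgt i (Finset.mem_of_mem_erase hi) (Finset.ne_of_mem_erase hi)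
      · have hd : Disjoint t (s.erase v) := by
          rw [Finset.disjoint_left]
          intro i hi hi'
          exact hst i (Finset.mem_of_mem_erase hi') (Finset.ne_of_mem_erase hi') hi
        have hu : t ∪ s.erase v = t ∪ s := by
          ext x
          simp only [Finset.mem_union, Finset.mem_erase]
          constructor
          · rintro (hx | ⟨_, hx⟩)
            · exact Or.inl hx
            · exact Or.inr hx
          · rintro (hx | hx)
            · exact Or.inl hx
            · by_cases hxv : x = v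
              · exact Or.inl (hxv ▸ hvt)
              · exact Or.inr ⟨hxv, hx⟩
        refine five hFt ht (by rw [Finset.card_erase_of_mem hvs, hs]) hd γ (by rw [hu]; exact g0)
          (by rw [hu]; exact g1) ?_ ?_
        · intro i hi
          by_cases hiv : i = v
          · rw [hiv]
            exact hgt'
          · exact hgt i hi hiv
        · intro i hi
          exact hgs i (Finset.mem_of_mem_erase hi) (Finset.ne_of_mem_erase hi)
    · have hd : Disjoint t s := by
        rw [Finset.disjoint_iff_inter_eq_empty, ← Finset.card_eq_zero]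
        exact h0c
      refine hi₀' (six h hn hFt hFs ht hs hd hinj γ g0 g1 ?_ ?_ i₀ hi₀)
      · intro i hi
        rw [gt i hi (Finset.disjoint_left.1 hd hi)]
        exact a0 i hi
      · intro i hi
        rw [gs i hi (Finset.disjoint_right.1 hd hi)]
        have := b0 i hi
        linarith

end general

end Pool.Agent.Lib.MP_4f1247_co.NN
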