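import Mathlib

/-!
# Three needles: the faces and the links

The faces are `{(τ, r), (τ, s), (τ + 1, t)}` with `r ≠ s` and `r + s + t` equal to `2 N - 2` or
`2 N - 1`, and `{(τ, r), (τ, s), (τ + 2, t)}` with `r ≠ s` and `r + s + t` equal to `N - 2` or
`N - 1`.  The link of every vertex is a path through all vertices with the vertex itself deleted.
-/

set_option autoImplicit false

namespace Pool.Agent.Lib.MP_4f1247_co.NN

open Finset

/-- the vertices -/
abbrev V (N : ℕ) : Type := Fin 3 × Fin N

/-- two vertices of one needle and one vertex of another needle that form a face -/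
def D (N : ℕ) (x y z : V N) : Prop :=
  x.1 = y.1 ∧ x.2 ≠ y.2 ∧
    ((z.1 = x.1 + 1 ∧
        ((x.2 : ℕ) + y.2 + z.2 + 2 = 2 * N ∨ (x.2 : ℕ) + y.2 + z.2 + 1 = 2 * N)) ∨
      (z.1 = x.1 + 2 ∧
        ((x.2 : ℕ) + y.2 + z.2 + 2 = N ∨ (x.2 : ℕ) + y.2 + z.2 + 1 = N)))

instance (N : ℕ) (x y z : V N) : Decidable (D N x y z) := by unfold D; infer_instance

/-- the faces -/
def T (N : ℕ) : Finset (Finset (V N)) :=
  univ.filter fun F => ∃ x y z : V N, F = {x, y, z} ∧ D N x y z

theorem D_swap {N : ℕ} {x y z : V N} (h : D N x y z) : D N y x z := by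
  obtain ⟨h1, h2, h3⟩ := h
  refine ⟨h1.symm, fun h => h2 h.symm, ?_⟩
  rw [← h1]
  rcases h3 with ⟨h4, h5⟩ | ⟨h4, h5⟩
  · left
    exact ⟨h4, by omega⟩
  · right
    exact ⟨h4, by omega⟩

theorem D_ne12 {N : ℕ} {x y z : V N} (h : D N x y z) : x ≠ y := fun h' => h.2.1 (by rw [h'])

theorem D_ne13 {N : ℕ} {x y z : V N} (h : D N x y z) : x ≠ z := by
  intro h'
  obtain ⟨h1, h2, h3⟩ := h
  rw [h'] at h3
  rcases h3 with ⟨h4, h5⟩ | ⟨h4, h5⟩ <;> omega

theorem D_ne23 {N : ℕ} {x y z : V N} (h : D N x y z) : y ≠ z := D_ne13 (D_swap h)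

theorem card_T {N : ℕ} {F : Finset (V N)} (h : F ∈ T N) : F.card = 3 := by
  simp only [T, mem_filter, mem_univ, true_and] at h
  obtain ⟨x, y, z, rfl, h⟩ := h
  rw [card_eq_three]
  exact ⟨x, y, z, D_ne12 h, D_ne13 h, D_ne23 h, rfl⟩

theorem mem_T {N : ℕ} {x y z : V N} (hxy : x ≠ y) (hxz : x ≠ z) (hyz : y ≠ z) :
    ({x, y, z} : Finset (V N)) ∈ T N ↔ D N x y z ∨ D N y z x ∨ D N z x y := by
  constructor
  · intro h
    simp only [T, mem_filter, mem_univ, true_and] at h
    obtain ⟨a, b, c, e, h⟩ := h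
    have hab := D_ne12 h
    have hac := D_ne13 h
    have hbc := D_ne23 h
    have ha : a = x ∨ a = y ∨ a = z := by
      have : a ∈ ({x, y, z} : Finset (V N)) := by rw [e]; simp
      simpa using this
    have hb : b = x ∨ b = y ∨ b = z := by
      have : b ∈ ({x, y, z} : Finset (V N)) := by rw [e]; simp
      simpa using this
    have hc : c = x ∨ c = y ∨ c = z := by
      have : c ∈ ({x, y, z} : Finset (V N)) := by rw [e]; simp
      simpa using this
    rcases ha with rfl | rfl | rfl <;> rcases hb with rfl | rfl | rfl <;>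
      rcases hc with rfl | rfl | rfl
    all_goals first
      | exact absurd rfl hab
      | exact absurd rfl hac
      | exact absurd rfl hbc
      | exact Or.inl h
      | exact Or.inl (D_swap h)
      | exact Or.inr (Or.inl h)
      | exact Or.inr (Or.inl (D_swap h))
      | exact Or.inr (Or.inr h)
      | exact Or.inr (Or.inr (D_swap h))
  · intro h
    simp only [T, mem_filter, mem_univ, true_and]
    rcases h with h | h | h
    · exact ⟨x, y, z, rfl, h⟩
    · refine ⟨y, z, x, ?_, h⟩
      ext w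
      simp only [mem_insert, mem_singleton]
      tauto
    · refine ⟨z, x, y, ?_, h⟩
      ext w
      simp only [mem_insert, mem_singleton]
      tauto

/-- the position of `x` in the path of `v` -/
def pos (N : ℕ) (v x : V N) : ℕ :=
  if x.1 = v.1 then 3 * N - 2 - v.2 - 2 * x.2
  else if x.1 = v.1 + 1 then
    if N - 1 - v.2 ≤ 2 * (x.2 : ℕ) then 2 * x.2 - (N - 1 - v.2) else N - 2 - v.2 - 2 * x.2
  else
    if 2 * (x.2 : ℕ) + v.2 + 2 ≤ 2 * N then N + 1 + v.2 + 2 * x.2
    else 5 * N - 2 - v.2 - 2 * x.2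

theorem fin3' (τ : Fin 3) : τ = 0 ∨ τ = 1 ∨ τ = 2 := by omega

theorem pos_lt {N : ℕ} (v x : V N) : pos N v x < 3 * N := by
  obtain ⟨τ, i, hi⟩ := v
  obtain ⟨α, j, hj⟩ := x
  simp only [pos]
  split_ifs <;> omega

theorem pos_inj {N : ℕ} (v : V N) : Function.Injective (pos N v) := by
  obtain ⟨τ, i, hi⟩ := v
  rintro ⟨α, j, hj⟩ ⟨β, k, hk⟩ h
  simp only [pos] at h
  have hh : α = β ∧ j = k := by
    rcases fin3' τ with rfl | rfl | rfl <;> rcases fin3' α with rfl | rfl | rfl <;>
      rcases fin3' β with rfl | rfl | rfl <;> simp at h ⊢ <;>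
        (try split_ifs at h) <;> omega
  obtain ⟨rfl, rfl⟩ := hh
  rfl

theorem pos_self {N : ℕ} (v : V N) : pos N v v = 3 * N - 2 - 3 * v.2 := by
  simp only [pos, if_true]
  omega

/-- adjacency in the link of `v` -/
theorem adj_iff {N : ℕ} (v x y : V N) (hx : x ≠ v) (hy : y ≠ v) (hxy : x ≠ y) :
    (D N v x y ∨ D N x y v ∨ D N y v x) ↔
      (pos N v x + 1 = pos N v y ∨ pos N v y + 1 = pos N v x) := by
  obtain ⟨τ, i, hi⟩ := v
  obtain ⟨α, j, hj⟩ := x
  obtain ⟨β, k, hk⟩ := y
  simp only [ne_eq, Prod.mk.injEq, Fin.mk.injEq] at hx hy hxy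
  simp only [D, pos, ne_eq, Fin.mk.injEq]
  rcases fin3' τ with rfl | rfl | rfl <;> rcases fin3' α with rfl | rfl | rfl <;>
    rcases fin3' β with rfl | rfl | rfl <;> simp at hx hy hxy ⊢ <;>
    (try split_ifs) <;> omega

/-- The link of `v` is a path through all vertices with `v` itself deleted; `v` is not an end
of this path. -/
theorem links {N : ℕ} (v : V N) : ∃ s : V N ≃ Fin (3 * N),
    0 < (s v : ℕ) ∧ (s v : ℕ) + 1 < 3 * N ∧ ∀ x y : V N, x ≠ v → y ≠ v →
      (({v, x, y} : Finset (V N)) ∈ T N ↔ (s x : ℕ) + 1 = s y ∨ (s y : ℕ) + 1 = s x) := by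
  have hb : Function.Bijective (fun x : V N => (⟨pos N v x, pos_lt v x⟩ : Fin (3 * N))) := by
    rw [Fintype.bijective_iff_injective_and_card]
    refine ⟨fun x y h => pos_inj v (by simpa using h), ?_⟩
    simp
  refine ⟨Equiv.ofBijective _ hb, ?_, ?_, ?_⟩
  · rw [Equiv.ofBijective_apply]
    change 0 < pos N v v
    rw [pos_self]
    have := v.2.2
    omega
  · rw [Equiv.ofBijective_apply]
    change pos N v v + 1 < 3 * N
    rw [pos_self]
    have := v.2.2
    omega
  · intro x y hx hy
    rw [Equiv.ofBijective_apply, Equiv.ofBijective_apply]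
    change _ ↔ pos N v x + 1 = pos N v y ∨ pos N v y + 1 = pos N v x
    by_cases hxy : x = y
    · subst hxy
      constructor
      · intro h
        have h1 := card_T h
        have h2 : ({v, x, x} : Finset (V N)).card ≤ 2 := by
          rw [pair_eq_singleton]
          exact card_le_two
        omega
      · intro h
        omega
    · rw [mem_T hx.symm hy.symm hxy]
      exact adj_iff v x y hx hy hxy

/-! ### Counting -/

section count

variable {α : Type*} [Fintype α] [DecidableEq α] {n : ℕ} (T : Finset (Finset α))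
  (h3 : ∀ F ∈ T, F.card = 3)

/-- the link of `v` is a path through all points with `v`, which is not an end, deleted -/
def PathAt (n : ℕ) (T : Finset (Finset α)) (v : α) : Prop :=
  ∃ s : α ≃ Fin n, 0 < (s v : ℕ) ∧ (s v : ℕ) + 1 < n ∧ ∀ x y : α, x ≠ v → y ≠ v →
    (({v, x, y} : Finset α) ∈ T ↔ (s x : ℕ) + 1 = s y ∨ (s y : ℕ) + 1 = s x)

include h3 in
omit [Fintype α] in
theorem third {v w : α} (hvw : v ≠ w) {F : Finset α} (hF : F ∈ T) (hv : v ∈ F) (hw : w ∈ F) :
    ∃ y, y ≠ v ∧ y ≠ w ∧ F = {v, w, y} := by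
  have h := h3 F hF
  have h1 : ({v, w} : Finset α) ⊆ F := by
    intro a ha
    simp only [mem_insert, mem_singleton] at ha
    rcases ha with rfl | rfl <;> assumption
  have h2 : (F \ {v, w}).card = 1 := by
    rw [card_sdiff_of_subset h1, h, card_pair hvw]
  obtain ⟨y, hy⟩ := card_eq_one.1 h2
  have hy' : y ∈ F \ {v, w} := by rw [hy]; simp
  simp only [mem_sdiff, mem_insert, mem_singleton, not_or] at hy'
  refine ⟨y, hy'.2.1, hy'.2.2, ?_⟩
  ext a
  constructor
  · intro ha
    by_cases hav : a ∈ ({v, w} : Finset α)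
    · simp only [mem_insert, mem_singleton] at hav ⊢
      tauto
    · have : a ∈ F \ {v, w} := mem_sdiff.2 ⟨ha, hav⟩
      rw [hy] at this
      simp only [mem_insert, mem_singleton] at this ⊢
      tauto
  · intro ha
    simp only [mem_insert, mem_singleton] at ha
    rcases ha with rfl | rfl | rfl
    · exact hv
    · exact hw
    · exact hy'.1

include h3 in
omit [Fintype α] in
/-- every pair is in at most two faces -/
theorem pair_le_two {v w : α} (hvw : v ≠ w) (hv : PathAt n T v) :
    (T.filter fun F => v ∈ F ∧ w ∈ F).card ≤ 2 := by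
  obtain ⟨s, _, _, h⟩ := hv
  let g : ℕ → α := fun m => if hm : m < n then s.symm ⟨m, hm⟩ else v
  have hg : ∀ y : α, g (s y : ℕ) = y := by
    intro y
    simp [g]
  have hsub : (T.filter fun F => v ∈ F ∧ w ∈ F) ⊆
      {({v, w, g ((s w : ℕ) + 1)} : Finset α), {v, w, g ((s w : ℕ) - 1)}} := by
    intro F hF
    simp only [mem_filter] at hF
    obtain ⟨y, hyv, hyw, rfl⟩ := third T h3 hvw hF.1 hF.2.1 hF.2.2
    have h1 := (h w y hvw.symm hyv).1 hF.1
    simp only [mem_insert, mem_singleton]
    rcases h1 with h1 | h1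
    · left
      rw [h1, hg]
    · right
      rw [← h1, Nat.add_sub_cancel, hg]
  exact (card_le_card hsub).trans card_le_two

include h3 in
/-- every point is in exactly `n - 3` faces -/
theorem card_at (v : α) (hv : PathAt n T v) : (T.filter fun F => v ∈ F).card = n - 3 := by
  obtain ⟨s, h0, h1, h⟩ := hv
  let g : ℕ → α := fun m => if hm : m < n then s.symm ⟨m, hm⟩ else v
  have hg : ∀ y : α, g (s y : ℕ) = y := by
    intro y
    simp [g]
  have hs : ∀ m, m < n → (s (g m) : ℕ) = m := by
    intro m hm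
    simp [g, hm]
  let S : Finset ℕ := ((range (n - 1)).erase (s v : ℕ)).erase ((s v : ℕ) - 1)
  have hS : ∀ m, m ∈ S ↔ (m + 1 < n ∧ m ≠ (s v : ℕ) ∧ m + 1 ≠ (s v : ℕ)) := by
    intro m
    simp only [S, mem_erase, mem_range, ne_eq]
    omega
  have hcard : S.card = n - 3 := by
    simp only [S]
    rw [card_erase_of_mem, card_erase_of_mem, card_range]
    · omega
    · rw [mem_range]
      omega
    · rw [mem_erase, mem_range]
      omega
  have hne : ∀ m, m < n → m ≠ (s v : ℕ) → g m ≠ v := by
    intro m hm h2 h4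
    apply h2
    rw [← hs m hm, h4]
  rw [← hcard]
  have himg : (T.filter fun F => v ∈ F) = S.image fun m => ({v, g m, g (m + 1)} : Finset α) := by
    ext F
    simp only [mem_filter, mem_image]
    constructor
    · rintro ⟨hF, hvF⟩
      have h4 : ∃ w, w ≠ v ∧ w ∈ F := by
        by_contra hcon
        push Not at hcon
        have h5 : F ⊆ {v} := by
          intro a ha
          by_contra h6
          exact hcon a (by simpa using h6) ha
        have h6 := card_le_card h5
        rw [h3 F hF, card_singleton] at h6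
        omega
      obtain ⟨w, hwv, hwF⟩ := h4
      obtain ⟨y, hyv, hyw, rfl⟩ := third T h3 hwv.symm hF hvF hwF
      have h5 := (h w y hwv hyv).1 hF
      have hw' : (s w : ℕ) ≠ s v := fun h6 => hwv (s.injective (Fin.ext h6))
      have hy' : (s y : ℕ) ≠ s v := fun h6 => hyv (s.injective (Fin.ext h6))
      have hwn := (s w).2
      have hyn := (s y).2
      rcases h5 with h5 | h5
      · refine ⟨(s w : ℕ), (hS _).2 (by omega), ?_⟩
        rw [h5, hg, hg]
      · refine ⟨(s y : ℕ), (hS _).2 (by omega), ?_⟩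
        rw [h5, hg, hg, pair_comm]
    · rintro ⟨m, hm, rfl⟩
      rw [hS] at hm
      refine ⟨?_, by simp⟩
      rw [h (g m) (g (m + 1)) (hne m (by omega) hm.2.1) (hne (m + 1) hm.1 hm.2.2)]
      left
      rw [hs m (by omega), hs (m + 1) hm.1]
  rw [himg, card_image_of_injOn]
  intro m hm k hk hmk
  have hm' := (hS m).1 hm
  have hk' := (hS k).1 hk
  have hmk' : ({v, g m, g (m + 1)} : Finset α) = {v, g k, g (k + 1)} := hmk
  have e1 : g m = v ∨ g m = g k ∨ g m = g (k + 1) := by
    have : g m ∈ ({v, g k, g (k + 1)} : Finset α) := by rw [← hmk']; simp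
    simpa using this
  have e2 : g (m + 1) = v ∨ g (m + 1) = g k ∨ g (m + 1) = g (k + 1) := by
    have : g (m + 1) ∈ ({v, g k, g (k + 1)} : Finset α) := by rw [← hmk']; simp
    simpa using this
  have f1 : ∀ a b, a < n → b < n → g a = g b → a = b := by
    intro a b ha hb hab
    rw [← hs a ha, ← hs b hb, hab]
  rcases e1 with e1 | e1 | e1
  · exact absurd e1 (hne m (by omega) hm'.2.1)
  · exact f1 m k (by omega) (by omega) e1
  · have e1' := f1 m (k + 1) (by omega) hk'.1 e1
    rcases e2 with e2 | e2 | e2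
    · exact absurd e2 (hne (m + 1) hm'.1 hm'.2.2)
    · have := f1 (m + 1) k hm'.1 (by omega) e2
      omega
    · have := f1 (m + 1) (k + 1) hm'.1 hk'.1 e2
      omega

include h3 in
/-- the number of faces -/
theorem card_faces (hv : ∀ v, PathAt n T v) : 3 * T.card = Fintype.card α * (n - 3) := by
  have h := sum_card (B := T) (n := n - 3) (fun a => card_at T h3 a (hv a))
  rw [← h, sum_congr rfl h3]
  simp [mul_comm]

include h3 in
/-- at every point exactly four of the `2 (n - 1)` incidences of a neighborly surface are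
missing -/
theorem missing_at (hn : Fintype.card α = n) (v : α) (hv : PathAt n T v) :
    ∑ w ∈ univ.erase v, (2 - (T.filter fun F => v ∈ F ∧ w ∈ F).card) = 4 := by
  have hn3 : 3 ≤ n := by
    obtain ⟨s, h0, h1, _⟩ := hv
    omega
  have h1 : ∑ w ∈ univ.erase v, (T.filter fun F => v ∈ F ∧ w ∈ F).card = 2 * (n - 3) := by
    have h2 := sum_card_bipartiteAbove_eq_sum_card_bipartiteBelow
      (s := univ.erase v) (t := T.filter fun F => v ∈ F) (fun (w : α) (F : Finset α) => w ∈ F)
    have h4 : ∀ w, bipartiteAbove (fun (w : α) (F : Finset α) => w ∈ F)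
        (T.filter fun F => v ∈ F) w = T.filter fun F => v ∈ F ∧ w ∈ F := by
      intro w
      simp only [bipartiteAbove, filter_filter]
    simp only [h4] at h2
    rw [h2]
    have h5 : ∀ F ∈ T.filter (fun F => v ∈ F), (bipartiteBelow
        (fun (w : α) (F : Finset α) => w ∈ F) (univ.erase v) F).card = 2 := by
      intro F hF
      rw [mem_filter] at hF
      have h6 : bipartiteBelow (fun (w : α) (F : Finset α) => w ∈ F) (univ.erase v) F =
          F.erase v := by
        ext w
        simp only [bipartiteBelow, mem_filter, mem_erase, mem_univ, and_true, ne_eq]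
      rw [h6, card_erase_of_mem hF.2, h3 F hF.1]
    rw [sum_congr rfl h5, sum_const, card_at T h3 v hv, smul_eq_mul, mul_comm]
  have h7 : ∑ w ∈ univ.erase v, (2 - (T.filter fun F => v ∈ F ∧ w ∈ F).card) +
      ∑ w ∈ univ.erase v, (T.filter fun F => v ∈ F ∧ w ∈ F).card = 2 * (n - 1) := by
    rw [← sum_add_distrib]
    have h8 : ∀ w ∈ univ.erase v, (2 - (T.filter fun F => v ∈ F ∧ w ∈ F).card) +
        (T.filter fun F => v ∈ F ∧ w ∈ F).card = 2 := by
      intro w hw
      have := pair_le_two T h3 (ne_of_mem_erase hw).symm hv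
      omega
    rw [sum_congr rfl h8, sum_const, card_erase_of_mem (mem_univ _), card_univ, hn,
      smul_eq_mul, mul_comm]
  omega

end count

/-! ### The results for the faces -/

theorem pathAt {N : ℕ} (v : V N) : PathAt (3 * N) (T N) v := links v

theorem deg_le {N : ℕ} {v w : V N} (h : v ≠ w) :
    ((T N).filter fun F => v ∈ F ∧ w ∈ F).card ≤ 2 :=
  pair_le_two (T N) (fun _ hF => card_T hF) h (pathAt v)

theorem card_at_T {N : ℕ} (v : V N) : ((T N).filter fun F => v ∈ F).card = 3 * N - 3 :=
  card_at (T N) (fun _ hF => card_T hF) v (pathAt v)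

theorem missing_T {N : ℕ} (v : V N) :
    ∑ w ∈ univ.erase v, (2 - ((T N).filter fun F => v ∈ F ∧ w ∈ F).card) = 4 :=
  missing_at (T N) (fun _ hF => card_T hF) (by simp) v (pathAt v)

theorem card_T_eq (N : ℕ) : (T N).card = 3 * N * (N - 1) := by
  have h := card_faces (n := 3 * N) (T N) (fun _ hF => card_T hF) pathAt
  have h1 : Fintype.card (V N) = 3 * N := by simp
  rw [h1] at h
  have h2 : 3 * N * (3 * N - 3) = 3 * (3 * N * (N - 1)) := by
    rcases N with _ | N
    · simp
    · have e1 : 3 * (N + 1) - 3 = 3 * N := by omega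
      have e2 : N + 1 - 1 = N := by omega
      rw [e1, e2]
      ring
  rw [h2] at h
  omega

/-! ### Transport to `Fin n` -/

section transport

variable {α β : Type*} [DecidableEq α] [DecidableEq β] {n : ℕ}

theorem path_map {T : Finset (Finset α)} {v : α} (h : PathAt n T v) (e : α ≃ β) :
    PathAt n (T.image fun F => F.image e) (e v) := by
  obtain ⟨s, h0, h1, h2⟩ := h
  refine ⟨e.symm.trans s, by simpa using h0, by simpa using h1, ?_⟩
  intro x y hx hy
  have hx' : e.symm x ≠ v := fun h => hx (by rw [← h]; simp)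
  have hy' : e.symm y ≠ v := fun h => hy (by rw [← h]; simp)
  have h3 := h2 _ _ hx' hy'
  rw [Equiv.trans_apply, Equiv.trans_apply, ← h3, mem_image]
  constructor
  · rintro ⟨F, hF, hFe⟩
    have : F = {v, e.symm x, e.symm y} := by
      apply image_injective e.injective
      change F.image e = _
      rw [hFe]
      simp [image_insert]
    rwa [← this]
  · intro hF
    exact ⟨_, hF, by simp [image_insert]⟩

end transport

end Pool.Agent.Lib.MP_4f1247_co.NN
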