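import Pool.Agent.Lib.MP_4f1247_co.NN.Chi94
import Pool.Agent.Lib.MP_4f1247_co.NN.Lnk85

/-!
# Three needles: the points
-/

set_option autoImplicit false

namespace Pool.Agent.Lib.MP_4f1247_co.NN

/-- the point of a vertex -/
noncomputable def q (N : ℕ) (v : V N) : E := pt (N : ℤ) v.1 ((v.2 : ℕ) : ℤ)

end Pool.Agent.Lib.MP_4f1247_co.NN
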