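import Pool.Agent.Lib.MP_4f1247_co.NN.NoCr94
import Pool.Agent.Lib.MP_4f1247_co.NN.Geo14
import Pool.Agent.Lib.MP_4f1247_co.NN.Pts94

/-!
# Three needles: the faces are free
-/

set_option autoImplicit false

namespace Pool.Agent.Lib.MP_4f1247_co.NN

theorem sg {x y : ℝ} (h : x * y ≤ 0) (hx : x ≠ 0) (hy : y ≠ 0) :
    (0 < x ∧ y < 0) ∨ (x < 0 ∧ 0 < y) := by
  rcases lt_or_gt_of_ne hx with c | c <;> rcases lt_or_gt_of_ne hy with d | d
  · exact absurd h (not_le.2 (mul_pos_of_neg_of_neg c d))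
  · exact Or.inr ⟨c, d⟩
  · exact Or.inl ⟨c, d⟩
  · exact absurd h (not_le.2 (mul_pos c d))

theorem cert_of {a b u v w : E} (h : ¬ Pc a b u v w) (h1 : ori b u v w ≠ 0)
    (h2 : ori a u v w ≠ 0) (h3 : ori a b v w ≠ 0) (h4 : ori a b u w ≠ 0)
    (h5 : ori a b u v ≠ 0) : Cert a b u v w := by
  by_contra hc
  unfold Pc at h
  unfold Cert at hc
  push Not at hc
  obtain ⟨c1, c2, c3, c4⟩ := hc
  have s0 : ori b u v w - ori a u v w + ori a b v w - ori a b u w + ori a b u v = 0 := by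
    unfold ori; ring
  have e1 : ori u v w a * ori u v w b = ori a u v w * ori b u v w := by
    have e : ori u v w a = -ori a u v w := by unfold ori; ring
    have e' : ori u v w b = -ori b u v w := by unfold ori; ring
    rw [e, e']; ring
  have e3 : ori a b v u * ori a b v w = -(ori a b u v * ori a b v w) := by
    rw [ori_34 a b u v]; ring
  have e4 : ori a b w u * ori a b w v = ori a b u w * ori a b v w := by
    rw [ori_34 a b u w, ori_34 a b v w]; ring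
  rw [e1] at c1
  rw [e3] at c3
  rw [e4] at c4
  generalize ori b u v w = l1 at *
  generalize ori a u v w = l2 at *
  generalize ori a b v w = l3 at *
  generalize ori a b u w = l4 at *
  generalize ori a b u v = l5 at *
  have c5 : -l3 * l5 ≤ 0 := by linarith
  rcases sg c1 h2 h1 with ⟨p1, p2⟩ | ⟨p1, p2⟩ <;> rcases sg c2 h5 h4 with ⟨p3, p4⟩ | ⟨p3, p4⟩ <;>
    rcases sg c5 (neg_ne_zero.2 h3) h5 with ⟨p5, p6⟩ | ⟨p5, p6⟩
  · linarith
  · exact h (Or.inr ⟨p2, p1, by linarith, p4, p3⟩)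
  · linarith
  · linarith
  · linarith
  · linarith
  · exact h (Or.inl ⟨p2, p1, by linarith, p4, p3⟩)
  · linarith

theorem q_eq (N : ℕ) (v : V N) : q N v = qt (N : ℤ) (v.1, ((v.2 : ℕ) : ℤ)) := rfl

theorem ok_of (N : ℕ) (v : V N) : Ok (N : ℤ) (v.1, ((v.2 : ℕ) : ℤ)) :=
  ⟨by simp only; omega, by simp only; have := v.2.2; omega⟩

theorem ne_of (N : ℕ) {v w : V N} (h : v ≠ w) :
    (v.1, ((v.2 : ℕ) : ℤ)) ≠ (w.1, ((w.2 : ℕ) : ℤ)) := by
  intro h'
  rw [Prod.mk.injEq] at h'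
  exact h (Prod.ext h'.1 (Fin.ext (by exact_mod_cast h'.2)))

/-- one face -/
theorem ncD {N : ℕ} (hG : GP (q N)) {x y z : V N} (h : D N x y z) (hxy : x.2 < y.2) :
    Free (q N) {x, y, z} := by
  apply free_of
  intro a b hax hay haz hbx hby hbz hab
  have hxz := D_ne13 h
  have hyz := D_ne23 h
  have hne := D_ne12 h
  refine cert_of ?_ (hG _ _ _ _ hbx hby hbz hne hxz hyz) (hG _ _ _ _ hax hay haz hne hxz hyz)
    (hG _ _ _ _ hab hay haz hby hbz hyz) (hG _ _ _ _ hab hax haz hbx hbz hxz)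
    (hG _ _ _ _ hab hax hay hbx hby hne)
  obtain ⟨h1, h2, h3⟩ := h
  have hf : Fa (N : ℤ) x.1 ((x.2 : ℕ) : ℤ) ((y.2 : ℕ) : ℤ) (z.1, ((z.2 : ℕ) : ℤ)) := by
    rcases h3 with ⟨h4, h5⟩ | ⟨h4, h5⟩
    · exact Or.inl ⟨h4, by simp only; omega⟩
    · exact Or.inr ⟨h4, by simp only; omega⟩
  have ey : (y.1, ((y.2 : ℕ) : ℤ)) = (x.1, ((y.2 : ℕ) : ℤ)) := by rw [h1]
  have hlt : ((x.2 : ℕ) : ℤ) < ((y.2 : ℕ) : ℤ) := by exact_mod_cast hxy
  have key := noPc (by omega) hlt (by have := y.2.2; omega) (ok_of N z) (ok_of N a) (ok_of N b) hf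
    (ne_of N hax) (ey ▸ ne_of N hay) (ne_of N haz) (ne_of N hbx) (ey ▸ ne_of N hby) (ne_of N hbz)
    (ne_of N hab)
  rw [← ey] at key
  exact key

/-- **The faces are free.** -/
theorem nc (N : ℕ) (hG : GP (q N)) (t : Finset (V N)) (ht : t ∈ T N) : Free (q N) t := by
  simp only [T, Finset.mem_filter, Finset.mem_univ, true_and] at ht
  obtain ⟨x, y, z, rfl, h⟩ := ht
  rcases lt_or_gt_of_ne h.2.1 with c | c
  · exact ncD hG h c
  · have h' := ncD hG (D_swap h) c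
    rwa [Finset.insert_comm] at h'

end Pool.Agent.Lib.MP_4f1247_co.NN
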