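import Mathlib

/-!
# Three needles: the orientations of the points of a nearly neighborly system

The vertices are `(τ, r)`, `τ` modulo 3, `0 ≤ r < N`.  The orientation of four of them is the sign
of the leading monomial of a `4 × 4` determinant with entries `32 ^ (m u + v)`.
-/

set_option autoImplicit false

namespace Pool.Agent.Lib.MP_4f1247_co.NN

/-- three-space -/
abbrev E : Type := EuclideanSpace ℝ (Fin 3)

/-- the orientation of four points (sign of the determinant with rows `(x, y, z, 1)`) -/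
noncomputable def ori (a b c d : E) : ℝ :=
  -((b 0 - a 0) * ((c 1 - a 1) * (d 2 - a 2) - (c 2 - a 2) * (d 1 - a 1))
    - (b 1 - a 1) * ((c 0 - a 0) * (d 2 - a 2) - (c 2 - a 2) * (d 0 - a 0))
    + (b 2 - a 2) * ((c 0 - a 0) * (d 1 - a 1) - (c 1 - a 1) * (d 0 - a 0)))

theorem ori_12 (a b c d : E) : ori b a c d = -ori a b c d := by unfold ori; ring

theorem ori_23 (a b c d : E) : ori a c b d = -ori a b c d := by unfold ori; ring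

theorem ori_34 (a b c d : E) : ori a b d c = -ori a b c d := by unfold ori; ring

/-- the cyclic permutation of the coordinates -/
noncomputable def cyc (p : E) : E := !₂[p 2, p 0, p 1]

theorem cyc0 (p : E) : cyc p 0 = p 2 := by simp [cyc]

theorem cyc1 (p : E) : cyc p 1 = p 0 := by simp [cyc]

theorem cyc2 (p : E) : cyc p 2 = p 1 := by simp [cyc]

theorem cyc3 (p : E) : cyc (cyc (cyc p)) = p := by
  ext i
  fin_cases i <;> simp [cyc]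

theorem ori_cyc (a b c d : E) : ori (cyc a) (cyc b) (cyc c) (cyc d) = ori a b c d := by
  unfold ori
  simp only [cyc0, cyc1, cyc2]
  ring

/-! ### The leading monomial -/

/-- the power -/
noncomputable def P (e : ℤ) : ℝ := (32 : ℝ) ^ e

theorem P_pos (e : ℤ) : 0 < P e := zpow_pos (by norm_num) e

theorem P_add (e f : ℤ) : P (e + f) = P e * P f := zpow_add₀ (by norm_num) e f

theorem P_le {e f : ℤ} (h : e ≤ f) : P e ≤ P f := zpow_le_zpow_right₀ (by norm_num) h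

theorem P_small {e f : ℤ} (h : e + 1 ≤ f) : 32 * P e ≤ P f := by
  have h1 : 32 * P e = P (e + 1) := by
    rw [P_add]
    unfold P
    norm_num
    ring
  rw [h1]
  exact P_le h

/-- homogeneous determinant with rows `a, b, c, d` -/
def det4 (a0 a1 a2 a3 b0 b1 b2 b3 c0 c1 c2 c3 d0 d1 d2 d3 : ℝ) : ℝ :=
  (a0 * b1 * c2 * d3 + a0 * b2 * c3 * d1 + a0 * b3 * c1 * d2
    + a1 * b0 * c3 * d2 + a1 * b2 * c0 * d3 + a1 * b3 * c2 * d0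
    + a2 * b0 * c1 * d3 + a2 * b1 * c3 * d0 + a2 * b3 * c0 * d1
    + a3 * b0 * c2 * d1 + a3 * b1 * c0 * d2 + a3 * b2 * c1 * d0)
  - (a0 * b1 * c3 * d2 + a0 * b2 * c1 * d3 + a0 * b3 * c2 * d1
    + a1 * b0 * c2 * d3 + a1 * b2 * c3 * d0 + a1 * b3 * c0 * d2
    + a2 * b0 * c3 * d1 + a2 * b1 * c0 * d3 + a2 * b3 * c1 * d0
    + a3 * b0 * c1 * d2 + a3 * b1 * c2 * d0 + a3 * b2 * c0 * d1)

theorem det4_ori (a0 a1 a2 a3 b0 b1 b2 b3 c0 c1 c2 c3 d0 d1 d2 d3 : ℝ) (ha : 0 < a3)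
    (hb : 0 < b3) (hc : 0 < c3) (hd : 0 < d3) :
    det4 a0 a1 a2 a3 b0 b1 b2 b3 c0 c1 c2 c3 d0 d1 d2 d3 =
      a3 * b3 * c3 * d3 * ori !₂[a0 / a3, a1 / a3, a2 / a3] !₂[b0 / b3, b1 / b3, b2 / b3]
        !₂[c0 / c3, c1 / c3, c2 / c3] !₂[d0 / d3, d1 / d3, d2 / d3] := by
  unfold det4 ori
  simp only [Matrix.cons_val_zero, Matrix.cons_val_one, Matrix.cons_val]
  field_simp
  ring


/-- the order of the leading exponents -/
def Lt (m u v U V : ℤ) : Prop := (u < U ∧ v < V + m) ∨ (u = U ∧ v < V)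

theorem Lt.le {m u v U V : ℤ} (hm : 0 ≤ m) (h : Lt m u v U V) :
    32 * P (m * u + v) ≤ P (m * U + V) := by
  apply P_small
  rcases h with ⟨h1, h2⟩ | ⟨h1, h2⟩
  · have h3 : m * (u + 1) ≤ m * U := mul_le_mul_of_nonneg_left (by omega) hm
    rw [mul_add, mul_one] at h3
    omega
  · subst h1
    omega

/-- the sum along a permutation -/
def S (u : Fin 4 → Fin 4 → ℤ) (i j k l : Fin 4) : ℤ := u 0 i + u 1 j + u 2 k + u 3 l

/-- the monomial of a permutation -/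
noncomputable def Tm (u v : Fin 4 → Fin 4 → ℤ) (m : ℤ) (i j k l : Fin 4) : ℝ :=
  P (m * u 0 i + v 0 i) * P (m * u 1 j + v 1 j) * P (m * u 2 k + v 2 k) * P (m * u 3 l + v 3 l)

theorem Tm_eq (u v : Fin 4 → Fin 4 → ℤ) (m : ℤ) (i j k l : Fin 4) :
    Tm u v m i j k l = P (m * S u i j k l + S v i j k l) := by
  unfold Tm S
  rw [← P_add, ← P_add, ← P_add]
  congr 1
  ring

theorem Tm_pos (u v : Fin 4 → Fin 4 → ℤ) (m : ℤ) (i j k l : Fin 4) : 0 < Tm u v m i j k l := by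
  rw [Tm_eq]
  exact P_pos _

/-- the determinant with entries `32 ^ (m u + v)` -/
noncomputable def Dt (u v : Fin 4 → Fin 4 → ℤ) (m : ℤ) : ℝ :=
  det4 (P (m * u 0 0 + v 0 0)) (P (m * u 0 1 + v 0 1)) (P (m * u 0 2 + v 0 2))
    (P (m * u 0 3 + v 0 3)) (P (m * u 1 0 + v 1 0)) (P (m * u 1 1 + v 1 1))
    (P (m * u 1 2 + v 1 2)) (P (m * u 1 3 + v 1 3)) (P (m * u 2 0 + v 2 0))
    (P (m * u 2 1 + v 2 1)) (P (m * u 2 2 + v 2 2)) (P (m * u 2 3 + v 2 3))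
    (P (m * u 3 0 + v 3 0)) (P (m * u 3 1 + v 3 1)) (P (m * u 3 2 + v 3 2))
    (P (m * u 3 3 + v 3 3))

theorem Dt_eq (u v : Fin 4 → Fin 4 → ℤ) (m : ℤ) : Dt u v m =
    (Tm u v m 0 1 2 3 +
      Tm u v m 0 2 3 1 +
      Tm u v m 0 3 1 2 +
      Tm u v m 1 0 3 2 +
      Tm u v m 1 2 0 3 +
      Tm u v m 1 3 2 0 +
      Tm u v m 2 0 1 3 +
      Tm u v m 2 1 3 0 +
      Tm u v m 2 3 0 1 +
      Tm u v m 3 0 2 1 +
      Tm u v m 3 1 0 2 +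
      Tm u v m 3 2 1 0) -
    (Tm u v m 0 1 3 2 +
      Tm u v m 0 2 1 3 +
      Tm u v m 0 3 2 1 +
      Tm u v m 1 0 2 3 +
      Tm u v m 1 2 3 0 +
      Tm u v m 1 3 0 2 +
      Tm u v m 2 0 3 1 +
      Tm u v m 2 1 0 3 +
      Tm u v m 2 3 1 0 +
      Tm u v m 3 0 1 2 +
      Tm u v m 3 1 2 0 +
      Tm u v m 3 2 0 1) := by
  unfold Dt det4 Tm
  ring

/-- the sign of the leading monomial -/
theorem Dt_pos (u v : Fin 4 → Fin 4 → ℤ) (m U V : ℤ) (hm : 0 ≤ m)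
    (h1 : Lt m (S u 0 1 3 2) (S v 0 1 3 2) U V)
    (h2 : Lt m (S u 0 2 1 3) (S v 0 2 1 3) U V)
    (h3 : Lt m (S u 0 3 2 1) (S v 0 3 2 1) U V)
    (h4 : Lt m (S u 1 0 2 3) (S v 1 0 2 3) U V)
    (h5 : Lt m (S u 1 2 3 0) (S v 1 2 3 0) U V)
    (h6 : Lt m (S u 1 3 0 2) (S v 1 3 0 2) U V)
    (h7 : Lt m (S u 2 0 3 1) (S v 2 0 3 1) U V)
    (h8 : Lt m (S u 2 1 0 3) (S v 2 1 0 3) U V)
    (h9 : Lt m (S u 2 3 1 0) (S v 2 3 1 0) U V)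
    (h10 : Lt m (S u 3 0 1 2) (S v 3 0 1 2) U V)
    (h11 : Lt m (S u 3 1 2 0) (S v 3 1 2 0) U V)
    (h12 : Lt m (S u 3 2 0 1) (S v 3 2 0 1) U V)
    (hp : (S u 0 1 2 3 = U ∧ S v 0 1 2 3 = V) ∨
      (S u 0 2 3 1 = U ∧ S v 0 2 3 1 = V) ∨
      (S u 0 3 1 2 = U ∧ S v 0 3 1 2 = V) ∨
      (S u 1 0 3 2 = U ∧ S v 1 0 3 2 = V) ∨
      (S u 1 2 0 3 = U ∧ S v 1 2 0 3 = V) ∨
      (S u 1 3 2 0 = U ∧ S v 1 3 2 0 = V) ∨
      (S u 2 0 1 3 = U ∧ S v 2 0 1 3 = V) ∨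
      (S u 2 1 3 0 = U ∧ S v 2 1 3 0 = V) ∨
      (S u 2 3 0 1 = U ∧ S v 2 3 0 1 = V) ∨
      (S u 3 0 2 1 = U ∧ S v 3 0 2 1 = V) ∨
      (S u 3 1 0 2 = U ∧ S v 3 1 0 2 = V) ∨
      (S u 3 2 1 0 = U ∧ S v 3 2 1 0 = V)) :
    0 < Dt u v m := by
  rw [Dt_eq]
  have k1 := h1.le hm
  rw [← Tm_eq] at k1
  have k2 := h2.le hm
  rw [← Tm_eq] at k2
  have k3 := h3.le hm
  rw [← Tm_eq] at k3
  have k4 := h4.le hm
  rw [← Tm_eq] at k4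
  have k5 := h5.le hm
  rw [← Tm_eq] at k5
  have k6 := h6.le hm
  rw [← Tm_eq] at k6
  have k7 := h7.le hm
  rw [← Tm_eq] at k7
  have k8 := h8.le hm
  rw [← Tm_eq] at k8
  have k9 := h9.le hm
  rw [← Tm_eq] at k9
  have k10 := h10.le hm
  rw [← Tm_eq] at k10
  have k11 := h11.le hm
  rw [← Tm_eq] at k11
  have k12 := h12.le hm
  rw [← Tm_eq] at k12
  have q1 := Tm_pos u v m 0 1 2 3
  have q2 := Tm_pos u v m 0 2 3 1
  have q3 := Tm_pos u v m 0 3 1 2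
  have q4 := Tm_pos u v m 1 0 3 2
  have q5 := Tm_pos u v m 1 2 0 3
  have q6 := Tm_pos u v m 1 3 2 0
  have q7 := Tm_pos u v m 2 0 1 3
  have q8 := Tm_pos u v m 2 1 3 0
  have q9 := Tm_pos u v m 2 3 0 1
  have q10 := Tm_pos u v m 3 0 2 1
  have q11 := Tm_pos u v m 3 1 0 2
  have q12 := Tm_pos u v m 3 2 1 0
  have hW := P_pos (m * U + V)
  rcases hp with ⟨e1, e2⟩ | ⟨e1, e2⟩ | ⟨e1, e2⟩ | ⟨e1, e2⟩ | ⟨e1, e2⟩ | ⟨e1, e2⟩ | ⟨e1, e2⟩ | ⟨e1, e2⟩ | ⟨e1, e2⟩ | ⟨e1, e2⟩ | ⟨e1, e2⟩ | ⟨e1, e2⟩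
  · have hT := Tm_eq u v m 0 1 2 3
    rw [e1, e2] at hT
    linarith
  · have hT := Tm_eq u v m 0 2 3 1
    rw [e1, e2] at hT
    linarith
  · have hT := Tm_eq u v m 0 3 1 2
    rw [e1, e2] at hT
    linarith
  · have hT := Tm_eq u v m 1 0 3 2
    rw [e1, e2] at hT
    linarith
  · have hT := Tm_eq u v m 1 2 0 3
    rw [e1, e2] at hT
    linarith
  · have hT := Tm_eq u v m 1 3 2 0
    rw [e1, e2] at hT
    linarith
  · have hT := Tm_eq u v m 2 0 1 3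
    rw [e1, e2] at hT
    linarith
  · have hT := Tm_eq u v m 2 1 3 0
    rw [e1, e2] at hT
    linarith
  · have hT := Tm_eq u v m 2 3 0 1
    rw [e1, e2] at hT
    linarith
  · have hT := Tm_eq u v m 3 0 2 1
    rw [e1, e2] at hT
    linarith
  · have hT := Tm_eq u v m 3 1 0 2
    rw [e1, e2] at hT
    linarith
  · have hT := Tm_eq u v m 3 2 1 0
    rw [e1, e2] at hT
    linarith

/-- the sign of the leading monomial -/
theorem Dt_neg (u v : Fin 4 → Fin 4 → ℤ) (m U V : ℤ) (hm : 0 ≤ m)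
    (h1 : Lt m (S u 0 1 2 3) (S v 0 1 2 3) U V)
    (h2 : Lt m (S u 0 2 3 1) (S v 0 2 3 1) U V)
    (h3 : Lt m (S u 0 3 1 2) (S v 0 3 1 2) U V)
    (h4 : Lt m (S u 1 0 3 2) (S v 1 0 3 2) U V)
    (h5 : Lt m (S u 1 2 0 3) (S v 1 2 0 3) U V)
    (h6 : Lt m (S u 1 3 2 0) (S v 1 3 2 0) U V)
    (h7 : Lt m (S u 2 0 1 3) (S v 2 0 1 3) U V)
    (h8 : Lt m (S u 2 1 3 0) (S v 2 1 3 0) U V)
    (h9 : Lt m (S u 2 3 0 1) (S v 2 3 0 1) U V)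
    (h10 : Lt m (S u 3 0 2 1) (S v 3 0 2 1) U V)
    (h11 : Lt m (S u 3 1 0 2) (S v 3 1 0 2) U V)
    (h12 : Lt m (S u 3 2 1 0) (S v 3 2 1 0) U V)
    (hp : (S u 0 1 3 2 = U ∧ S v 0 1 3 2 = V) ∨
      (S u 0 2 1 3 = U ∧ S v 0 2 1 3 = V) ∨
      (S u 0 3 2 1 = U ∧ S v 0 3 2 1 = V) ∨
      (S u 1 0 2 3 = U ∧ S v 1 0 2 3 = V) ∨
      (S u 1 2 3 0 = U ∧ S v 1 2 3 0 = V) ∨
      (S u 1 3 0 2 = U ∧ S v 1 3 0 2 = V) ∨
      (S u 2 0 3 1 = U ∧ S v 2 0 3 1 = V) ∨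
      (S u 2 1 0 3 = U ∧ S v 2 1 0 3 = V) ∨
      (S u 2 3 1 0 = U ∧ S v 2 3 1 0 = V) ∨
      (S u 3 0 1 2 = U ∧ S v 3 0 1 2 = V) ∨
      (S u 3 1 2 0 = U ∧ S v 3 1 2 0 = V) ∨
      (S u 3 2 0 1 = U ∧ S v 3 2 0 1 = V)) :
    Dt u v m < 0 := by
  rw [Dt_eq]
  have k1 := h1.le hm
  rw [← Tm_eq] at k1
  have k2 := h2.le hm
  rw [← Tm_eq] at k2
  have k3 := h3.le hm
  rw [← Tm_eq] at k3
  have k4 := h4.le hm
  rw [← Tm_eq] at k4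
  have k5 := h5.le hm
  rw [← Tm_eq] at k5
  have k6 := h6.le hm
  rw [← Tm_eq] at k6
  have k7 := h7.le hm
  rw [← Tm_eq] at k7
  have k8 := h8.le hm
  rw [← Tm_eq] at k8
  have k9 := h9.le hm
  rw [← Tm_eq] at k9
  have k10 := h10.le hm
  rw [← Tm_eq] at k10
  have k11 := h11.le hm
  rw [← Tm_eq] at k11
  have k12 := h12.le hm
  rw [← Tm_eq] at k12
  have q1 := Tm_pos u v m 0 1 3 2
  have q2 := Tm_pos u v m 0 2 1 3
  have q3 := Tm_pos u v m 0 3 2 1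
  have q4 := Tm_pos u v m 1 0 2 3
  have q5 := Tm_pos u v m 1 2 3 0
  have q6 := Tm_pos u v m 1 3 0 2
  have q7 := Tm_pos u v m 2 0 3 1
  have q8 := Tm_pos u v m 2 1 0 3
  have q9 := Tm_pos u v m 2 3 1 0
  have q10 := Tm_pos u v m 3 0 1 2
  have q11 := Tm_pos u v m 3 1 2 0
  have q12 := Tm_pos u v m 3 2 0 1
  have hW := P_pos (m * U + V)
  rcases hp with ⟨e1, e2⟩ | ⟨e1, e2⟩ | ⟨e1, e2⟩ | ⟨e1, e2⟩ | ⟨e1, e2⟩ | ⟨e1, e2⟩ | ⟨e1, e2⟩ | ⟨e1, e2⟩ | ⟨e1, e2⟩ | ⟨e1, e2⟩ | ⟨e1, e2⟩ | ⟨e1, e2⟩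
  · have hT := Tm_eq u v m 0 1 3 2
    rw [e1, e2] at hT
    linarith
  · have hT := Tm_eq u v m 0 2 1 3
    rw [e1, e2] at hT
    linarith
  · have hT := Tm_eq u v m 0 3 2 1
    rw [e1, e2] at hT
    linarith
  · have hT := Tm_eq u v m 1 0 2 3
    rw [e1, e2] at hT
    linarith
  · have hT := Tm_eq u v m 1 2 3 0
    rw [e1, e2] at hT
    linarith
  · have hT := Tm_eq u v m 1 3 0 2
    rw [e1, e2] at hT
    linarith
  · have hT := Tm_eq u v m 2 0 3 1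
    rw [e1, e2] at hT
    linarith
  · have hT := Tm_eq u v m 2 1 0 3
    rw [e1, e2] at hT
    linarith
  · have hT := Tm_eq u v m 2 3 1 0
    rw [e1, e2] at hT
    linarith
  · have hT := Tm_eq u v m 3 0 1 2
    rw [e1, e2] at hT
    linarith
  · have hT := Tm_eq u v m 3 1 2 0
    rw [e1, e2] at hT
    linarith
  · have hT := Tm_eq u v m 3 2 0 1
    rw [e1, e2] at hT
    linarith

/-! ### The points -/

/-- the main exponents of the point `(τ, r)` -/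
def ru (N : ℤ) (τ : Fin 3) (r : ℤ) : Fin 4 → ℤ :=
  match τ with
  | 0 => ![0, -(2 * (N - 1 - r) + 1), -(2 * r + 1), 0]
  | 1 => ![-(2 * r + 1), 0, -(2 * (N - 1 - r) + 1), 0]
  | 2 => ![-(2 * (N - 1 - r) + 1), -(2 * r + 1), 0, 0]

/-- the secondary exponents of the point `(τ, r)` -/
def rv (r : ℤ) : Fin 4 → ℤ := ![0, 0, 0, r]

/-- homogeneous coordinates of the point `(τ, r)` -/
noncomputable def hom (N : ℤ) (τ : Fin 3) (r : ℤ) (i : Fin 4) : ℝ :=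
  P (N * ru N τ r i + rv r i)

theorem hom_pos (N : ℤ) (τ : Fin 3) (r : ℤ) (i : Fin 4) : 0 < hom N τ r i := P_pos _

/-- the point `(τ, r)` -/
noncomputable def pt (N : ℤ) (τ : Fin 3) (r : ℤ) : E :=
  !₂[hom N τ r 0 / hom N τ r 3, hom N τ r 1 / hom N τ r 3, hom N τ r 2 / hom N τ r 3]

/-- the rows of main exponents -/
def uu (N : ℤ) (τ : Fin 4 → Fin 3) (r : Fin 4 → ℤ) (i j : Fin 4) : ℤ := ru N (τ i) (r i) j

/-- the rows of secondary exponents -/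
def vv (r : Fin 4 → ℤ) (i j : Fin 4) : ℤ := rv (r i) j

theorem Dt_ori (N : ℤ) (τ : Fin 4 → Fin 3) (r : Fin 4 → ℤ) :
    ∃ c : ℝ, 0 < c ∧ Dt (uu N τ r) (vv r) N =
      c * ori (pt N (τ 0) (r 0)) (pt N (τ 1) (r 1)) (pt N (τ 2) (r 2)) (pt N (τ 3) (r 3)) := by
  refine ⟨hom N (τ 0) (r 0) 3 * hom N (τ 1) (r 1) 3 * hom N (τ 2) (r 2) 3 * hom N (τ 3) (r 3) 3,
    mul_pos (mul_pos (mul_pos (hom_pos _ _ _ _) (hom_pos _ _ _ _)) (hom_pos _ _ _ _))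
      (hom_pos _ _ _ _), ?_⟩
  exact det4_ori _ _ _ _ _ _ _ _ _ _ _ _ _ _ _ _ (hom_pos _ _ _ _) (hom_pos _ _ _ _)
    (hom_pos _ _ _ _) (hom_pos _ _ _ _)

theorem ori_pos {N : ℤ} {τ : Fin 4 → Fin 3} {r : Fin 4 → ℤ}
    (h : 0 < Dt (uu N τ r) (vv r) N) :
    0 < ori (pt N (τ 0) (r 0)) (pt N (τ 1) (r 1)) (pt N (τ 2) (r 2)) (pt N (τ 3) (r 3)) := by
  obtain ⟨c, hc, h1⟩ := Dt_ori N τ r
  rw [h1] at h
  exact (mul_pos_iff_of_pos_left hc).1 h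

theorem ori_neg {N : ℤ} {τ : Fin 4 → Fin 3} {r : Fin 4 → ℤ}
    (h : Dt (uu N τ r) (vv r) N < 0) :
    ori (pt N (τ 0) (r 0)) (pt N (τ 1) (r 1)) (pt N (τ 2) (r 2)) (pt N (τ 3) (r 3)) < 0 := by
  obtain ⟨c, hc, h1⟩ := Dt_ori N τ r
  rw [h1] at h
  by_contra h2
  exact absurd h (not_lt.2 (mul_nonneg hc.le (not_lt.1 h2)))

end Pool.Agent.Lib.MP_4f1247_co.NN
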