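import Pool.Agent.Lib.MP_4f1247_co.NN.Chi94

/-!
# Convex hulls of at most three points in general position in three-space

If no edge of one of two simplices (of dimension at most two) meets the other one in the sense of
the signs of the orientations, then the simplices meet exactly in the hull of the common vertices.
-/

set_option autoImplicit false

namespace Pool.Agent.Lib.MP_4f1247_co.NN

/-- the open segment `a b` meets the open triangle `c d e`, in terms of orientations -/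
def Pierce (a b c d e : E) : Prop :=
  (0 < ori b c d e ∧ ori a c d e < 0 ∧ ori a b d e < 0 ∧ 0 < ori a b c e ∧ ori a b c d < 0) ∨
  (ori b c d e < 0 ∧ 0 < ori a c d e ∧ 0 < ori a b d e ∧ ori a b c e < 0 ∧ 0 < ori a b c d)

/-- general position of the points of `B` -/
def Gen {ι : Type*} (p : ι → E) (B : Finset ι) : Prop :=
  ∀ a ∈ B, ∀ b ∈ B, ∀ c ∈ B, ∀ d ∈ B, a ≠ b → a ≠ c → a ≠ d → b ≠ c → b ≠ d → c ≠ d →
    ori (p a) (p b) (p c) (p d) ≠ 0

namespace Geo46

/-- affine dependences supported on `A` -/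
def Dep {ι : Type*} (p : ι → E) (A : Finset ι) (z : ι → ℝ) : Prop :=
  (∀ i, i ∉ A → z i = 0) ∧ ∑ i ∈ A, z i = 0 ∧ ∑ i ∈ A, z i • p i = 0

lemma ori_lin (b c d : E) : ∃ k0 k1 k2 k3 : ℝ, ∀ x : E,
    ori x b c d = k0 * x 0 + k1 * x 1 + k2 * x 2 + k3 := by
  refine ⟨(c 1 - b 1) * (d 2 - b 2) - (c 2 - b 2) * (d 1 - b 1),
    -((c 0 - b 0) * (d 2 - b 2) - (c 2 - b 2) * (d 0 - b 0)),
    (c 0 - b 0) * (d 1 - b 1) - (c 1 - b 1) * (d 0 - b 0),
    -(b 0 * ((c 1 - b 1) * (d 2 - b 2) - (c 2 - b 2) * (d 1 - b 1))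
    - b 1 * ((c 0 - b 0) * (d 2 - b 2) - (c 2 - b 2) * (d 0 - b 0))
    + b 2 * ((c 0 - b 0) * (d 1 - b 1) - (c 1 - b 1) * (d 0 - b 0))), fun x => ?_⟩
  unfold ori
  ring

lemma ori_self1 (a c d : E) : ori a a c d = 0 := by unfold ori; ring

lemma ori_self2 (a c d : E) : ori a c a d = 0 := by unfold ori; ring

lemma ori_self3 (a c d : E) : ori a c d a = 0 := by unfold ori; ring

lemma dep_ori {ι : Type*} {p : ι → E} {A : Finset ι} {z : ι → ℝ} (h : Dep p A z) (b c d : E) :
    ∑ i ∈ A, z i * ori (p i) b c d = 0 := by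
  obtain ⟨k0, k1, k2, k3, hk⟩ := ori_lin b c d
  have hj : ∀ j : Fin 3, ∑ i ∈ A, z i * p i j = 0 := by
    intro j
    have := congrArg (fun v : E => v j) h.2.2
    simpa using this
  have e : ∑ i ∈ A, z i * ori (p i) b c d = k0 * (∑ i ∈ A, z i * p i 0)
      + k1 * (∑ i ∈ A, z i * p i 1) + k2 * (∑ i ∈ A, z i * p i 2) + k3 * ∑ i ∈ A, z i := by
    rw [Finset.mul_sum, Finset.mul_sum, Finset.mul_sum, Finset.mul_sum,
      ← Finset.sum_add_distrib, ← Finset.sum_add_distrib, ← Finset.sum_add_distrib]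
    refine Finset.sum_congr rfl fun i _ => ?_
    rw [hk]
    ring
  rw [e, hj, hj, hj, h.2.1]
  ring

lemma dep_mono {ι : Type*} {p : ι → E} {A A' : Finset ι} {z : ι → ℝ} (h : Dep p A z)
    (hA : A ⊆ A') : Dep p A' z := by
  refine ⟨fun i hi => h.1 i fun h' => hi (hA h'), ?_, ?_⟩
  · rw [← h.2.1]
    exact (Finset.sum_subset hA fun i _ hi => h.1 i hi).symm
  · rw [← h.2.2]
    exact (Finset.sum_subset hA fun i _ hi => by rw [h.1 i hi, zero_smul]).symm

lemma dep_shrink {ι : Type*} {p : ι → E} {A A' : Finset ι} {z : ι → ℝ} (h : Dep p A z)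
    (hA : A' ⊆ A) (hz : ∀ i, i ∉ A' → z i = 0) : Dep p A' z := by
  refine ⟨hz, ?_, ?_⟩
  · rw [← h.2.1]
    exact Finset.sum_subset hA fun i _ hi => hz i hi
  · rw [← h.2.2]
    exact Finset.sum_subset hA fun i _ hi => by rw [hz i hi, zero_smul]

/-- four points in general position have no dependence -/
lemma dep4 {ι : Type*} [DecidableEq ι] {p : ι → E} {B : Finset ι} (hB : Gen p B) {z : ι → ℝ}
    {a b c d : ι} (ha : a ∈ B) (hb : b ∈ B) (hc : c ∈ B) (hd : d ∈ B) (hab : a ≠ b) (hac : a ≠ c)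
    (had : a ≠ d) (hbc : b ≠ c) (hbd : b ≠ d) (hcd : c ≠ d) (h : Dep p {a, b, c, d} z) :
    z a = 0 := by
  have h1 := dep_ori h (p b) (p c) (p d)
  rw [Finset.sum_insert (by simp [hab, hac, had]), Finset.sum_insert (by simp [hbc, hbd]),
    Finset.sum_insert (by simp [hcd]), Finset.sum_singleton, ori_self1, ori_self2, ori_self3,
    mul_zero, mul_zero, mul_zero, add_zero, add_zero, add_zero] at h1
  exact (mul_eq_zero.1 h1).resolve_right (hB a ha b hb c hc d hd hab hac had hbc hbd hcd)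

/-- at most four points in general position have no dependence -/
lemma dep_zero {ι : Type*} [DecidableEq ι] {p : ι → E} {B : Finset ι} (hB : Gen p B)
    (h4 : 4 ≤ B.card) {A : Finset ι} (hA : A ⊆ B) (hc : A.card ≤ 4) {z : ι → ℝ}
    (h : Dep p A z) (i : ι) : z i = 0 := by
  by_cases hi : i ∈ A
  swap
  · exact h.1 i hi
  obtain ⟨A', h1, h2, h3⟩ := Finset.exists_subsuperset_card_eq hA hc h4
  have hi' : i ∈ A' := h1 hi
  have hD := dep_mono h h1
  obtain ⟨x, y, w, hxy, hxw, hyw, he⟩ := Finset.card_eq_three.1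
    (show (A'.erase i).card = 3 by rw [Finset.card_erase_of_mem hi', h3])
  have hA' : A' = {i, x, y, w} := by
    rw [← Finset.insert_erase hi', he]
  have hmem : ∀ j ∈ A'.erase i, j ∈ B ∧ i ≠ j := by
    intro j hj
    exact ⟨h2 (Finset.mem_of_mem_erase hj), (Finset.ne_of_mem_erase hj).symm⟩
  have hx := hmem x (by rw [he]; simp)
  have hy := hmem y (by rw [he]; simp)
  have hw := hmem w (by rw [he]; simp)
  rw [hA'] at hD
  exact dep4 hB (h2 hi') hx.1 hy.1 hw.1 hx.2 hy.2 hw.2 hxy hxw hyw hD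

/-- points in convex hulls -/
lemma mem_hull {ι : Type*} [DecidableEq ι] {p : ι → E} {s : Finset ι} {x : E} :
    x ∈ convexHull ℝ (p '' (s : Set ι)) ↔ ∃ w : ι → ℝ, (∀ i, 0 ≤ w i) ∧
      (∀ i, i ∉ s → w i = 0) ∧ ∑ i ∈ s, w i = 1 ∧ ∑ i ∈ s, w i • p i = x := by
  constructor
  · intro hx
    have hC : Convex ℝ {x : E | ∃ w : ι → ℝ, (∀ i, 0 ≤ w i) ∧
      (∀ i, i ∉ s → w i = 0) ∧ ∑ i ∈ s, w i = 1 ∧ ∑ i ∈ s, w i • p i = x} := by
      rintro x ⟨w, h1, h2, h3, h4⟩ y ⟨w', h1', h2', h3', h4'⟩ a b ha hb hab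
      refine ⟨fun i => a * w i + b * w' i, fun i => ?_, fun i hi => ?_, ?_, ?_⟩
      · exact add_nonneg (mul_nonneg ha (h1 i)) (mul_nonneg hb (h1' i))
      · dsimp only
        rw [h2 i hi, h2' i hi, mul_zero, mul_zero, add_zero]
      · rw [Finset.sum_add_distrib, ← Finset.mul_sum, ← Finset.mul_sum, h3, h3', mul_one, mul_one,
          hab]
      · rw [← h4, ← h4', Finset.smul_sum, Finset.smul_sum, ← Finset.sum_add_distrib]
        refine Finset.sum_congr rfl fun i _ => ?_
        rw [add_smul, mul_smul, mul_smul]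
    refine convexHull_min ?_ hC hx
    rintro _ ⟨i, hi, rfl⟩
    have hi' : i ∈ s := hi
    refine ⟨fun j => if j = i then 1 else 0, fun j => ?_, fun j hj => ?_, ?_, ?_⟩
    · dsimp only
      split_ifs <;> norm_num
    · dsimp only
      rw [if_neg]
      rintro rfl
      exact hj hi'
    · rw [Finset.sum_ite_eq' s i]
      simp [hi']
    · simp [hi']
  · rintro ⟨w, h1, h2, h3, rfl⟩
    exact (convex_convexHull ℝ _).sum_mem (fun i _ => h1 i) h3
      fun i hi => subset_convexHull ℝ _ ⟨i, hi, rfl⟩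

/-- the signs of a dependence of five points -/
lemma pierce_of_dep {ι : Type*} [DecidableEq ι] {p : ι → E} {z : ι → ℝ} {a b c d e : ι}
    (hab : a ≠ b) (hac : a ≠ c) (had : a ≠ d) (hae : a ≠ e) (hbc : b ≠ c) (hbd : b ≠ d)
    (hbe : b ≠ e) (hcd : c ≠ d) (hce : c ≠ e) (hde : d ≠ e)
    (hg : ori (p b) (p c) (p d) (p e) ≠ 0) (h : Dep p {a, b, c, d, e} z)
    (za : 0 < z a) (zb : 0 < z b) (zc : z c < 0) (zd : z d < 0) (ze : z e < 0) :
    Pierce (p a) (p b) (p c) (p d) (p e) := by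
  have hs : ∀ u v w : E, z a * ori (p a) u v w + z b * ori (p b) u v w + z c * ori (p c) u v w
      + z d * ori (p d) u v w + z e * ori (p e) u v w = 0 := by
    intro u v w
    have h1 := dep_ori h u v w
    rw [Finset.sum_insert (by simp [hab, hac, had, hae]),
      Finset.sum_insert (by simp [hbc, hbd, hbe]), Finset.sum_insert (by simp [hcd, hce]),
      Finset.sum_insert (by simp [hde]), Finset.sum_singleton] at h1
    linarith
  have r1 := hs (p c) (p d) (p e)
  rw [ori_self1, ori_self2, ori_self3] at r1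
  have r2 := hs (p b) (p d) (p e)
  rw [ori_self1, ori_self2, ori_self3] at r2
  have r3 := hs (p a) (p b) (p e)
  rw [ori_self1, ori_self2, ori_self3] at r3
  have r4 := hs (p a) (p b) (p c)
  rw [ori_self1, ori_self2, ori_self3] at r4
  have e1 : ori (p c) (p b) (p d) (p e) = -ori (p b) (p c) (p d) (p e) := ori_12 _ _ _ _
  have e2 : ori (p c) (p a) (p b) (p e) = ori (p a) (p b) (p c) (p e) := by unfold ori; ring
  have e3 : ori (p d) (p a) (p b) (p e) = ori (p a) (p b) (p d) (p e) := by unfold ori; ring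
  have e4 : ori (p d) (p a) (p b) (p c) = -ori (p a) (p b) (p c) (p d) := by unfold ori; ring
  have e5 : ori (p e) (p a) (p b) (p c) = -ori (p a) (p b) (p c) (p e) := by unfold ori; ring
  rw [e1] at r2
  rw [e2, e3] at r3
  rw [e4, e5] at r4
  unfold Pierce
  generalize ori (p b) (p c) (p d) (p e) = A at *
  generalize ori (p a) (p c) (p d) (p e) = B at *
  generalize ori (p a) (p b) (p d) (p e) = C at *
  generalize ori (p a) (p b) (p c) (p e) = D at *
  generalize ori (p a) (p b) (p c) (p d) = F at *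
  have pos_of : ∀ u v : ℝ, 0 < u → 0 < u * v → 0 < v := fun u v hu h =>
    (mul_pos_iff_of_pos_left hu).1 h
  have neg_of : ∀ u v : ℝ, 0 < u → u * v < 0 → v < 0 := by
    intro u v hu h
    by_contra hv
    exact absurd h (not_lt.2 (mul_nonneg hu.le (not_lt.1 hv)))
  rcases lt_or_gt_of_ne hg with hA | hA
  · right
    have hB : 0 < B := pos_of (z a) B za (by nlinarith [mul_pos_of_neg_of_neg hA (neg_neg_of_pos zb)])
    have hC : 0 < C := pos_of (z a) C za (by nlinarith [mul_pos_of_neg_of_neg hA zc])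
    have hD : D < 0 := by
      have : 0 < z c * D := by nlinarith [mul_neg_of_neg_of_pos zd hC]
      nlinarith [neg_of (-z c) D (by linarith) (by linarith)]
    have hF : 0 < F := by
      have : z d * F < 0 := by nlinarith [mul_pos_of_neg_of_neg ze hD]
      nlinarith [pos_of (-z d) F (by linarith) (by linarith)]
    exact ⟨hA, hB, hC, hD, hF⟩
  · left
    have hB : B < 0 := neg_of (z a) B za (by nlinarith [mul_pos hA zb])
    have hC : C < 0 := neg_of (z a) C za (by nlinarith [mul_neg_of_neg_of_pos zc hA])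
    have hD : 0 < D := by
      have : z c * D < 0 := by nlinarith [mul_pos_of_neg_of_neg zd hC]
      nlinarith [pos_of (-z c) D (by linarith) (by linarith)]
    have hF : F < 0 := by
      have : 0 < z d * F := by nlinarith [mul_neg_of_neg_of_pos ze hD]
      nlinarith [neg_of (-z d) F (by linarith) (by linarith)]
    exact ⟨hA, hB, hC, hD, hF⟩

lemma inj_of_gen {ι : Type*} [DecidableEq ι] {p : ι → E} {B : Finset ι} (hB : Gen p B)
    (h4 : 4 ≤ B.card) {a b : ι} (ha : a ∈ B) (hb : b ∈ B) (h : p a = p b) : a = b := by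
  by_contra hab
  have hc : 2 ≤ ((B.erase a).erase b).card := by
    rw [Finset.card_erase_of_mem (Finset.mem_erase.2 ⟨Ne.symm hab, hb⟩),
      Finset.card_erase_of_mem ha]
    omega
  obtain ⟨c, hc', d, hd', hcd⟩ := Finset.one_lt_card.1 (by omega : 1 < ((B.erase a).erase b).card)
  simp only [Finset.mem_erase] at hc' hd'
  refine hB a ha b hb c hc'.2.2 d hd'.2.2 hab (Ne.symm hc'.2.1) (Ne.symm hd'.2.1)
    (Ne.symm hc'.1) (Ne.symm hd'.1) hcd ?_
  rw [h]
  exact ori_self1 _ _ _

/-- a second dependence of six points -/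
lemma exists_dep {ι : Type*} [DecidableEq ι] {p : ι → E} {B : Finset ι} (hB : Gen p B)
    (h4 : 4 ≤ B.card) {A : Finset ι} (hA : A ⊆ B) (hc : 5 ≤ A.card) :
    ∃ y : ι → ℝ, Dep p A y ∧ ∃ i ∈ A, y i ≠ 0 := by
  have hinj : Set.InjOn p (A : Set ι) := fun a ha b hb h =>
    inj_of_gen hB h4 (hA ha) (hA hb) h
  have hcard : Module.finrank ℝ E + 1 < (A.image p).card := by
    rw [Finset.card_image_of_injOn hinj, finrank_euclideanSpace_fin]
    omega
  obtain ⟨f, h1, h2, x, hx, hfx⟩ :=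
    Module.exists_nontrivial_relation_sum_zero_of_finrank_succ_lt_card (R := ℝ) hcard
  obtain ⟨i0, hi0, rfl⟩ := Finset.mem_image.1 hx
  rw [Finset.sum_image hinj] at h1 h2
  refine ⟨fun i => if i ∈ A then f (p i) else 0, ⟨fun i hi => if_neg hi, ?_, ?_⟩, i0, hi0, ?_⟩
  · rw [← h2]
    exact Finset.sum_congr rfl fun i hi => if_pos hi
  · rw [← h1]
    exact Finset.sum_congr rfl fun i hi => by
      dsimp only
      rw [if_pos hi]
  · dsimp only
    rw [if_pos hi0]
    exact hfx

/-- a dependence of six points can be reduced to five points -/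
lemma reduce {ι : Type*} [DecidableEq ι] {p : ι → E} {B : Finset ι} (hB : Gen p B)
    (h4 : 4 ≤ B.card) {A : Finset ι} (hA : A ⊆ B) (hc : A.card = 6) {z : ι → ℝ}
    (hz : Dep p A z) (hne : ∃ i ∈ A, z i ≠ 0) :
    ∃ z' : ι → ℝ, Dep p A z' ∧ (∃ i ∈ A, z' i ≠ 0) ∧ (∀ i, 0 < z' i → 0 < z i) ∧
      (∀ i, z' i < 0 → z i < 0) ∧ ∃ i ∈ A, z' i = 0 := by
  by_cases h0 : ∃ i ∈ A, z i = 0
  · exact ⟨z, hz, hne, fun _ h => h, fun _ h => h, h0⟩
  push Not at h0
  obtain ⟨i0, hi0⟩ := Finset.card_pos.1 (by omega : 0 < A.card)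
  obtain ⟨y0, hy0, j, hj, hyj⟩ := exists_dep hB h4 (A := A.erase i0)
    ((Finset.erase_subset _ _).trans hA) (by rw [Finset.card_erase_of_mem hi0]; omega)
  -- choose the sign of `y`
  obtain ⟨y, hy, hyi, hpos⟩ : ∃ y : ι → ℝ, Dep p A y ∧ y i0 = 0 ∧ ∃ j ∈ A, 0 < y j * z j := by
    have hyA : Dep p A y0 := dep_mono hy0 (Finset.erase_subset _ _)
    have hjA : j ∈ A := Finset.mem_of_mem_erase hj
    have hy00 : y0 i0 = 0 := hy0.1 i0 (Finset.notMem_erase _ _)
    rcases lt_or_gt_of_ne (mul_ne_zero hyj (h0 j hjA)) with h | h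
    · refine ⟨fun i => -y0 i, ⟨fun i hi => by
          dsimp only
          rw [hyA.1 i hi, neg_zero], ?_, ?_⟩, by
        dsimp only
        rw [hy00, neg_zero], j, hjA, by
        dsimp only
        rw [neg_mul]
        linarith⟩
      · rw [Finset.sum_neg_distrib, hyA.2.1, neg_zero]
      · simp only [neg_smul]
        rw [Finset.sum_neg_distrib, hyA.2.2, neg_zero]
    · exact ⟨y0, hyA, hy00, j, hjA, h⟩
  obtain ⟨j, hj, hjp⟩ := hpos
  set I := A.filter fun i => 0 < y i * z i with hI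
  have hIne : I.Nonempty := ⟨j, Finset.mem_filter.2 ⟨hj, hjp⟩⟩
  obtain ⟨m, hm, hmin⟩ := Finset.exists_min_image I (fun i => z i / y i) hIne
  have hm' := Finset.mem_filter.1 hm
  have hym : y m ≠ 0 := fun h => by
    have := hm'.2
    rw [h, zero_mul] at this
    exact lt_irrefl _ this
  set τ := z m / y m with hτ
  have hτpos : 0 < τ := by
    rw [hτ, div_eq_mul_inv]
    have h1 : 0 < z m * y m := by rw [mul_comm]; exact hm'.2
    have h2 : 0 < (y m)⁻¹ * (y m)⁻¹ := mul_self_pos.2 (inv_ne_zero hym)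
    have h3 : z m * (y m)⁻¹ = (z m * y m) * ((y m)⁻¹ * (y m)⁻¹) := by
      field_simp
    rw [h3]
    exact mul_pos h1 h2
  refine ⟨fun i => z i - τ * y i, ⟨fun i hi => by
      dsimp only
      rw [hz.1 i hi, hy.1 i hi]
      ring, ?_, ?_⟩,
    ⟨i0, hi0, by dsimp only; rw [hyi, mul_zero, sub_zero]; exact h0 i0 hi0⟩, ?_, ?_,
    ⟨m, hm'.1, ?_⟩⟩
  · rw [Finset.sum_sub_distrib, ← Finset.mul_sum, hz.2.1, hy.2.1]
    ring
  · simp only [sub_smul, mul_smul]
    rw [Finset.sum_sub_distrib, ← Finset.smul_sum, hz.2.2, hy.2.2]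
    simp
  · intro i hi
    dsimp only at hi
    by_contra hzi
    rw [not_lt] at hzi
    by_cases hiA : i ∈ A
    · have hzi' : z i < 0 := lt_of_le_of_ne hzi (h0 i hiA)
      by_cases hyi : y i < 0
      · have hiI : i ∈ I := Finset.mem_filter.2 ⟨hiA, mul_pos_of_neg_of_neg hyi hzi'⟩
        have h5 := hmin i hiI
        have h6 : z i ≤ τ * y i := by
          have := mul_le_mul_of_nonpos_right h5 hyi.le
          rwa [div_mul_cancel₀ _ hyi.ne] at this
        linarith
      · have := mul_nonneg hτpos.le (not_lt.1 hyi)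
        linarith
    · rw [hz.1 i hiA, hy.1 i hiA] at hi
      simp at hi
  · intro i hi
    dsimp only at hi
    by_contra hzi
    rw [not_lt] at hzi
    by_cases hiA : i ∈ A
    · have hzi' : 0 < z i := lt_of_le_of_ne hzi (Ne.symm (h0 i hiA))
      by_cases hyi : 0 < y i
      · have hiI : i ∈ I := Finset.mem_filter.2 ⟨hiA, mul_pos hyi hzi'⟩
        have h5 := hmin i hiI
        have h6 : τ * y i ≤ z i := by
          have := mul_le_mul_of_nonneg_right h5 hyi.le
          rwa [div_mul_cancel₀ _ hyi.ne'] at this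
        linarith
      · have := mul_nonpos_of_nonneg_of_nonpos hτpos.le (not_lt.1 hyi)
        linarith
    · rw [hz.1 i hiA, hy.1 i hiA] at hi
      simp at hi
  · dsimp only
    rw [hτ, div_mul_cancel₀ _ hym, sub_self]

/-- the signs of a dependence whose positive part is in `s` and whose negative part is in `t` -/
lemma five {ι : Type*} [DecidableEq ι] {p : ι → E} {B : Finset ι} (hB : Gen p B)
    {s t A : Finset ι} (hs : s.card ≤ 3) (ht : t.card ≤ 3) (hA : A ⊆ B) (hc : A.card = 5)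
    (h1 : ∀ a ∈ s, ∀ b ∈ s, ∀ c ∈ t, ∀ d ∈ t, ∀ e ∈ t, a ≠ b → a ≠ c → a ≠ d → a ≠ e → b ≠ c →
      b ≠ d → b ≠ e → c ≠ d → c ≠ e → d ≠ e → ¬ Pierce (p a) (p b) (p c) (p d) (p e))
    (h2 : ∀ a ∈ t, ∀ b ∈ t, ∀ c ∈ s, ∀ d ∈ s, ∀ e ∈ s, a ≠ b → a ≠ c → a ≠ d → a ≠ e → b ≠ c →
      b ≠ d → b ≠ e → c ≠ d → c ≠ e → d ≠ e → ¬ Pierce (p a) (p b) (p c) (p d) (p e))
    {z : ι → ℝ} (hz : Dep p A z) (hne : ∀ i ∈ A, z i ≠ 0) (hp : ∀ i, 0 < z i → i ∈ s)
    (hn : ∀ i, z i < 0 → i ∈ t) : False := by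
  set P := A.filter fun i => 0 < z i with hP
  set Q := A.filter fun i => z i < 0 with hQ
  have hPQ : P.card + Q.card = 5 := by
    rw [← hc, ← Finset.card_union_of_disjoint]
    · congr 1
      ext i
      simp only [hP, hQ, Finset.mem_union, Finset.mem_filter]
      constructor
      · rintro (h | h)
        · exact h.1
        · exact h.1
      · intro h
        rcases lt_or_gt_of_ne (hne i h) with h' | h'
        · exact Or.inr ⟨h, h'⟩
        · exact Or.inl ⟨h, h'⟩
    · rw [Finset.disjoint_left]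
      intro i hi hi'
      have := (Finset.mem_filter.1 hi).2
      have := (Finset.mem_filter.1 hi').2
      linarith
  have hP3 : P.card ≤ 3 :=
    (Finset.card_le_card fun i hi => hp i (Finset.mem_filter.1 hi).2).trans hs
  have hQ3 : Q.card ≤ 3 :=
    (Finset.card_le_card fun i hi => hn i (Finset.mem_filter.1 hi).2).trans ht
  have hU : A = P ∪ Q := by
    ext i
    simp only [hP, hQ, Finset.mem_union, Finset.mem_filter]
    constructor
    · intro h
      rcases lt_or_gt_of_ne (hne i h) with h' | h'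
      · exact Or.inr ⟨h, h'⟩
      · exact Or.inl ⟨h, h'⟩
    · rintro (h | h)
      · exact h.1
      · exact h.1
  have hcase : (P.card = 2 ∧ Q.card = 3) ∨ (P.card = 3 ∧ Q.card = 2) := by omega
  -- the common argument
  have main : ∀ (P Q s t : Finset ι) (z : ι → ℝ), A = P ∪ Q → P.card = 2 → Q.card = 3 →
      (∀ i ∈ P, 0 < z i ∧ i ∈ s) → (∀ i ∈ Q, z i < 0 ∧ i ∈ t) → Dep p A z →
      ∃ a b c d e, a ∈ s ∧ b ∈ s ∧ c ∈ t ∧ d ∈ t ∧ e ∈ t ∧ a ≠ b ∧ a ≠ c ∧ a ≠ d ∧ a ≠ e ∧ b ≠ c ∧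
      b ≠ d ∧ b ≠ e ∧ c ≠ d ∧ c ≠ e ∧ d ≠ e ∧ Pierce (p a) (p b) (p c) (p d) (p e) := by
    intro P Q s t z hU h2 h3 hPs hQt hz
    obtain ⟨a, b, hab, rfl⟩ := Finset.card_eq_two.1 h2
    obtain ⟨c, d, e, hcd, hce, hde, rfl⟩ := Finset.card_eq_three.1 h3
    have pa := hPs a (by simp)
    have pb := hPs b (by simp)
    have qc := hQt c (by simp)
    have qd := hQt d (by simp)
    have qe := hQt e (by simp)
    have ne : ∀ x y : ι, 0 < z x → z y < 0 → x ≠ y := by
      rintro x y hx hy rfl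
      linarith
    have hU' : A = {a, b, c, d, e} := by
      rw [hU]
      ext i
      simp only [Finset.mem_union, Finset.mem_insert, Finset.mem_singleton]
      tauto
    have hmem : ∀ i ∈ ({a, b, c, d, e} : Finset ι), i ∈ B := by
      intro i hi
      rw [← hU'] at hi
      exact hA hi
    rw [hU'] at hz
    have hbc := ne b c pb.1 qc.1
    have hbd := ne b d pb.1 qd.1
    have hbe := ne b e pb.1 qe.1
    refine ⟨a, b, c, d, e, pa.2, pb.2, qc.2, qd.2, qe.2, hab, ne a c pa.1 qc.1, ne a d pa.1 qd.1,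
      ne a e pa.1 qe.1, hbc, hbd, hbe, hcd, hce, hde, ?_⟩
    exact pierce_of_dep hab (ne a c pa.1 qc.1) (ne a d pa.1 qd.1) (ne a e pa.1 qe.1) hbc hbd hbe
      hcd hce hde (hB b (hmem b (by simp)) c (hmem c (by simp)) d (hmem d (by simp)) e
      (hmem e (by simp)) hbc hbd hbe hcd hce hde) hz pa.1 pb.1 qc.1 qd.1 qe.1
  rcases hcase with ⟨c1, c2⟩ | ⟨c1, c2⟩
  · obtain ⟨a, b, c, d, e, ma, mb, mc, md, me, n1, n2, n3, n4, n5, n6, n7, n8, n9, n10, hpi⟩ :=
      main P Q s t z hU c1 c2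
        (fun i hi => ⟨(Finset.mem_filter.1 hi).2, hp i (Finset.mem_filter.1 hi).2⟩)
        (fun i hi => ⟨(Finset.mem_filter.1 hi).2, hn i (Finset.mem_filter.1 hi).2⟩) hz
    exact h1 a ma b mb c mc d md e me n1 n2 n3 n4 n5 n6 n7 n8 n9 n10 hpi
  · obtain ⟨a, b, c, d, e, ma, mb, mc, md, me, n1, n2, n3, n4, n5, n6, n7, n8, n9, n10, hpi⟩ :=
      main Q P t s (fun i => -z i) (by rw [hU, Finset.union_comm]) c2 c1
        (fun i hi => ⟨by
          have := (Finset.mem_filter.1 hi).2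
          linarith, hn i (Finset.mem_filter.1 hi).2⟩)
        (fun i hi => ⟨by
          have := (Finset.mem_filter.1 hi).2
          linarith, hp i (Finset.mem_filter.1 hi).2⟩)
        ⟨fun i hi => by
          dsimp only
          rw [hz.1 i hi, neg_zero],
          by rw [Finset.sum_neg_distrib, hz.2.1, neg_zero],
          by simp only [neg_smul]; rw [Finset.sum_neg_distrib, hz.2.2, neg_zero]⟩
    exact h2 a ma b mb c mc d md e me n1 n2 n3 n4 n5 n6 n7 n8 n9 n10 hpi

end Geo46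

open Geo46 in
/-- two simplices of dimension at most two whose edges do not pierce each other meet exactly in
the hull of their common vertices -/
theorem hull_inter {ι : Type*} [DecidableEq ι] (p : ι → E) (B s t : Finset ι) (hB : Gen p B)
    (h4 : 4 ≤ B.card) (hsB : s ⊆ B) (htB : t ⊆ B) (hs : s.card ≤ 3) (ht : t.card ≤ 3)
    (h1 : ∀ a ∈ s, ∀ b ∈ s, ∀ c ∈ t, ∀ d ∈ t, ∀ e ∈ t, a ≠ b → a ≠ c → a ≠ d → a ≠ e → b ≠ c →
      b ≠ d → b ≠ e → c ≠ d → c ≠ e → d ≠ e → ¬ Pierce (p a) (p b) (p c) (p d) (p e))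
    (h2 : ∀ a ∈ t, ∀ b ∈ t, ∀ c ∈ s, ∀ d ∈ s, ∀ e ∈ s, a ≠ b → a ≠ c → a ≠ d → a ≠ e → b ≠ c →
      b ≠ d → b ≠ e → c ≠ d → c ≠ e → d ≠ e → ¬ Pierce (p a) (p b) (p c) (p d) (p e)) :
    convexHull ℝ (p '' (s : Set ι)) ∩ convexHull ℝ (p '' (t : Set ι)) =
      convexHull ℝ (p '' ((s ∩ t : Finset ι) : Set ι)) := by
  apply Set.Subset.antisymm
  swap
  · apply Set.subset_inter
    · exact convexHull_mono (Set.image_mono (by simp))
    · exact convexHull_mono (Set.image_mono (by simp))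
  rintro x ⟨hx1, hx2⟩
  obtain ⟨u, u1, u2, u3, u4⟩ := mem_hull.1 hx1
  obtain ⟨v, v1, v2, v3, v4⟩ := mem_hull.1 hx2
  have hzero : ∀ z : ι → ℝ, Dep p (s ∪ t) z → (∀ i, 0 < z i → i ∈ s) → (∀ i, z i < 0 → i ∈ t) →
      ∀ i, z i = 0 := by
    intro z hz hp hn
    have hA : s ∪ t ⊆ B := Finset.union_subset hsB htB
    have hcard : (s ∪ t).card ≤ 6 := (Finset.card_union_le _ _).trans (by omega)
    -- the case of a dependence with a vanishing coefficient or few points
    have small : ∀ z' : ι → ℝ, Dep p (s ∪ t) z' → (∀ i, 0 < z' i → i ∈ s) →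
        (∀ i, z' i < 0 → i ∈ t) → ((s ∪ t).filter fun i => z' i ≠ 0).card ≤ 5 →
        ∀ i, z' i = 0 := by
      intro z' hz' hp' hn' hc'
      set A := (s ∪ t).filter fun i => z' i ≠ 0 with hAdef
      have hAs : A ⊆ s ∪ t := Finset.filter_subset _ _
      have hDA : Dep p A z' := dep_shrink hz' hAs fun i hi => by
        by_contra h
        by_cases hi' : i ∈ s ∪ t
        · exact hi (Finset.mem_filter.2 ⟨hi', h⟩)
        · exact h (hz'.1 i hi')
      rcases Nat.lt_or_ge A.card 5 with h | h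
      · exact dep_zero hB h4 (hAs.trans hA) (by omega) hDA
      · exfalso
        exact five hB hs ht (hAs.trans hA) (by omega) h1 h2 hDA
          (fun i hi => (Finset.mem_filter.1 hi).2) hp' hn'
    by_cases h6 : (s ∪ t).card = 6
    · by_cases hne : ∃ i ∈ s ∪ t, z i ≠ 0
      · obtain ⟨z', d1, ⟨i, hi, hi'⟩, d3, d4, j, hj, hj'⟩ := reduce hB h4 hA h6 hz hne
        exfalso
        refine hi' (small z' d1 (fun i h => hp i (d3 i h)) (fun i h => hn i (d4 i h)) ?_ i)
        have : ((s ∪ t).filter fun i => z' i ≠ 0) ⊂ s ∪ t := by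
          refine Finset.filter_ssubset.2 ⟨j, hj, ?_⟩
          simpa using hj'
        have := Finset.card_lt_card this
        omega
      · push Not at hne
        intro i
        by_cases hi : i ∈ s ∪ t
        · exact hne i hi
        · exact hz.1 i hi
    · refine small z hz hp hn ?_
      exact (Finset.card_filter_le _ _).trans (by omega)
  have hD : Dep p (s ∪ t) (fun i => u i - v i) := by
    refine ⟨fun i hi => ?_, ?_, ?_⟩
    · rw [Finset.notMem_union] at hi
      dsimp only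
      rw [u2 i hi.1, v2 i hi.2, sub_zero]
    · rw [Finset.sum_sub_distrib]
      have e1 : ∑ i ∈ s ∪ t, u i = ∑ i ∈ s, u i :=
        (Finset.sum_subset Finset.subset_union_left fun i _ hi => u2 i hi).symm
      have e2 : ∑ i ∈ s ∪ t, v i = ∑ i ∈ t, v i :=
        (Finset.sum_subset Finset.subset_union_right fun i _ hi => v2 i hi).symm
      rw [e1, e2, u3, v3, sub_self]
    · simp only [sub_smul]
      rw [Finset.sum_sub_distrib]
      have e1 : ∑ i ∈ s ∪ t, u i • p i = ∑ i ∈ s, u i • p i :=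
        (Finset.sum_subset Finset.subset_union_left fun i _ hi => by rw [u2 i hi, zero_smul]).symm
      have e2 : ∑ i ∈ s ∪ t, v i • p i = ∑ i ∈ t, v i • p i :=
        (Finset.sum_subset Finset.subset_union_right fun i _ hi => by rw [v2 i hi, zero_smul]).symm
      rw [e1, e2, u4, v4, sub_self]
  have huv := hzero _ hD (fun i hi => by
    by_contra h
    have h' := u2 i h
    have := v1 i
    rw [h'] at hi
    linarith) (fun i hi => by
    by_contra h
    have h' := v2 i h
    have := u1 i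
    rw [h'] at hi
    linarith)
  have hu0 : ∀ i, i ∉ s ∩ t → u i = 0 := by
    intro i hi
    rw [Finset.mem_inter, not_and_or] at hi
    rcases hi with h | h
    · exact u2 i h
    · have h3 := huv i
      have h5 := v2 i h
      linarith
  refine mem_hull.2 ⟨u, u1, hu0, ?_, ?_⟩
  · rw [← u3]
    exact Finset.sum_subset Finset.inter_subset_left fun i _ hi => hu0 i hi
  · rw [← u4]
    exact Finset.sum_subset Finset.inter_subset_left fun i _ hi => by rw [hu0 i hi, zero_smul]

open Geo46 in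
/-- at most four points in general position are affinely independent -/
theorem affInd_of_gen {ι : Type*} [DecidableEq ι] (p : ι → E) (B s : Finset ι) (hB : Gen p B)
    (h4 : 4 ≤ B.card) (hsB : s ⊆ B) (hs : s.card ≤ 4) :
    AffineIndependent ℝ (fun x : {i // i ∈ s} => p x.1) := by
  rw [affineIndependent_iff]
  intro S w hw1 hw2 e he
  set z : ι → ℝ := fun i => if h : i ∈ s then (if (⟨i, h⟩ : {i // i ∈ s}) ∈ S then w ⟨i, h⟩ else 0)
    else 0 with hz
  have hzS : ∀ x : {i // i ∈ s}, z x.1 = if x ∈ S then w x else 0 := by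
    intro x
    rw [hz]
    dsimp only
    rw [dif_pos x.2]
  have hD : Dep p s z := by
    refine ⟨fun i hi => by rw [hz]; dsimp only; rw [dif_neg hi], ?_, ?_⟩
    · rw [← Finset.sum_coe_sort s z]
      simp only [hzS]
      rw [Finset.sum_ite_mem, Finset.univ_inter]
      exact hw1
    · rw [← Finset.sum_coe_sort s fun i => z i • p i]
      simp only [hzS, ite_smul, zero_smul]
      rw [Finset.sum_ite_mem, Finset.univ_inter]
      exact hw2
  have := dep_zero hB h4 hsB hs hD e.1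
  rw [hzS, if_pos he] at this
  exact this

end Pool.Agent.Lib.MP_4f1247_co.NN
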