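import Pool.Agent.Lib.MP_4f1247_co.NN.Chi94

/-!
# Three needles: all orientations
-/

set_option autoImplicit false

namespace Pool.Agent.Lib.MP_4f1247_co.NN

theorem fin3 (τ : Fin 3) : τ = 0 ∨ τ = 1 ∨ τ = 2 := by omega

theorem key4 {N r q s u : ℤ} (τ : Fin 3) (hr : 0 ≤ r) (h1 : r < q) (h2 : q < s) (h3 : s < u)
    (hu : u < N) : Dt (uu N ![τ, τ, τ, τ] ![r, q, s, u]) (vv ![r, q, s, u]) N < 0 := by
  rcases fin3 τ with rfl | rfl | rfl
  all_goals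
    apply Dt_neg (U := -(2 * r + 1) - (2 * (N - 1 - u) + 1)) (V := s) (hm := by omega)
    all_goals simp [S, Lt, uu, vv, ru, rv]
    all_goals omega

theorem sgn4 {N r q s u : ℤ} (τ : Fin 3) (hr : 0 ≤ r) (h1 : r < q) (h2 : q < s) (h3 : s < u)
    (hu : u < N) : ori (pt N τ r) (pt N τ q) (pt N τ s) (pt N τ u) < 0 := by
  have h' := ori_neg (key4 τ hr h1 h2 h3 hu)
  simpa only [Matrix.cons_val] using h'

theorem key31 {N r q s t : ℤ} (τ : Fin 3) (hr : 0 ≤ r) (h1 : r < q) (h2 : q < s) (hs : s < N)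
    (ht : 0 ≤ t) (ht' : t < N) (h : r + s + t ≤ 2 * N - 2) :
    Dt (uu N ![τ, τ, τ, τ + 1] ![r, q, s, t]) (vv ![r, q, s, t]) N < 0 := by
  rcases fin3 τ with rfl | rfl | rfl
  all_goals
    apply Dt_neg (U := -(2 * r + 1)) (V := s) (hm := by omega)
    all_goals simp [S, Lt, uu, vv, ru, rv]
    all_goals omega

theorem key31' {N r q s t : ℤ} (τ : Fin 3) (hr : 0 ≤ r) (h1 : r < q) (h2 : q < s) (hs : s < N)
    (ht : 0 ≤ t) (ht' : t < N) (h : 2 * N - 1 ≤ r + s + t) :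
    0 < Dt (uu N ![τ, τ, τ, τ + 1] ![r, q, s, t]) (vv ![r, q, s, t]) N := by
  rcases fin3 τ with rfl | rfl | rfl
  all_goals
    apply Dt_pos (U := -(2 * (N - 1 - t) + 1) - (2 * (N - 1 - s) + 1)) (V := q) (hm := by omega)
    all_goals simp [S, Lt, uu, vv, ru, rv]
    all_goals omega

theorem key32 {N r q s t : ℤ} (τ : Fin 3) (hr : 0 ≤ r) (h1 : r < q) (h2 : q < s) (hs : s < N)
    (ht : 0 ≤ t) (ht' : t < N) (h : r + s + t ≤ N - 2) :
    Dt (uu N ![τ, τ, τ, τ + 2] ![r, q, s, t]) (vv ![r, q, s, t]) N < 0 := by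
  rcases fin3 τ with rfl | rfl | rfl
  all_goals
    apply Dt_neg (U := -(2 * t + 1) - (2 * r + 1)) (V := s) (hm := by omega)
    all_goals simp [S, Lt, uu, vv, ru, rv]
    all_goals omega

theorem key32' {N r q s t : ℤ} (τ : Fin 3) (hr : 0 ≤ r) (h1 : r < q) (h2 : q < s) (hs : s < N)
    (ht : 0 ≤ t) (ht' : t < N) (h : N - 1 ≤ r + s + t) :
    0 < Dt (uu N ![τ, τ, τ, τ + 2] ![r, q, s, t]) (vv ![r, q, s, t]) N := by
  rcases fin3 τ with rfl | rfl | rfl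
  all_goals
    apply Dt_pos (U := -(2 * (N - 1 - s) + 1)) (V := q) (hm := by omega)
    all_goals simp [S, Lt, uu, vv, ru, rv]
    all_goals omega

theorem key211 {N r q t u : ℤ} (τ : Fin 3) (hr : 0 ≤ r) (h1 : r < q) (hq : q < N)
    (ht : 0 ≤ t) (ht' : t < N) (hu : 0 ≤ u) (hu' : u < N) :
    0 < Dt (uu N ![τ, τ, τ + 1, τ + 2] ![r, q, t, u]) (vv ![r, q, t, u]) N := by
  rcases fin3 τ with rfl | rfl | rfl
  all_goals
    apply Dt_pos (U := 0) (V := q) (hm := by omega)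
    all_goals simp [S, Lt, uu, vv, ru, rv]
    all_goals omega

theorem key22 {N r q t u : ℤ} (τ : Fin 3) (hr : 0 ≤ r) (h1 : r < q) (hq : q < N)
    (ht : 0 ≤ t) (h2 : t < u) (hu : u < N) :
    0 < Dt (uu N ![τ, τ, τ + 1, τ + 1] ![r, q, t, u]) (vv ![r, q, t, u]) N := by
  have hc : (r < N - 1 - u ∨ (r = N - 1 - u ∧ q ≤ u)) ∨
      (N - 1 - u < r ∨ (r = N - 1 - u ∧ u < q)) := by omega
  rcases hc with hc | hc
  · rcases fin3 τ with rfl | rfl | rfl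
    all_goals
      apply Dt_pos (U := -(2 * r + 1)) (V := u) (hm := by omega)
      all_goals simp [S, Lt, uu, vv, ru, rv]
      all_goals omega
  · rcases fin3 τ with rfl | rfl | rfl
    all_goals
      apply Dt_pos (U := -(2 * (N - 1 - u) + 1)) (V := q) (hm := by omega)
      all_goals simp [S, Lt, uu, vv, ru, rv]
      all_goals omega

theorem sgn31 {N r q s t : ℤ} (τ : Fin 3) (hr : 0 ≤ r) (h1 : r < q) (h2 : q < s) (hs : s < N)
    (ht : 0 ≤ t) (ht' : t < N) (h : r + s + t ≤ 2 * N - 2) :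
    ori (pt N τ r) (pt N τ q) (pt N τ s) (pt N (τ + 1) t) < 0 := by
  have h' := ori_neg (key31 τ hr h1 h2 hs ht ht' h)
  simpa only [Matrix.cons_val] using h'

theorem sgn31' {N r q s t : ℤ} (τ : Fin 3) (hr : 0 ≤ r) (h1 : r < q) (h2 : q < s) (hs : s < N)
    (ht : 0 ≤ t) (ht' : t < N) (h : 2 * N - 1 ≤ r + s + t) :
    0 < ori (pt N τ r) (pt N τ q) (pt N τ s) (pt N (τ + 1) t) := by
  have h' := ori_pos (key31' τ hr h1 h2 hs ht ht' h)
  simpa only [Matrix.cons_val] using h'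

theorem sgn32 {N r q s t : ℤ} (τ : Fin 3) (hr : 0 ≤ r) (h1 : r < q) (h2 : q < s) (hs : s < N)
    (ht : 0 ≤ t) (ht' : t < N) (h : r + s + t ≤ N - 2) :
    ori (pt N τ r) (pt N τ q) (pt N τ s) (pt N (τ + 2) t) < 0 := by
  have h' := ori_neg (key32 τ hr h1 h2 hs ht ht' h)
  simpa only [Matrix.cons_val] using h'

theorem sgn32' {N r q s t : ℤ} (τ : Fin 3) (hr : 0 ≤ r) (h1 : r < q) (h2 : q < s) (hs : s < N)
    (ht : 0 ≤ t) (ht' : t < N) (h : N - 1 ≤ r + s + t) :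
    0 < ori (pt N τ r) (pt N τ q) (pt N τ s) (pt N (τ + 2) t) := by
  have h' := ori_pos (key32' τ hr h1 h2 hs ht ht' h)
  simpa only [Matrix.cons_val] using h'

theorem sgn211 {N r q t u : ℤ} (τ : Fin 3) (hr : 0 ≤ r) (h1 : r < q) (hq : q < N)
    (ht : 0 ≤ t) (ht' : t < N) (hu : 0 ≤ u) (hu' : u < N) :
    0 < ori (pt N τ r) (pt N τ q) (pt N (τ + 1) t) (pt N (τ + 2) u) := by
  have h' := ori_pos (key211 τ hr h1 hq ht ht' hu hu')
  simpa only [Matrix.cons_val] using h'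

theorem sgn22 {N r q t u : ℤ} (τ : Fin 3) (hr : 0 ≤ r) (h1 : r < q) (hq : q < N)
    (ht : 0 ≤ t) (h2 : t < u) (hu : u < N) :
    0 < ori (pt N τ r) (pt N τ q) (pt N (τ + 1) t) (pt N (τ + 1) u) := by
  have h' := ori_pos (key22 τ hr h1 hq ht h2 hu)
  simpa only [Matrix.cons_val] using h'

end Pool.Agent.Lib.MP_4f1247_co.NN
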