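import Pool.Agent.Lib.MP_4f1247_co.NN.Lnk85

/-!
# Three needles: the sum form of the faces

The number of the vertex `(τ, r)` is `N τ + r`.  Three vertices form a face iff the sum of their
numbers is `-1` or `-2` modulo `3 N`.
-/

set_option autoImplicit false

namespace Pool.Agent.Lib.MP_4f1247_co.NN

open Finset

/-- the triples with sum `-1` or `-2` modulo `3 N` -/
def sf (N : ℕ) : Finset (Finset (Fin (3 * N))) :=
  univ.filter fun t => t.card = 3 ∧
    (((∑ i ∈ t, (i : ℕ)) + 1) % (3 * N) = 0 ∨ ((∑ i ∈ t, (i : ℕ)) + 2) % (3 * N) = 0)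

/-- the vertex with the number `i` -/
def vtx (N : ℕ) : Fin (3 * N) ≃ V N := finProdFinEquiv.symm

theorem vtx_val {N : ℕ} (i : Fin (3 * N)) :
    (i : ℕ) = ((vtx N i).2 : ℕ) + N * ((vtx N i).1 : ℕ) := by
  have h : finProdFinEquiv (vtx N i) = i := Equiv.apply_symm_apply _ i
  conv_lhs => rw [← h]
  rw [finProdFinEquiv_apply_val]

theorem mod_l {N A k c : ℕ} (h0 : 0 < A + c) (h1 : A + c < 3 * N) :
    (A + N * k + c) % (3 * N) = 0 ↔ (k % 3 = 1 ∧ A + c = 2 * N) ∨ (k % 3 = 2 ∧ A + c = N) := by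
  obtain ⟨m, i, hi, rfl⟩ : ∃ m i, i < 3 ∧ k = 3 * m + i :=
    ⟨k / 3, k % 3, Nat.mod_lt _ (by norm_num), (Nat.div_add_mod k 3).symm⟩
  have e : A + N * (3 * m + i) + c = (A + c + N * i) + 3 * N * m := by ring
  rw [e, Nat.add_mul_mod_self_left]
  have hk : (3 * m + i) % 3 = i := by omega
  rw [hk]
  interval_cases i
  · rw [Nat.mul_zero, Nat.add_zero, Nat.mod_eq_of_lt h1]
    omega
  · rw [Nat.mul_one]
    by_cases h : A + c + N < 3 * N
    · rw [Nat.mod_eq_of_lt h]
      omega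
    · have e2 : A + c + N = (A + c + N - 3 * N) + 3 * N := by omega
      rw [e2, Nat.add_mod_right, Nat.mod_eq_of_lt (by omega)]
      omega
  · by_cases h : A + c + N * 2 < 3 * N
    · rw [Nat.mod_eq_of_lt h]
      omega
    · have e2 : A + c + N * 2 = (A + c + N * 2 - 3 * N) + 3 * N := by omega
      rw [e2, Nat.add_mod_right, Nat.mod_eq_of_lt (by omega)]
      omega

theorem sum_iff {N : ℕ} {x y z : V N} (hxy : x ≠ y) (hxz : x ≠ z) (hyz : y ≠ z) :
    ((((x.2 : ℕ) + N * (x.1 : ℕ) + ((y.2 : ℕ) + N * (y.1 : ℕ)) + ((z.2 : ℕ) + N * (z.1 : ℕ)) + 1)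
        % (3 * N) = 0 ∨
      ((x.2 : ℕ) + N * (x.1 : ℕ) + ((y.2 : ℕ) + N * (y.1 : ℕ)) + ((z.2 : ℕ) + N * (z.1 : ℕ)) + 2)
        % (3 * N) = 0)) ↔ (D N x y z ∨ D N y z x ∨ D N z x y) := by
  obtain ⟨α, r, hr⟩ := x
  obtain ⟨β, s, hs⟩ := y
  obtain ⟨γ, t, ht⟩ := z
  have e : ∀ c, r + N * (α : ℕ) + (s + N * (β : ℕ)) + (t + N * (γ : ℕ)) + c =
      (r + s + t) + N * ((α : ℕ) + β + γ) + c := by
    intro c
    ring
  simp only [ne_eq, Prod.mk.injEq, Fin.mk.injEq] at hxy hxz hyz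
  simp only [D, ne_eq, Fin.mk.injEq]
  rw [e 1, e 2, mod_l (by omega) (by omega), mod_l (by omega) (by omega)]
  rcases fin3' α with rfl | rfl | rfl <;> rcases fin3' β with rfl | rfl | rfl <;>
    rcases fin3' γ with rfl | rfl | rfl <;> simp at hxy hxz hyz ⊢ <;> omega

/-- **Transfer.** -/
theorem mem_sf {N : ℕ} (t : Finset (Fin (3 * N))) :
    t ∈ sf N ↔ t.map (vtx N).toEmbedding ∈ T N := by
  constructor
  · intro h
    rw [sf, mem_filter] at h
    obtain ⟨-, h3, h⟩ := h
    obtain ⟨i, j, k, hij, hik, hjk, rfl⟩ := card_eq_three.1 h3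
    have hs : ∑ l ∈ ({i, j, k} : Finset (Fin (3 * N))), (l : ℕ) = (i : ℕ) + j + k := by
      rw [sum_insert (by simp [hij, hik]), sum_pair hjk]
      ring
    rw [hs, vtx_val i, vtx_val j, vtx_val k,
      sum_iff ((vtx N).injective.ne hij) ((vtx N).injective.ne hik) ((vtx N).injective.ne hjk)] at h
    rw [map_insert, map_insert, map_singleton]
    exact (mem_T ((vtx N).injective.ne hij) ((vtx N).injective.ne hik)
      ((vtx N).injective.ne hjk)).2 h
  · intro h
    have h3 := card_T h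
    rw [card_map] at h3
    rw [sf, mem_filter]
    refine ⟨mem_univ _, h3, ?_⟩
    obtain ⟨i, j, k, hij, hik, hjk, rfl⟩ := card_eq_three.1 h3
    have hs : ∑ l ∈ ({i, j, k} : Finset (Fin (3 * N))), (l : ℕ) = (i : ℕ) + j + k := by
      rw [sum_insert (by simp [hij, hik]), sum_pair hjk]
      ring
    rw [map_insert, map_insert, map_singleton] at h
    rw [hs, vtx_val i, vtx_val j, vtx_val k,
      sum_iff ((vtx N).injective.ne hij) ((vtx N).injective.ne hik) ((vtx N).injective.ne hjk)]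
    exact (mem_T ((vtx N).injective.ne hij) ((vtx N).injective.ne hik)
      ((vtx N).injective.ne hjk)).1 h

/-- the number of faces in the sum form -/
theorem card_sf (N : ℕ) : (sf N).card = 3 * N * (N - 1) := by
  rw [← card_T_eq N]
  apply card_bij (fun t _ => t.map (vtx N).toEmbedding)
  · intro t ht
    exact (mem_sf t).1 ht
  · intro t _ s _ h
    exact map_injective _ h
  · intro F hF
    refine ⟨F.map (vtx N).symm.toEmbedding, ?_, ?_⟩
    · rw [mem_sf, map_map]
      convert hF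
      ext x
      simp
    · rw [map_map]
      ext x
      simp

/-- the links in the sum form -/
theorem links_sf {N : ℕ} (v : Fin (3 * N)) : PathAt (3 * N) (sf N) v := by
  obtain ⟨s, h0, h1, h⟩ := links (vtx N v)
  refine ⟨(vtx N).trans s, h0, h1, fun x y hx hy => ?_⟩
  rw [mem_sf, map_insert, map_insert, map_singleton]
  exact h _ _ ((vtx N).injective.ne hx) ((vtx N).injective.ne hy)

end Pool.Agent.Lib.MP_4f1247_co.NN
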