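import Pool.Agent.Lib.MP_4f1247_co.NN.Geo14
import Pool.Agent.Lib.MP_4f1247_co.NN.Geo46
import Pool.Agent.Lib.MP_4f1247_co.NN.Sgn94
import Pool.Agent.Lib.MP_4f1247_co.NN.Lnk85
import Pool.Agent.Lib.MP_4f1247_co.NN.Pts94
import Pool.Agent.Lib.MP_4f1247_co.NN.Tr57

/-!
# Nearly neighborly systems: assembly
-/

set_option autoImplicit false

namespace Pool.Agent.Lib.MP_4f1247_co.NN

open Finset

/-- freeness moved by an injection -/
theorem free_comp {α β : Type*} [DecidableEq α] [DecidableEq β] {p : β → E} (f : α ↪ β)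
    {t : Finset α} (h : Free p (t.map f)) : Free (fun i => p (f i)) t := by
  intro a b u v w ht huv huw hvw ha hb hab
  refine h (f a) (f b) (f u) (f v) (f w) ?_ ?_ ?_ ?_ ?_ ?_ ?_
  · rw [ht]
    simp
  · exact fun h => huv (f.injective h)
  · exact fun h => huw (f.injective h)
  · exact fun h => hvw (f.injective h)
  · rw [Finset.mem_map' f]
    exact ha
  · rw [Finset.mem_map' f]
    exact hb
  · exact fun h => hab (f.injective h)

/-- **Assembly**: the final statement from general position (`hgen`) and freeness of the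
faces (`hnc`). -/
theorem final_of (N : ℕ) (hN : 2 ≤ N) (hgen : GP (q N)) (hnc : ∀ t ∈ T N, Free (q N) t) :
    ∃ p : Fin (3 * N) → E,
      (∀ s : Finset (Fin (3 * N)), s.card ≤ 4 →
        AffineIndependent ℝ (fun x : {i // i ∈ s} => p x.1)) ∧
      (∀ t ∈ sf N, ∀ s : Finset (Fin (3 * N)), (s ∈ sf N ∨ s.card ≤ 2) →
        convexHull ℝ (p '' (t : Set (Fin (3 * N)))) ∩ convexHull ℝ (p '' (s : Set (Fin (3 * N)))) =
          convexHull ℝ (p '' ((t ∩ s : Finset (Fin (3 * N))) : Set (Fin (3 * N))))) ∧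
      (sf N).card = 3 * N * (N - 1) ∧
      ∀ v : Fin (3 * N), ∃ e : Equiv.Perm (Fin (3 * N)), 0 < (e v : ℕ) ∧ (e v : ℕ) + 1 < 3 * N ∧
        ∀ x y : Fin (3 * N), x ≠ v → y ≠ v →
          (({v, x, y} : Finset (Fin (3 * N))) ∈ sf N ↔
            (e x : ℕ) + 1 = e y ∨ (e y : ℕ) + 1 = e x) := by
  have hgp : GP (fun i => q N (vtx N i)) := by
    intro a b c d hab hac had hbc hbd hcd
    exact hgen _ _ _ _ ((vtx N).injective.ne hab) ((vtx N).injective.ne hac)
      ((vtx N).injective.ne had) ((vtx N).injective.ne hbc) ((vtx N).injective.ne hbd)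
      ((vtx N).injective.ne hcd)
  have hcard : 4 ≤ (Finset.univ : Finset (Fin (3 * N))).card := by
    rw [Finset.card_fin]
    omega
  have hG : Gen (fun i => q N (vtx N i)) Finset.univ := by
    intro a _ b _ c _ d _
    exact hgp a b c d
  refine ⟨fun i => q N (vtx N i), ?_, ?_, card_sf N, fun v => links_sf v⟩
  · intro s hs
    exact affInd_of_gen _ Finset.univ s hG hcard (Finset.subset_univ s) hs
  · intro t ht s hs
    have hinj : Function.Injective (fun i => q N (vtx N i)) := by
      intro x y hxy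
      exact Geo46.inj_of_gen hG hcard (Finset.mem_univ x) (Finset.mem_univ y) hxy
    have hfree : ∀ t ∈ sf N, Free (fun i => q N (vtx N i)) t := fun t ht =>
      free_comp (vtx N).toEmbedding (hnc _ ((mem_sf t).1 ht))
    have h3 : ∀ t ∈ sf N, t.card = 3 := fun t ht => (Finset.mem_filter.1 ht).2.1
    refine meet hgp (by simpa using (by omega : 4 ≤ 3 * N)) hinj (h3 t ht) (hfree t ht) ?_
    rcases hs with hs | hs
    · exact Or.inr ⟨h3 s hs, hfree s hs⟩
    · exact Or.inl hs

end Pool.Agent.Lib.MP_4f1247_co.NN
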