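import Pool.Agent.Lib.MP_4f1247_co.NN.Sgn94
import Pool.Agent.Lib.MP_4f1247_co.NN.Pts94
import Pool.Agent.Lib.MP_4f1247_co.NN.Geo14

/-!
# Three needles: four different points are never coplanar
-/

set_option autoImplicit false

namespace Pool.Agent.Lib.MP_4f1247_co.NN

/-- A property of four different elements which is invariant under the swaps of neighbours holds if
it holds for elements sorted by `k`. -/
theorem sort4_25 {α : Type*} (k : α → ℕ) (hk : Function.Injective k)
    (P : α → α → α → α → Prop) (h12 : ∀ a b c d, P b a c d → P a b c d)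
    (h23 : ∀ a b c d, P a c b d → P a b c d) (h34 : ∀ a b c d, P a b d c → P a b c d)
    (hs : ∀ a b c d, k a < k b → k b < k c → k c < k d → P a b c d) :
    ∀ a b c d, a ≠ b → a ≠ c → a ≠ d → b ≠ c → b ≠ d → c ≠ d → P a b c d := by
  have tri : ∀ {x y : α}, x ≠ y → k x < k y ∨ k y < k x := fun {x y} h =>
    lt_or_gt_of_ne (fun h' => h (hk h'))
  have s3 : ∀ a b c d, k a < k b → k b < k c → a ≠ d → b ≠ d → c ≠ d → P a b c d := by
    intro a b c d h1 h2 had hbd hcd
    rcases tri hcd with h | h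
    · exact hs a b c d h1 h2 h
    · apply h34
      rcases tri hbd with h' | h'
      · exact hs a b d c h1 h' h
      · apply h23
        rcases tri had with h'' | h''
        · exact hs a d b c h'' h' h2
        · apply h12
          exact hs d a b c h'' h1 h2
  have s2 : ∀ a b c d, k a < k b → a ≠ c → a ≠ d → b ≠ c → b ≠ d → c ≠ d → P a b c d := by
    intro a b c d h1 hac had hbc hbd hcd
    rcases tri hbc with h | h
    · exact s3 a b c d h1 h had hbd hcd
    · apply h23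
      rcases tri hac with h' | h'
      · exact s3 a c b d h' h had hcd hbd
      · apply h12
        exact s3 c a b d h' h1 hcd had hbd
  intro a b c d hab hac had hbc hbd hcd
  rcases tri hab with h | h
  · exact s2 a b c d h hac had hbc hbd hcd
  · apply h12
    exact s2 b a c d h hbc hbd hac had hcd

/-- the number of a vertex -/
def key25 (N : ℕ) (v : V N) : ℕ := (v.1 : ℕ) * N + v.2

theorem key25_lt {N : ℕ} {v w : V N} (h : key25 N v < key25 N w) :
    (v.1 : ℕ) < w.1 ∨ ((v.1 : ℕ) = w.1 ∧ (v.2 : ℕ) < w.2) := by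
  unfold key25 at h
  have hv := v.2.isLt
  have hw := w.2.isLt
  by_contra hcon
  push Not at hcon
  obtain ⟨h1, h2⟩ := hcon
  rcases Nat.lt_or_ge (w.1 : ℕ) (v.1 : ℕ) with h3 | h3
  · have h4 : ((w.1 : ℕ) + 1) * N ≤ (v.1 : ℕ) * N := Nat.mul_le_mul_right N h3
    rw [Nat.add_mul] at h4
    omega
  · have h4 : (v.1 : ℕ) = w.1 := by omega
    have h5 := h2 h4
    rw [h4] at h
    omega

theorem key25_inj (N : ℕ) : Function.Injective (key25 N) := by
  intro v w h
  have hv := v.2.isLt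
  have hw := w.2.isLt
  unfold key25 at h
  have h1 : (v.1 : ℕ) = w.1 := by
    rcases lt_trichotomy (v.1 : ℕ) (w.1 : ℕ) with h3 | h3 | h3
    · have h4 : ((v.1 : ℕ) + 1) * N ≤ (w.1 : ℕ) * N := Nat.mul_le_mul_right N h3
      rw [Nat.add_mul] at h4
      omega
    · exact h3
    · have h4 : ((w.1 : ℕ) + 1) * N ≤ (v.1 : ℕ) * N := Nat.mul_le_mul_right N h3
      rw [Nat.add_mul] at h4
      omega
  rw [h1] at h
  exact Prod.ext (Fin.ext h1) (Fin.ext (by omega))

/-- The needles of four sorted vertices. -/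
theorem pat_25 : ∀ t₁ t₂ t₃ t₄ : Fin 3, t₁ ≤ t₂ → t₂ ≤ t₃ → t₃ ≤ t₄ →
    (t₂ = t₁ ∧ t₃ = t₁ ∧ t₄ = t₁) ∨ (t₂ = t₁ ∧ t₃ = t₁ ∧ t₄ = t₁ + 1) ∨
      (t₂ = t₁ ∧ t₃ = t₁ ∧ t₄ = t₁ + 2) ∨ (t₃ = t₂ ∧ t₄ = t₂ ∧ t₁ = t₂ + 1) ∨
      (t₃ = t₂ ∧ t₄ = t₂ ∧ t₁ = t₂ + 2) ∨ (t₂ = t₁ ∧ t₃ = t₁ + 1 ∧ t₄ = t₁ + 1) ∨
      (t₄ = t₃ ∧ t₁ = t₃ + 1 ∧ t₂ = t₃ + 1) ∨ (t₂ = t₁ ∧ t₃ = t₁ + 1 ∧ t₄ = t₁ + 2) ∨
      (t₃ = t₂ ∧ t₄ = t₂ + 1 ∧ t₁ = t₂ + 2) ∨ (t₄ = t₃ ∧ t₁ = t₃ + 1 ∧ t₂ = t₃ + 2) := by
  decide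

theorem rot1_25 {x y z w : E} (h : ori y z w x ≠ 0) : ori x y z w ≠ 0 := by
  intro h'
  apply h
  rw [ori_34, ori_23, ori_12, h']
  simp

theorem rot2_25 {x y z w : E} (h : ori z w x y ≠ 0) : ori x y z w ≠ 0 := rot1_25 (rot1_25 h)

/-- Four different points are not coplanar. -/
theorem gen_25 (N : ℕ) : ∀ a b c d : V N, a ≠ b → a ≠ c → a ≠ d → b ≠ c → b ≠ d → c ≠ d →
    ori (q N a) (q N b) (q N c) (q N d) ≠ 0 := by
  apply sort4_25 (key25 N) (key25_inj N)
  · intro a b c d h h'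
    rw [ori_12] at h'
    exact h (neg_eq_zero.1 h')
  · intro a b c d h h'
    rw [ori_23] at h'
    exact h (neg_eq_zero.1 h')
  · intro a b c d h h'
    rw [ori_34] at h'
    exact h (neg_eq_zero.1 h')
  · rintro ⟨t₁, a⟩ ⟨t₂, b⟩ ⟨t₃, c⟩ ⟨t₄, d⟩ hab hbc hcd
    have h1 := key25_lt hab
    have h2 := key25_lt hbc
    have h3 := key25_lt hcd
    simp only at h1 h2 h3
    have ha := a.isLt
    have hb := b.isLt
    have hc := c.isLt
    have hd := d.isLt
    have e1 : t₁ ≤ t₂ := Fin.le_iff_val_le_val.2 (by omega)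
    have e2 : t₂ ≤ t₃ := Fin.le_iff_val_le_val.2 (by omega)
    have e3 : t₃ ≤ t₄ := Fin.le_iff_val_le_val.2 (by omega)
    have o12 : t₂ = t₁ → (a : ℕ) < b := fun h => by rw [h] at h1; omega
    have o23 : t₃ = t₂ → (b : ℕ) < c := fun h => by rw [h] at h2; omega
    have o34 : t₄ = t₃ → (c : ℕ) < d := fun h => by rw [h] at h3; omega
    clear hab hbc hcd h1 h2 h3
    change ori (pt (N : ℤ) t₁ ((a : ℕ) : ℤ)) (pt (N : ℤ) t₂ ((b : ℕ) : ℤ))
      (pt (N : ℤ) t₃ ((c : ℕ) : ℤ)) (pt (N : ℤ) t₄ ((d : ℕ) : ℤ)) ≠ 0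
    rcases pat_25 t₁ t₂ t₃ t₄ e1 e2 e3 with ⟨h4, h5, h6⟩ | ⟨h4, h5, h6⟩ | ⟨h4, h5, h6⟩ |
      ⟨h4, h5, h6⟩ | ⟨h4, h5, h6⟩ | ⟨h4, h5, h6⟩ | ⟨h4, h5, h6⟩ | ⟨h4, h5, h6⟩ |
      ⟨h4, h5, h6⟩ | ⟨h4, h5, h6⟩ <;> clear e1 e2 e3 <;> subst h4 h5 h6
    · have := o12 rfl
      have := o23 rfl
      have := o34 rfl
      exact (sgn4 _ (by omega) (by omega) (by omega) (by omega) (by omega)).ne
    · have := o12 rfl
      have := o23 rfl
      rcases le_or_gt ((a : ℤ) + c + d) (2 * N - 2) with h | h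
      · exact (sgn31 _ (by omega) (by omega) (by omega) (by omega) (by omega) (by omega) h).ne
      · exact (sgn31' _ (by omega) (by omega) (by omega) (by omega) (by omega) (by omega)
          (by omega)).ne'
    · have := o12 rfl
      have := o23 rfl
      rcases le_or_gt ((a : ℤ) + c + d) (N - 2) with h | h
      · exact (sgn32 _ (by omega) (by omega) (by omega) (by omega) (by omega) (by omega) h).ne
      · exact (sgn32' _ (by omega) (by omega) (by omega) (by omega) (by omega) (by omega)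
          (by omega)).ne'
    · have := o23 rfl
      have := o34 rfl
      apply rot1_25
      rcases le_or_gt ((b : ℤ) + d + a) (2 * N - 2) with h | h
      · exact (sgn31 _ (by omega) (by omega) (by omega) (by omega) (by omega) (by omega) h).ne
      · exact (sgn31' _ (by omega) (by omega) (by omega) (by omega) (by omega) (by omega)
          (by omega)).ne'
    · have := o23 rfl
      have := o34 rfl
      apply rot1_25
      rcases le_or_gt ((b : ℤ) + d + a) (N - 2) with h | h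
      · exact (sgn32 _ (by omega) (by omega) (by omega) (by omega) (by omega) (by omega) h).ne
      · exact (sgn32' _ (by omega) (by omega) (by omega) (by omega) (by omega) (by omega)
          (by omega)).ne'
    · have := o12 rfl
      have := o34 rfl
      exact (sgn22 _ (by omega) (by omega) (by omega) (by omega) (by omega) (by omega)).ne'
    · have := o12 rfl
      have := o34 rfl
      apply rot2_25
      exact (sgn22 _ (by omega) (by omega) (by omega) (by omega) (by omega) (by omega)).ne'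
    · have := o12 rfl
      exact (sgn211 _ (by omega) (by omega) (by omega) (by omega) (by omega) (by omega)
        (by omega)).ne'
    · have := o23 rfl
      apply rot1_25
      exact (sgn211 _ (by omega) (by omega) (by omega) (by omega) (by omega) (by omega)
        (by omega)).ne'
    · have := o34 rfl
      apply rot2_25
      exact (sgn211 _ (by omega) (by omega) (by omega) (by omega) (by omega) (by omega)
        (by omega)).ne'

/-- The points are in general position. -/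
theorem gp_25 (N : ℕ) : GP (q N) := gen_25 N

end Pool.Agent.Lib.MP_4f1247_co.NN
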