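import Mathlib

/-!
# The links of the nearly neighborly system

The vertices are `(τ, r)`, `τ` modulo 3, `0 ≤ r < N`.  The faces are `{(τ, r), (τ, s), (τ + 1, t)}`
with `r ≠ s`, `r + s + t` one of `2 N - 2`, `2 N - 1`, and `{(τ, r), (τ, s), (τ + 2, t)}` with
`r ≠ s`, `r + s + t` one of `N - 2`, `N - 1`.
The link of a vertex is a path through all vertices from which the vertex itself is taken out.
-/

set_option autoImplicit false

namespace Pool.Agent.Lib.MP_4f1247_co.NN.L57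

/-- the vertices -/
abbrev V (N : ℕ) : Type := Fin 3 × Fin N

/-- two vertices of one class and the third in the next class -/
def FaceU (N : ℕ) (x y z : V N) : Prop :=
  x.1 = y.1 ∧ z.1 = x.1 + 1 ∧ x.2 ≠ y.2 ∧
    ((x.2 : ℕ) + y.2 + z.2 + 2 = 2 * N ∨ (x.2 : ℕ) + y.2 + z.2 + 1 = 2 * N)

/-- two vertices of one class and the third in the class after the next -/
def FaceD (N : ℕ) (x y z : V N) : Prop :=
  x.1 = y.1 ∧ z.1 = x.1 + 2 ∧ x.2 ≠ y.2 ∧
    ((x.2 : ℕ) + y.2 + z.2 + 2 = N ∨ (x.2 : ℕ) + y.2 + z.2 + 1 = N)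

/-- the third vertex comes last -/
def Face0 (N : ℕ) (x y z : V N) : Prop := FaceU N x y z ∨ FaceD N x y z

/-- the faces, in any order -/
def Face (N : ℕ) (x y z : V N) : Prop := Face0 N x y z ∨ Face0 N y z x ∨ Face0 N z x y

/-- the position of the point `a` of the class `δ` after that of `r` on the path of `r` -/
def posf (N r : ℤ) (δ : Fin 3) (a : ℤ) : ℤ :=
  match δ with
  | 0 => (N - 1 - r) + 1 + 2 * (N - 1 - a)
  | 1 => if a ≤ N - 1 - r then (N - 1 - r) - min (2 * ((N - 1 - r) - a)) (2 * a + 1)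
      else 2 * a - (N - 1 - r)
  | 2 => if a ≤ N - 1 - r then (N - 1 - r) + 2 * r + 2 + 2 * a
      else 3 * (N - 1 - r) + 2 * r + 2 + min (2 * (a - (N - 1 - r))) (2 * (N - 1 - a) + 1)

/-- the position of `x` on the path of `v` -/
def pos (N : ℕ) (v x : V N) : ℤ := posf N v.2 (x.1 - v.1) x.2

theorem pos_self (N : ℕ) (v : V N) : pos N v v = 3 * ((N : ℤ) - 1 - v.2) + 1 := by
  unfold pos
  rw [sub_self]
  simp only [posf]
  ring

theorem pos_nonneg (N : ℕ) (v x : V N) : 0 ≤ pos N v x := by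
  obtain ⟨τ, r, hr⟩ := v
  obtain ⟨σ, a, ha⟩ := x
  unfold pos
  generalize σ - τ = δ
  fin_cases δ <;> simp only [posf] <;> (try split_ifs) <;> omega

theorem pos_lt (N : ℕ) (v x : V N) : pos N v x < 3 * N := by
  obtain ⟨τ, r, hr⟩ := v
  obtain ⟨σ, a, ha⟩ := x
  unfold pos
  generalize σ - τ = δ
  fin_cases δ <;> simp only [posf] <;> (try split_ifs) <;> omega

theorem posf_inj {N r a b : ℤ} {δ ε : Fin 3} (_hr : 0 ≤ r) (hr' : r < N) (ha : 0 ≤ a) (ha' : a < N)
    (hb : 0 ≤ b) (hb' : b < N) (h : posf N r δ a = posf N r ε b) : δ = ε ∧ a = b := by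
  fin_cases δ <;> fin_cases ε <;> simp only [posf] at h <;> (try split_ifs at h) <;>
    first
    | (refine ⟨rfl, ?_⟩; omega)
    | (exfalso; omega)

theorem pos_inj (N : ℕ) (v : V N) {x y : V N} (h : pos N v x = pos N v y) : x = y := by
  obtain ⟨τ, r, hr⟩ := v
  obtain ⟨σ, a, ha⟩ := x
  obtain ⟨σ', b, hb⟩ := y
  unfold pos at h
  obtain ⟨h1, h2⟩ := posf_inj (by positivity) (by exact_mod_cast hr) (by positivity)
    (by exact_mod_cast ha) (by positivity) (by exact_mod_cast hb) h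
  have h3 : σ = σ' := by
    simpa using h1
  have h4 : a = b := by exact_mod_cast h2
  subst h3
  subst h4
  rfl

/-- **The links.** -/
theorem face_iff (N : ℕ) (v x y : V N) : Face N v x y ↔
    x ≠ v ∧ y ≠ v ∧ (pos N v x = pos N v y + 1 ∨ pos N v y = pos N v x + 1) := by
  obtain ⟨τ, r, hr⟩ := v
  obtain ⟨σ, a, ha⟩ := x
  obtain ⟨σ', b, hb⟩ := y
  simp only [Face, Face0, FaceU, FaceD, pos, ne_eq, Prod.mk.injEq, Fin.mk.injEq]
  have f3 : ∀ τ : Fin 3, τ = 0 ∨ τ = 1 ∨ τ = 2 := by omega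
  rcases f3 τ with rfl | rfl | rfl <;> rcases f3 σ with rfl | rfl | rfl <;>
    rcases f3 σ' with rfl | rfl | rfl <;>
    simp only [Fin.reduceSub, Fin.reduceAdd, Fin.reduceEq, Fin.isValue, posf, true_and, false_and,
      and_false, or_false, false_or, not_false_iff, false_iff] <;>
    (try split_ifs) <;> omega

end Pool.Agent.Lib.MP_4f1247_co.NN.L57
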