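import Pool.Agent.Lib.MP_4f1247_co.NN.Sgn94

/-!
# Three needles: no segment meets a face

The faces are `(τ, r), (τ, s), X` with `X = (τ + 1, t)`, `r + s + t = 2 N - 2, 2 N - 1`, or
`X = (τ + 2, t)`, `r + s + t = N - 2, N - 1`.
-/

set_option autoImplicit false

namespace Pool.Agent.Lib.MP_4f1247_co.NN

/-- the open segment `ab` meets the open triangle `cde` -/
def Pc (a b c d e : E) : Prop :=
  (0 < ori b c d e ∧ ori a c d e < 0 ∧ ori a b d e < 0 ∧ 0 < ori a b c e ∧ ori a b c d < 0) ∨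
  (ori b c d e < 0 ∧ 0 < ori a c d e ∧ 0 < ori a b d e ∧ ori a b c e < 0 ∧ 0 < ori a b c d)

/-- the signs of an affine dependence: two signs of one kind, three of the other kind -/
def Pt (l₁ l₂ l₃ l₄ l₅ : ℝ) : Prop :=
  (0 < l₁ ∧ 0 < l₂ ∧ l₃ < 0 ∧ l₄ < 0 ∧ l₅ < 0) ∨ (l₁ < 0 ∧ l₂ < 0 ∧ 0 < l₃ ∧ 0 < l₄ ∧ 0 < l₅)

theorem pr12 {v1 v2 v3 v4 v5 : E} (h : Pc v1 v2 v3 v4 v5) :
    Pt (ori v2 v3 v4 v5) (-ori v1 v3 v4 v5) (ori v1 v2 v4 v5)
      (-ori v1 v2 v3 v5) (ori v1 v2 v3 v4) := by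
  rcases h with ⟨h1, h2, h3, h4, h5⟩ | ⟨h1, h2, h3, h4, h5⟩
  · exact Or.inl ⟨by linarith, by linarith, by linarith, by linarith, by linarith⟩
  · exact Or.inr ⟨by linarith, by linarith, by linarith, by linarith, by linarith⟩

theorem pr13 {v1 v2 v3 v4 v5 : E} (h : Pc v1 v3 v2 v4 v5) :
    Pt (ori v2 v3 v4 v5) (ori v1 v2 v4 v5) (-ori v1 v3 v4 v5)
      (-ori v1 v2 v3 v5) (ori v1 v2 v3 v4) := by
  have e1 : ori v3 v2 v4 v5 = -ori v2 v3 v4 v5 := by unfold ori; ring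
  have e4 : ori v1 v3 v2 v5 = -ori v1 v2 v3 v5 := by unfold ori; ring
  have e5 : ori v1 v3 v2 v4 = -ori v1 v2 v3 v4 := by unfold ori; ring
  rcases h with ⟨h1, h2, h3, h4, h5⟩ | ⟨h1, h2, h3, h4, h5⟩
  · exact Or.inr ⟨by linarith, by linarith, by linarith, by linarith, by linarith⟩
  · exact Or.inl ⟨by linarith, by linarith, by linarith, by linarith, by linarith⟩

theorem pr14 {v1 v2 v3 v4 v5 : E} (h : Pc v1 v4 v2 v3 v5) :
    Pt (ori v2 v3 v4 v5) (-ori v1 v2 v3 v5) (-ori v1 v3 v4 v5)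
      (ori v1 v2 v4 v5) (ori v1 v2 v3 v4) := by
  have e1 : ori v4 v2 v3 v5 = ori v2 v3 v4 v5 := by unfold ori; ring
  have e3 : ori v1 v4 v3 v5 = -ori v1 v3 v4 v5 := by unfold ori; ring
  have e4 : ori v1 v4 v2 v5 = -ori v1 v2 v4 v5 := by unfold ori; ring
  have e5 : ori v1 v4 v2 v3 = ori v1 v2 v3 v4 := by unfold ori; ring
  rcases h with ⟨h1, h2, h3, h4, h5⟩ | ⟨h1, h2, h3, h4, h5⟩
  · exact Or.inl ⟨by linarith, by linarith, by linarith, by linarith, by linarith⟩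
  · exact Or.inr ⟨by linarith, by linarith, by linarith, by linarith, by linarith⟩

theorem pr15 {v1 v2 v3 v4 v5 : E} (h : Pc v1 v5 v2 v3 v4) :
    Pt (ori v2 v3 v4 v5) (ori v1 v2 v3 v4) (-ori v1 v3 v4 v5)
      (ori v1 v2 v4 v5) (-ori v1 v2 v3 v5) := by
  have e1 : ori v5 v2 v3 v4 = -ori v2 v3 v4 v5 := by unfold ori; ring
  have e3 : ori v1 v5 v3 v4 = ori v1 v3 v4 v5 := by unfold ori; ring
  have e4 : ori v1 v5 v2 v4 = ori v1 v2 v4 v5 := by unfold ori; ring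
  have e5 : ori v1 v5 v2 v3 = ori v1 v2 v3 v5 := by unfold ori; ring
  rcases h with ⟨h1, h2, h3, h4, h5⟩ | ⟨h1, h2, h3, h4, h5⟩
  · exact Or.inr ⟨by linarith, by linarith, by linarith, by linarith, by linarith⟩
  · exact Or.inl ⟨by linarith, by linarith, by linarith, by linarith, by linarith⟩

theorem pr23 {v1 v2 v3 v4 v5 : E} (h : Pc v2 v3 v1 v4 v5) :
    Pt (-ori v1 v3 v4 v5) (ori v1 v2 v4 v5) (ori v2 v3 v4 v5)
      (-ori v1 v2 v3 v5) (ori v1 v2 v3 v4) := by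
  have e1 : ori v3 v1 v4 v5 = -ori v1 v3 v4 v5 := by unfold ori; ring
  have e2 : ori v2 v1 v4 v5 = -ori v1 v2 v4 v5 := by unfold ori; ring
  have e4 : ori v2 v3 v1 v5 = ori v1 v2 v3 v5 := by unfold ori; ring
  have e5 : ori v2 v3 v1 v4 = ori v1 v2 v3 v4 := by unfold ori; ring
  rcases h with ⟨h1, h2, h3, h4, h5⟩ | ⟨h1, h2, h3, h4, h5⟩
  · exact Or.inl ⟨by linarith, by linarith, by linarith, by linarith, by linarith⟩
  · exact Or.inr ⟨by linarith, by linarith, by linarith, by linarith, by linarith⟩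

theorem pr24 {v1 v2 v3 v4 v5 : E} (h : Pc v2 v4 v1 v3 v5) :
    Pt (-ori v1 v3 v4 v5) (-ori v1 v2 v3 v5) (ori v2 v3 v4 v5)
      (ori v1 v2 v4 v5) (ori v1 v2 v3 v4) := by
  have e1 : ori v4 v1 v3 v5 = ori v1 v3 v4 v5 := by unfold ori; ring
  have e2 : ori v2 v1 v3 v5 = -ori v1 v2 v3 v5 := by unfold ori; ring
  have e3 : ori v2 v4 v3 v5 = -ori v2 v3 v4 v5 := by unfold ori; ring
  have e4 : ori v2 v4 v1 v5 = ori v1 v2 v4 v5 := by unfold ori; ring
  have e5 : ori v2 v4 v1 v3 = -ori v1 v2 v3 v4 := by unfold ori; ring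
  rcases h with ⟨h1, h2, h3, h4, h5⟩ | ⟨h1, h2, h3, h4, h5⟩
  · exact Or.inr ⟨by linarith, by linarith, by linarith, by linarith, by linarith⟩
  · exact Or.inl ⟨by linarith, by linarith, by linarith, by linarith, by linarith⟩

theorem pr25 {v1 v2 v3 v4 v5 : E} (h : Pc v2 v5 v1 v3 v4) :
    Pt (-ori v1 v3 v4 v5) (ori v1 v2 v3 v4) (ori v2 v3 v4 v5)
      (ori v1 v2 v4 v5) (-ori v1 v2 v3 v5) := by
  have e1 : ori v5 v1 v3 v4 = -ori v1 v3 v4 v5 := by unfold ori; ring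
  have e2 : ori v2 v1 v3 v4 = -ori v1 v2 v3 v4 := by unfold ori; ring
  have e3 : ori v2 v5 v3 v4 = ori v2 v3 v4 v5 := by unfold ori; ring
  have e4 : ori v2 v5 v1 v4 = -ori v1 v2 v4 v5 := by unfold ori; ring
  have e5 : ori v2 v5 v1 v3 = -ori v1 v2 v3 v5 := by unfold ori; ring
  rcases h with ⟨h1, h2, h3, h4, h5⟩ | ⟨h1, h2, h3, h4, h5⟩
  · exact Or.inl ⟨by linarith, by linarith, by linarith, by linarith, by linarith⟩
  · exact Or.inr ⟨by linarith, by linarith, by linarith, by linarith, by linarith⟩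

theorem pr34 {v1 v2 v3 v4 v5 : E} (h : Pc v3 v4 v1 v2 v5) :
    Pt (ori v1 v2 v4 v5) (-ori v1 v2 v3 v5) (ori v2 v3 v4 v5)
      (-ori v1 v3 v4 v5) (ori v1 v2 v3 v4) := by
  have e1 : ori v4 v1 v2 v5 = ori v1 v2 v4 v5 := by unfold ori; ring
  have e2 : ori v3 v1 v2 v5 = ori v1 v2 v3 v5 := by unfold ori; ring
  have e3 : ori v3 v4 v2 v5 = ori v2 v3 v4 v5 := by unfold ori; ring
  have e4 : ori v3 v4 v1 v5 = ori v1 v3 v4 v5 := by unfold ori; ring
  have e5 : ori v3 v4 v1 v2 = ori v1 v2 v3 v4 := by unfold ori; ring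
  rcases h with ⟨h1, h2, h3, h4, h5⟩ | ⟨h1, h2, h3, h4, h5⟩
  · exact Or.inl ⟨by linarith, by linarith, by linarith, by linarith, by linarith⟩
  · exact Or.inr ⟨by linarith, by linarith, by linarith, by linarith, by linarith⟩

theorem pr35 {v1 v2 v3 v4 v5 : E} (h : Pc v3 v5 v1 v2 v4) :
    Pt (ori v1 v2 v4 v5) (ori v1 v2 v3 v4) (ori v2 v3 v4 v5)
      (-ori v1 v3 v4 v5) (-ori v1 v2 v3 v5) := by
  have e1 : ori v5 v1 v2 v4 = -ori v1 v2 v4 v5 := by unfold ori; ring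
  have e2 : ori v3 v1 v2 v4 = ori v1 v2 v3 v4 := by unfold ori; ring
  have e3 : ori v3 v5 v2 v4 = -ori v2 v3 v4 v5 := by unfold ori; ring
  have e4 : ori v3 v5 v1 v4 = -ori v1 v3 v4 v5 := by unfold ori; ring
  have e5 : ori v3 v5 v1 v2 = ori v1 v2 v3 v5 := by unfold ori; ring
  rcases h with ⟨h1, h2, h3, h4, h5⟩ | ⟨h1, h2, h3, h4, h5⟩
  · exact Or.inr ⟨by linarith, by linarith, by linarith, by linarith, by linarith⟩
  · exact Or.inl ⟨by linarith, by linarith, by linarith, by linarith, by linarith⟩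

theorem pr45 {v1 v2 v3 v4 v5 : E} (h : Pc v4 v5 v1 v2 v3) :
    Pt (-ori v1 v2 v3 v5) (ori v1 v2 v3 v4) (ori v2 v3 v4 v5)
      (-ori v1 v3 v4 v5) (ori v1 v2 v4 v5) := by
  have e1 : ori v5 v1 v2 v3 = -ori v1 v2 v3 v5 := by unfold ori; ring
  have e2 : ori v4 v1 v2 v3 = -ori v1 v2 v3 v4 := by unfold ori; ring
  have e3 : ori v4 v5 v2 v3 = ori v2 v3 v4 v5 := by unfold ori; ring
  have e4 : ori v4 v5 v1 v3 = ori v1 v3 v4 v5 := by unfold ori; ring
  have e5 : ori v4 v5 v1 v2 = ori v1 v2 v4 v5 := by unfold ori; ring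
  rcases h with ⟨h1, h2, h3, h4, h5⟩ | ⟨h1, h2, h3, h4, h5⟩
  · exact Or.inl ⟨by linarith, by linarith, by linarith, by linarith, by linarith⟩
  · exact Or.inr ⟨by linarith, by linarith, by linarith, by linarith, by linarith⟩


/-- `X` has the threshold `θ` for the needle `τ` -/
def Th (N : ℤ) (τ : Fin 3) (X : E) (θ : ℤ) : Prop :=
  ∀ r q s : ℤ, 0 ≤ r → r < q → q < s → s < N →
    (r + s < θ → ori (pt N τ r) (pt N τ q) (pt N τ s) X < 0) ∧
    (θ ≤ r + s → 0 < ori (pt N τ r) (pt N τ q) (pt N τ s) X)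

/-- `X` is before `Y`, seen from the needle `τ` -/
def Ps (N : ℤ) (τ : Fin 3) (X Y : E) : Prop :=
  ∀ r q : ℤ, 0 ≤ r → r < q → q < N → 0 < ori (pt N τ r) (pt N τ q) X Y

/-- the chord is in the needle -/
theorem c1 {N θ i j r s : ℤ} {τ : Fin 3} {X : E} (hX : Th N τ X θ) (hi : 0 ≤ i) (hij : i < j)
    (hj : j < N) (hr : 0 ≤ r) (hrs : r < s) (hs : s < N) (h1 : i ≠ r) (h2 : i ≠ s) (h3 : j ≠ r)
    (h4 : j ≠ s) (hf : r + s = θ - 1 ∨ r + s = θ) :
    ¬ Pc (pt N τ i) (pt N τ j) (pt N τ r) (pt N τ s) X := by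
  intro h
  have hc : j < r ∨ s < i ∨ (r < i ∧ j < s) ∨ (i < r ∧ s < j) ∨ (i < r ∧ r < j ∧ j < s) ∨
      (r < i ∧ i < s ∧ s < j) := by omega
  rcases hc with hc | hc | hc | hc | hc | hc
  · have a1 := (hX j r s (by omega) (by omega) (by omega) hs).1 (by omega)
    have a2 := (hX i r s (by omega) (by omega) (by omega) hs).1 (by omega)
    rcases pr12 h with ⟨b1, b2, b3, b4, b5⟩ | ⟨b1, b2, b3, b4, b5⟩ <;> linarith
  · have a1 := (hX r s j (by omega) (by omega) (by omega) hj).2 (by omega)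
    have a2 := (hX r s i (by omega) (by omega) (by omega) (by omega)).2 (by omega)
    rcases pr34 h with ⟨b1, b2, b3, b4, b5⟩ | ⟨b1, b2, b3, b4, b5⟩ <;> linarith
  · have a1 := hX r j s (by omega) (by omega) (by omega) hs
    have a2 := hX r i s (by omega) (by omega) (by omega) hs
    rcases lt_or_ge (r + s) θ with c | c
    · have a3 := a1.1 c
      have a4 := a2.1 c
      rcases pr23 h with ⟨b1, b2, b3, b4, b5⟩ | ⟨b1, b2, b3, b4, b5⟩ <;> linarith
    · have a3 := a1.2 c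
      have a4 := a2.2 c
      rcases pr23 h with ⟨b1, b2, b3, b4, b5⟩ | ⟨b1, b2, b3, b4, b5⟩ <;> linarith
  · have a1 := hX i s j (by omega) (by omega) (by omega) hj
    have a2 := hX i r j (by omega) (by omega) (by omega) hj
    rcases lt_or_ge (i + j) θ with c | c
    · have a3 := a1.1 c
      have a4 := a2.1 c
      rcases pr14 h with ⟨b1, b2, b3, b4, b5⟩ | ⟨b1, b2, b3, b4, b5⟩ <;> linarith
    · have a3 := a1.2 c
      have a4 := a2.2 c
      rcases pr14 h with ⟨b1, b2, b3, b4, b5⟩ | ⟨b1, b2, b3, b4, b5⟩ <;> linarith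
  · have a1 := (hX i j s (by omega) (by omega) (by omega) hs).1 (by omega)
    have a2 := sgn4 τ hi hc.1 hc.2.1 hc.2.2 hs
    rcases pr13 h with ⟨b1, b2, b3, b4, b5⟩ | ⟨b1, b2, b3, b4, b5⟩ <;> linarith
  · have a1 := (hX r i j (by omega) (by omega) (by omega) hj).2 (by omega)
    have a2 := sgn4 τ hr hc.1 hc.2.1 hc.2.2 hj
    rcases pr24 h with ⟨b1, b2, b3, b4, b5⟩ | ⟨b1, b2, b3, b4, b5⟩ <;> linarith

/-- one end of the chord is in the needle, the other one is after `X` -/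
theorem c2 {N θ η i r s : ℤ} {τ : Fin 3} {X Y : E} (hY : Th N τ Y η)
    (hXY : Ps N τ X Y) (hi : 0 ≤ i) (hi' : i < N) (hr : 0 ≤ r) (hrs : r < s) (hs : s < N)
    (h1 : i ≠ r) (h2 : i ≠ s) (hf : r + s = θ - 1 ∨ r + s = θ) (hη : η < θ) :
    ¬ Pc (pt N τ i) Y (pt N τ r) (pt N τ s) X := by
  intro h
  have hc : i < r ∨ s < i ∨ (r < i ∧ i < s) := by omega
  rcases hc with hc | hc | hc
  · have a1 := hXY i r hi hc (by omega)
    have a2 := hXY i s hi (by omega) hs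
    rcases pr15 h with ⟨b1, b2, b3, b4, b5⟩ | ⟨b1, b2, b3, b4, b5⟩ <;> linarith
  · have a1 := hXY r i hr (by omega) (by omega)
    have a2 := hXY s i (by omega) (by omega) (by omega)
    rcases pr35 h with ⟨b1, b2, b3, b4, b5⟩ | ⟨b1, b2, b3, b4, b5⟩ <;> linarith
  · have a1 := (hY r i s hr hc.1 hc.2 hs).2 (by omega)
    have a2 := hXY i s (by omega) (by omega) hs
    rcases pr25 h with ⟨b1, b2, b3, b4, b5⟩ | ⟨b1, b2, b3, b4, b5⟩ <;> linarith

/-- one end of the chord is in the needle, the other one is before `X` -/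
theorem c3 {N θ η i r s : ℤ} {τ : Fin 3} {X Y : E} (hY : Th N τ Y η)
    (hXY : Ps N τ Y X) (hi : 0 ≤ i) (hi' : i < N) (hr : 0 ≤ r) (hrs : r < s) (hs : s < N)
    (h1 : i ≠ r) (h2 : i ≠ s) (hf : r + s = θ - 1 ∨ r + s = θ) (hη : θ < η) :
    ¬ Pc (pt N τ i) Y (pt N τ r) (pt N τ s) X := by
  intro h
  have hc : i < r ∨ s < i ∨ (r < i ∧ i < s) := by omega
  rcases hc with hc | hc | hc
  · have a1 := hXY i r hi hc (by omega)
    have a2 := hXY i s hi (by omega) hs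
    rcases pr14 h with ⟨b1, b2, b3, b4, b5⟩ | ⟨b1, b2, b3, b4, b5⟩ <;> linarith
  · have a1 := hXY r i hr (by omega) (by omega)
    have a2 := hXY s i (by omega) (by omega) (by omega)
    rcases pr34 h with ⟨b1, b2, b3, b4, b5⟩ | ⟨b1, b2, b3, b4, b5⟩ <;> linarith
  · have a1 := (hY r i s hr hc.1 hc.2 hs).1 (by omega)
    have a2 := hXY i s (by omega) (by omega) hs
    rcases pr24 h with ⟨b1, b2, b3, b4, b5⟩ | ⟨b1, b2, b3, b4, b5⟩ <;> linarith

/-- the chord is in a needle with one point of the face -/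
theorem c4 {N θ η i j k : ℤ} {τ : Fin 3} {X Y : E} (hX : Th N τ X θ) (hY : Th N τ Y η)
    (hXY : Ps N τ X Y) (hi : 0 ≤ i) (hij : i < j) (hj : j < N) (hk : 0 ≤ k) (hk' : k < N)
    (h1 : i ≠ k) (h2 : j ≠ k) (hf : i + j < η ∨ θ ≤ i + j ∨ k < i ∨ j < k) :
    ¬ Pc (pt N τ i) (pt N τ j) (pt N τ k) X Y := by
  intro h
  have hc : k < i ∨ j < k ∨ (i < k ∧ k < j) := by omega
  rcases hc with hc | hc | hc
  · have a1 := hXY k j hk (by omega) hj
    have a2 := hXY k i hk hc (by omega)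
    rcases pr23 h with ⟨b1, b2, b3, b4, b5⟩ | ⟨b1, b2, b3, b4, b5⟩ <;> linarith
  · have a1 := hXY i k hi (by omega) hk'
    have a2 := hXY j k (by omega) hc hk'
    rcases pr12 h with ⟨b1, b2, b3, b4, b5⟩ | ⟨b1, b2, b3, b4, b5⟩ <;> linarith
  · have a1 := hXY i j hi hij hj
    rcases lt_or_ge (i + j) η with c | c
    · have a2 := (hY i k j hi hc.1 hc.2 hj).1 c
      rcases pr13 h with ⟨b1, b2, b3, b4, b5⟩ | ⟨b1, b2, b3, b4, b5⟩ <;> linarith
    · have a2 := (hX i k j hi hc.1 hc.2 hj).2 (by omega)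
      rcases pr13 h with ⟨b1, b2, b3, b4, b5⟩ | ⟨b1, b2, b3, b4, b5⟩ <;> linarith

/-- two points of the face on the same side of the plane of the other three points -/
theorem c5 {a b c d e : E} (h : (0 < ori a b c e ∧ 0 < ori a b d e) ∨
    (ori a b c e < 0 ∧ ori a b d e < 0)) : ¬ Pc a b c d e := by
  rintro (⟨h1, h2, h3, h4, h5⟩ | ⟨h1, h2, h3, h4, h5⟩) <;> rcases h with ⟨h6, h7⟩ | ⟨h6, h7⟩ <;>
    linarith

/-! ### Symmetries -/

theorem Pc.ab {a b c d e : E} (h : Pc a b c d e) : Pc b a c d e := by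
  have e3 : ori b a d e = -ori a b d e := by unfold ori; ring
  have e4 : ori b a c e = -ori a b c e := by unfold ori; ring
  have e5 : ori b a c d = -ori a b c d := by unfold ori; ring
  rcases h with ⟨h1, h2, h3, h4, h5⟩ | ⟨h1, h2, h3, h4, h5⟩
  · exact Or.inr ⟨by linarith, by linarith, by linarith, by linarith, by linarith⟩
  · exact Or.inl ⟨by linarith, by linarith, by linarith, by linarith, by linarith⟩

theorem Pc.cd {a b c d e : E} (h : Pc a b c d e) : Pc a b d c e := by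
  have e1 : ori b d c e = -ori b c d e := by unfold ori; ring
  have e2 : ori a d c e = -ori a c d e := by unfold ori; ring
  have e5 : ori a b d c = -ori a b c d := by unfold ori; ring
  rcases h with ⟨h1, h2, h3, h4, h5⟩ | ⟨h1, h2, h3, h4, h5⟩
  · exact Or.inr ⟨by linarith, by linarith, by linarith, by linarith, by linarith⟩
  · exact Or.inl ⟨by linarith, by linarith, by linarith, by linarith, by linarith⟩

theorem Pc.de {a b c d e : E} (h : Pc a b c d e) : Pc a b c e d := by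
  have e1 : ori b c e d = -ori b c d e := by unfold ori; ring
  have e2 : ori a c e d = -ori a c d e := by unfold ori; ring
  have e3 : ori a b e d = -ori a b d e := by unfold ori; ring
  rcases h with ⟨h1, h2, h3, h4, h5⟩ | ⟨h1, h2, h3, h4, h5⟩
  · exact Or.inr ⟨by linarith, by linarith, by linarith, by linarith, by linarith⟩
  · exact Or.inl ⟨by linarith, by linarith, by linarith, by linarith, by linarith⟩

/-! ### The thresholds of the points -/

theorem t11 (τ : Fin 3) : τ + 1 + 1 = τ + 2 := by fin_cases τ <;> rfl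
theorem t12 (τ : Fin 3) : τ + 1 + 2 = τ := by fin_cases τ <;> rfl
theorem t21 (τ : Fin 3) : τ + 2 + 1 = τ := by fin_cases τ <;> rfl
theorem t22 (τ : Fin 3) : τ + 2 + 2 = τ + 1 := by fin_cases τ <;> rfl
theorem t01 (τ : Fin 3) : τ ≠ τ + 1 := by fin_cases τ <;> decide
theorem t02 (τ : Fin 3) : τ ≠ τ + 2 := by fin_cases τ <;> decide
theorem t1_2 (τ : Fin 3) : τ + 2 ≠ τ + 1 := by fin_cases τ <;> decide
theorem tcase (τ σ : Fin 3) : σ = τ ∨ σ = τ + 1 ∨ σ = τ + 2 := by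
  fin_cases τ <;> fin_cases σ <;> decide

/-- the point -/
noncomputable def qt (N : ℤ) (X : Fin 3 × ℤ) : E := pt N X.1 X.2

/-- the point is one of the points -/
def Ok (N : ℤ) (X : Fin 3 × ℤ) : Prop := 0 ≤ X.2 ∧ X.2 < N

/-- the threshold -/
def th (N : ℤ) (τ : Fin 3) (X : Fin 3 × ℤ) : ℤ :=
  if X.1 = τ + 1 then 2 * N - 1 - X.2 else N - 1 - X.2

theorem th1 (N : ℤ) (τ : Fin 3) (t : ℤ) : th N τ (τ + 1, t) = 2 * N - 1 - t := by simp [th]

theorem th2 (N : ℤ) (τ : Fin 3) (t : ℤ) : th N τ (τ + 2, t) = N - 1 - t := by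
  simp [th]

theorem th_spec {N : ℤ} {τ : Fin 3} {X : Fin 3 × ℤ} (hX : Ok N X) (h : X.1 ≠ τ) :
    Th N τ (qt N X) (th N τ X) := by
  obtain ⟨σ, t⟩ := X
  obtain ⟨h0, h1⟩ := hX
  simp only at h0 h1 h
  intro r q s hr hrq hqs hs
  rcases tcase τ σ with rfl | rfl | rfl
  · exact absurd rfl h
  · rw [th1]
    exact ⟨fun c => sgn31 τ hr hrq hqs hs h0 h1 (by omega),
      fun c => sgn31' τ hr hrq hqs hs h0 h1 (by omega)⟩
  · rw [th2]
    exact ⟨fun c => sgn32 τ hr hrq hqs hs h0 h1 (by omega),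
      fun c => sgn32' τ hr hrq hqs hs h0 h1 (by omega)⟩

theorem ps11 {N t u : ℤ} (τ : Fin 3) (ht : 0 ≤ t) (h : t < u) (hu : u < N) :
    Ps N τ (qt N (τ + 1, t)) (qt N (τ + 1, u)) :=
  fun _ _ hr hrq hq => sgn22 τ hr hrq hq ht h hu

theorem ps12 {N t u : ℤ} (τ : Fin 3) (ht : 0 ≤ t) (ht' : t < N) (hu' : 0 ≤ u) (hu : u < N) :
    Ps N τ (qt N (τ + 1, t)) (qt N (τ + 2, u)) :=
  fun _ _ hr hrq hq => sgn211 τ hr hrq hq ht ht' hu' hu

theorem ps22 {N t u : ℤ} (τ : Fin 3) (ht : 0 ≤ t) (h : t < u) (hu : u < N) :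
    Ps N τ (qt N (τ + 2, t)) (qt N (τ + 2, u)) := by
  intro r q hr hrq hq
  have h1 := sgn22 (τ + 2) ht h hu hr hrq hq
  rw [t21] at h1
  have e : ori (pt N τ r) (pt N τ q) (pt N (τ + 2) t) (pt N (τ + 2) u) =
      ori (pt N (τ + 2) t) (pt N (τ + 2) u) (pt N τ r) (pt N τ q) := by unfold ori; ring
  unfold qt
  rw [e]
  exact h1

theorem cmp {N : ℤ} {τ : Fin 3} {X Y : Fin 3 × ℤ} (hX : Ok N X) (hY : Ok N Y) (h1 : X.1 ≠ τ)
    (h2 : Y.1 ≠ τ) (h : X ≠ Y) : (th N τ Y < th N τ X ∧ Ps N τ (qt N X) (qt N Y)) ∨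
      (th N τ X < th N τ Y ∧ Ps N τ (qt N Y) (qt N X)) := by
  obtain ⟨σ, t⟩ := X
  obtain ⟨ρ, u⟩ := Y
  obtain ⟨a1, a2⟩ := hX
  obtain ⟨b1, b2⟩ := hY
  simp only at a1 a2 b1 b2 h1 h2
  rcases tcase τ σ with rfl | rfl | rfl
  · exact absurd rfl h1
  · rcases tcase τ ρ with rfl | rfl | rfl
    · exact absurd rfl h2
    · have h3 : t ≠ u := by
        rintro rfl
        exact h rfl
      rw [th1, th1]
      rcases lt_or_gt_of_ne h3 with c | c
      · exact Or.inl ⟨by omega, ps11 τ a1 c b2⟩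
      · exact Or.inr ⟨by omega, ps11 τ b1 c a2⟩
    · rw [th1, th2]
      exact Or.inl ⟨by omega, ps12 τ a1 a2 b1 b2⟩
  · rcases tcase τ ρ with rfl | rfl | rfl
    · exact absurd rfl h2
    · rw [th1, th2]
      exact Or.inr ⟨by omega, ps12 τ b1 b2 a1 a2⟩
    · have h3 : t ≠ u := by
        rintro rfl
        exact h rfl
      rw [th2, th2]
      rcases lt_or_gt_of_ne h3 with c | c
      · exact Or.inl ⟨by omega, ps22 τ a1 c b2⟩
      · exact Or.inr ⟨by omega, ps22 τ b1 c a2⟩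

/-! ### Two, two and one -/

theorem s211 {N : ℤ} {σ τ ρ : Fin 3} (h1 : σ ≠ τ) (h2 : σ ≠ ρ) (h3 : τ ≠ ρ) {r q t : ℤ}
    (hr : 0 ≤ r) (hq : 0 ≤ q) (hr' : r < N) (hq' : q < N) (hrq : r ≠ q) (ht : 0 ≤ t)
    (ht' : t < N) :
    (∀ u, 0 ≤ u → u < N → 0 < ori (pt N σ r) (pt N σ q) (pt N τ u) (pt N ρ t)) ∨
    (∀ u, 0 ≤ u → u < N → ori (pt N σ r) (pt N σ q) (pt N τ u) (pt N ρ t) < 0) := by
  have e : ∀ a b c d : E, ori a b d c = -ori a b c d := fun a b c d => ori_34 a b c d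
  have e' : ∀ a b c d : E, ori b a c d = -ori a b c d := fun a b c d => ori_12 a b c d
  rcases tcase σ τ with rfl | rfl | rfl
  · exact absurd rfl h1
  · rcases tcase σ ρ with rfl | rfl | rfl
    · exact absurd rfl h2
    · exact absurd rfl h3
    · rcases lt_or_gt_of_ne hrq with c | c
      · exact Or.inl fun u hu hu' => sgn211 σ hr c hq' hu hu' ht ht'
      · refine Or.inr fun u hu hu' => ?_
        have h := sgn211 σ hq c hr' hu hu' ht ht'
        rw [e'] at h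
        linarith
  · rcases tcase σ ρ with rfl | rfl | rfl
    · exact absurd rfl h2
    · rcases lt_or_gt_of_ne hrq with c | c
      · refine Or.inr fun u hu hu' => ?_
        have h := sgn211 σ hr c hq' ht ht' hu hu'
        rw [e] at h
        linarith
      · refine Or.inl fun u hu hu' => ?_
        have h := sgn211 σ hq c hr' ht ht' hu hu'
        rw [e, e'] at h
        linarith
    · exact absurd rfl h3

/-- the same sign for all points of a needle -/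
def Cs (N : ℤ) (τ : Fin 3) (X Y Z : Fin 3 × ℤ) : Prop :=
  (∀ u, 0 ≤ u → u < N → 0 < ori (qt N Y) (qt N Z) (pt N τ u) (qt N X)) ∨
  (∀ u, 0 ≤ u → u < N → ori (qt N Y) (qt N Z) (pt N τ u) (qt N X) < 0)

theorem Cs.of {N : ℤ} {τ : Fin 3} {X Y Z X' Y' Z' : Fin 3 × ℤ} (h : Cs N τ X Y Z)
    (e : (∀ a, ori (qt N Y') (qt N Z') a (qt N X') = ori (qt N Y) (qt N Z) a (qt N X)) ∨
      (∀ a, ori (qt N Y') (qt N Z') a (qt N X') = -ori (qt N Y) (qt N Z) a (qt N X))) :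
    Cs N τ X' Y' Z' := by
  rcases h with h | h <;> rcases e with e | e
  · exact Or.inl fun u hu hu' => by rw [e]; exact h u hu hu'
  · exact Or.inr fun u hu hu' => by rw [e]; have := h u hu hu'; linarith
  · exact Or.inr fun u hu hu' => by rw [e]; exact h u hu hu'
  · exact Or.inl fun u hu hu' => by rw [e]; have := h u hu hu'; linarith

theorem cs0 {N : ℤ} {τ : Fin 3} {X Y Z : Fin 3 × ℤ} (hX : Ok N X) (hY : Ok N Y) (hZ : Ok N Z)
    (h1 : Y.1 = Z.1) (h2 : Y ≠ Z) (h3 : Y.1 ≠ τ) (h4 : Y.1 ≠ X.1) (h5 : X.1 ≠ τ) :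
    Cs N τ X Y Z := by
  obtain ⟨σ, r⟩ := Y
  obtain ⟨σ', q⟩ := Z
  obtain ⟨ρ, t⟩ := X
  simp only at h1 h3 h4 h5
  subst h1
  exact s211 h3 h4 (Ne.symm h5) hY.1 hZ.1 hY.2 hZ.2 (by rintro rfl; exact h2 rfl) hX.1 hX.2

theorem cs1 {N : ℤ} {τ : Fin 3} {X Y Z : Fin 3 × ℤ} (hX : Ok N X) (hY : Ok N Y) (hZ : Ok N Z)
    (hYZ : Y ≠ Z) (hXY : X ≠ Y) (hXZ : X ≠ Z) (h1 : X.1 ≠ τ) (h2 : Y.1 ≠ τ) (h3 : Z.1 ≠ τ)
    (h : ¬ (Y.1 = X.1 ∧ Z.1 = X.1)) : Cs N τ X Y Z := by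
  by_cases c : Y.1 = Z.1
  · refine cs0 hX hY hZ c hYZ h2 (fun h' => h ⟨h', c ▸ h'⟩) h1
  · have hc : Y.1 = X.1 ∨ Z.1 = X.1 := by
      rcases tcase τ X.1 with a | a | a
      · exact absurd a h1
      · rcases tcase τ Y.1 with b | b | b
        · exact absurd b h2
        · exact Or.inl (by rw [a, b])
        · rcases tcase τ Z.1 with d | d | d
          · exact absurd d h3
          · exact Or.inr (by rw [a, d])
          · exact absurd (by rw [b, d]) c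
      · rcases tcase τ Y.1 with b | b | b
        · exact absurd b h2
        · rcases tcase τ Z.1 with d | d | d
          · exact absurd d h3
          · exact absurd (by rw [b, d]) c
          · exact Or.inr (by rw [a, d])
        · exact Or.inl (by rw [a, b])
    rcases hc with hc | hc
    · have h' := cs0 (τ := τ) hZ hY hX hc hXY.symm h2 c h3
      exact h'.of (Or.inr fun a => by unfold ori; ring)
    · have h' := cs0 (τ := τ) hY hX hZ hc.symm hXZ h1 (fun h' => c (by rw [← h', hc])) h2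
      exact h'.of (Or.inr fun a => by unfold ori; ring)

/-! ### The result -/

/-- `X` is the third vertex of a face with the vertices `(τ, r)` and `(τ, s)` -/
def Fa (N : ℤ) (τ : Fin 3) (r s : ℤ) (X : Fin 3 × ℤ) : Prop :=
  (X.1 = τ + 1 ∧ (r + s + X.2 = 2 * N - 2 ∨ r + s + X.2 = 2 * N - 1)) ∨
  (X.1 = τ + 2 ∧ (r + s + X.2 = N - 2 ∨ r + s + X.2 = N - 1))

theorem Fa.ne {N : ℤ} {τ : Fin 3} {r s : ℤ} {X : Fin 3 × ℤ} (h : Fa N τ r s X) : X.1 ≠ τ := by
  rcases h with ⟨h, -⟩ | ⟨h, -⟩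
  · rw [h]; exact (t01 τ).symm
  · rw [h]; exact (t02 τ).symm

theorem Fa.th {N : ℤ} {τ : Fin 3} {r s : ℤ} {X : Fin 3 × ℤ} (h : Fa N τ r s X) :
    r + s = th N τ X - 1 ∨ r + s = th N τ X := by
  obtain ⟨σ, t⟩ := X
  rcases h with ⟨h, h'⟩ | ⟨h, h'⟩ <;> simp only at h h' <;> subst h
  · rw [th1]; omega
  · rw [th2]; omega

/-- the chord is in the needle of the third vertex of the face -/
theorem c6 {N : ℤ} {τ ρ : Fin 3} {r s i j k : ℤ} (hr : 0 ≤ r) (hrs : r < s) (hs : s < N)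
    (hf : Fa N τ r s (ρ, k)) (hk : 0 ≤ k) (hk' : k < N) (hi : 0 ≤ i) (hij : i < j) (hj : j < N)
    (hik : i ≠ k) (hjk : j ≠ k) :
    ¬ Pc (pt N ρ i) (pt N ρ j) (qt N (τ, r)) (qt N (τ, s)) (pt N ρ k) := by
  have hr' : Ok N (τ, r) := ⟨hr, by simp only; omega⟩
  have hs' : Ok N (τ, s) := ⟨by simp only; omega, hs⟩
  intro h
  have h' := h.de.cd
  revert h'
  rcases hf with ⟨c, d⟩ | ⟨c, d⟩ <;> simp only at c d <;> subst c
  · have e : (τ, r) = ((τ + 1) + 2, r) := by rw [t12]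
    have e' : (τ, s) = ((τ + 1) + 2, s) := by rw [t12]
    refine c4 (θ := N - 1 - r) (η := N - 1 - s) ?_ ?_ ?_ hi hij hj hk hk' hik hjk (by omega)
    · have := th_spec (τ := τ + 1) hr' (t01 τ)
      rwa [e, th2, ← e] at this
    · have := th_spec (τ := τ + 1) hs' (t01 τ)
      rwa [e', th2, ← e'] at this
    · rw [e, e']
      exact ps22 (τ + 1) hr hrs hs
  · have e : (τ, r) = ((τ + 2) + 1, r) := by rw [t21]
    have e' : (τ, s) = ((τ + 2) + 1, s) := by rw [t21]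
    refine c4 (θ := 2 * N - 1 - r) (η := 2 * N - 1 - s) ?_ ?_ ?_ hi hij hj hk hk' hik hjk
      (by omega)
    · have := th_spec (τ := τ + 2) hr' (t02 τ)
      rwa [e, th1, ← e] at this
    · have := th_spec (τ := τ + 2) hs' (t02 τ)
      rwa [e', th1, ← e'] at this
    · rw [e, e']
      exact ps11 (τ + 2) hr hrs hs

/-- No segment meets a face. -/
theorem noPc {N : ℤ} {τ : Fin 3} {r s : ℤ} (hr : 0 ≤ r) (hrs : r < s) (hs : s < N)
    {X Y Z : Fin 3 × ℤ} (hX : Ok N X) (hY : Ok N Y) (hZ : Ok N Z) (hf : Fa N τ r s X)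
    (hYr : Y ≠ (τ, r)) (hYs : Y ≠ (τ, s)) (hYX : Y ≠ X) (hZr : Z ≠ (τ, r)) (hZs : Z ≠ (τ, s))
    (hZX : Z ≠ X) (hYZ : Y ≠ Z) :
    ¬ Pc (qt N Y) (qt N Z) (qt N (τ, r)) (qt N (τ, s)) (qt N X) := by
  have hXt := hf.ne
  have hTX := th_spec hX hXt
  have key : ∀ Y Z : Fin 3 × ℤ, Ok N Y → Ok N Z → Y ≠ (τ, r) → Y ≠ (τ, s) → Z ≠ X →
      Y.1 = τ → Z.1 ≠ τ → ¬ Pc (qt N Y) (qt N Z) (qt N (τ, r)) (qt N (τ, s)) (qt N X) := by
    intro Y Z hY hZ hYr hYs hZX h1 h2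
    obtain ⟨τ', i⟩ := Y
    simp only at h1
    subst h1
    have hir : i ≠ r := by rintro rfl; exact hYr rfl
    have his : i ≠ s := by rintro rfl; exact hYs rfl
    have hTZ := th_spec hZ h2
    rcases cmp hX hZ hXt h2 (Ne.symm hZX) with ⟨c, c'⟩ | ⟨c, c'⟩
    · exact c2 hTZ c' hY.1 hY.2 hr hrs hs hir his hf.th c
    · exact c3 hTZ c' hY.1 hY.2 hr hrs hs hir his hf.th c
  by_cases h1 : Y.1 = τ
  · by_cases h2 : Z.1 = τ
    · obtain ⟨τ', i⟩ := Y
      obtain ⟨τ'', j⟩ := Z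
      simp only at h1 h2
      subst h1
      subst h2
      have hir : i ≠ r := by rintro rfl; exact hYr rfl
      have his : i ≠ s := by rintro rfl; exact hYs rfl
      have hjr : j ≠ r := by rintro rfl; exact hZr rfl
      have hjs : j ≠ s := by rintro rfl; exact hZs rfl
      have hij : i ≠ j := by rintro rfl; exact hYZ rfl
      rcases lt_or_gt_of_ne hij with c | c
      · exact c1 hTX hY.1 c hZ.2 hr hrs hs hir his hjr hjs hf.th
      · exact fun h => c1 hTX hZ.1 c hY.2 hr hrs hs hjr hjs hir his hf.th h.ab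
    · exact key Y Z hY hZ hYr hYs hZX h1 h2
  · by_cases h2 : Z.1 = τ
    · exact fun h => key Z Y hZ hY hZr hZs hYX h2 h1 h.ab
    · by_cases h3 : Y.1 = X.1 ∧ Z.1 = X.1
      · obtain ⟨ρ, k⟩ := X
        obtain ⟨ρ', i⟩ := Y
        obtain ⟨ρ'', j⟩ := Z
        obtain ⟨h3, h4⟩ := h3
        simp only at h3 h4 hXt
        subst h3
        subst h4
        have hik : i ≠ k := by rintro rfl; exact hYX rfl
        have hjk : j ≠ k := by rintro rfl; exact hZX rfl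
        have hij : i ≠ j := by rintro rfl; exact hYZ rfl
        rcases lt_or_gt_of_ne hij with c | c
        · exact c6 hr hrs hs hf hX.1 hX.2 hY.1 c hZ.2 hik hjk
        · exact fun h => c6 hr hrs hs hf hX.1 hX.2 hZ.1 c hY.2 hjk hik h.ab
      · have hcs := cs1 (τ := τ) hX hY hZ hYZ (Ne.symm hYX) (Ne.symm hZX) hXt h1 h2 h3
        apply c5
        rcases hcs with hcs | hcs
        · exact Or.inl ⟨hcs r hr (by omega), hcs s (by omega) hs⟩
        · exact Or.inr ⟨hcs r hr (by omega), hcs s (by omega) hs⟩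

end Pool.Agent.Lib.MP_4f1247_co.NN
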